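import Pool.Agent.Lib.MP_682396_ag.Gen.Red

/-!
# Lifting bases along a surjection onto a reduction modulo an ideal
-/

set_option autoImplicit false
set_option linter.unusedSectionVars false

open Module IsLocalRing
open scoped Pointwise

universe u v w

namespace Pool.Agent.Lib.MP_682396_ag

open Tw

section BasisLift

variable {D : Type*} [CommRing D] {d : ℕ} {R : Type u} [CommRing R] [Algebra D R]
  [Algebra (MvPowerSeries (Fin d) D) R] [IsScalarTower D (MvPowerSeries (Fin d) D) R]
  {M N : Type u} [AddCommGroup M] [Module R M]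
  [Module (MvPowerSeries (Fin d) D) M] [IsScalarTower (MvPowerSeries (Fin d) D) R M]
  [AddCommGroup N] [Module R N]
  [Module (MvPowerSeries (Fin d) D) N] [IsScalarTower (MvPowerSeries (Fin d) D) R N]
  {Q : Type*} [Fintype Q] [DecidableEq Q]

/-- The submodule generated by an ideal of the base, over the power series ring. -/
noncomputable def redLam (I : Ideal D) (d : ℕ) (M : Type*) [AddCommGroup M]
    [Module (MvPowerSeries (Fin d) D) M] : Submodule (MvPowerSeries (Fin d) D) M :=
  (I.map (algebraMap D (MvPowerSeries (Fin d) D))) • ⊤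

theorem mem_redLam_iff (I : Ideal D) (m : M) : m ∈ redLam I d M ↔ m ∈ redSub I R M := by
  have h2 : redSub I R M = (I.map (algebraMap D (MvPowerSeries (Fin d) D))).map
      (algebraMap (MvPowerSeries (Fin d) D) R) • (⊤ : Submodule R M) := by
    unfold redSub
    rw [Ideal.map_map, ← IsScalarTower.algebraMap_eq]
  have h4 := Ideal.smul_restrictScalars (I.map (algebraMap D (MvPowerSeries (Fin d) D)))
    (⊤ : Submodule R M)
  rw [← h2] at h4
  have h5 : m ∈ redSub I R M ↔
    m ∈ (redSub I R M).restrictScalars (MvPowerSeries (Fin d) D) := Iff.rfl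
  rw [h5, h4]
  rfl

/-- A surjection onto the reduction of a free module of the same rank lifts a basis. -/
theorem exists_basis_lift2 [IsLocalRing D] (bM : Basis Q (MvPowerSeries (Fin d) D) M)
    (bN : Basis Q (MvPowerSeries (Fin d) D) N) {I : Ideal D} (hI : I ≤ maximalIdeal D)
    (ψ : M →ₗ[R] N ⧸ redSub I R N) (hψ : Function.Surjective ψ) :
    ∃ b' : Basis Q (MvPowerSeries (Fin d) D) M,
      ∀ q, ψ (b' q) = Submodule.Quotient.mk (bN q) := by
  let Λ := MvPowerSeries (Fin d) D
  let Nq := N ⧸ redSub I R N
  let IΛ : Ideal Λ := I.map (algebraMap D (MvPowerSeries (Fin d) D))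
  let e : M ≃ₗ[Λ] N := bM.equiv bN (Equiv.refl Q)
  let g : M →ₗ[Λ] Nq := (Submodule.mkQ (redSub I R N)).restrictScalars Λ ∘ₗ
    e.toLinearMap
  have hg : ∀ m, g m = Submodule.Quotient.mk (e m) := fun _ => rfl
  let f : M →ₗ[Λ] Nq := ψ.restrictScalars Λ
  have hf : ∀ m, f m = ψ m := fun _ => rfl
  have hgs : Function.Surjective g := by
    intro y
    obtain ⟨n, rfl⟩ := Submodule.Quotient.mk_surjective _ y
    exact ⟨e.symm n, by rw [hg, LinearEquiv.apply_symm_apply]⟩
  have hgker : ∀ m, g m = 0 → m ∈ redLam I d M := by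
    intro m hm
    rw [hg, Submodule.Quotient.mk_eq_zero, ← mem_redLam_iff (d := d) (R := R)] at hm
    have h1 : (redLam I d N).map e.symm.toLinearMap ≤ redLam I d M := by
      unfold redLam
      rw [Submodule.map_smul'']
      exact smul_mono_right _ le_top
    have h2 := h1 (Submodule.mem_map_of_mem hm)
    rw [LinearEquiv.coe_coe, LinearEquiv.symm_apply_apply] at h2
    exact h2
  have hzero : ∀ m ∈ redLam I d M, f m = 0 := by
    intro m hm
    rw [mem_redLam_iff (R := R)] at hm
    rw [hf]
    have h1 := redSub_map I ψ hm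
    have h2 : redSub I R (N ⧸ redSub I R N) ≤ ⊥ := by
      rw [redSub_le]
      intro c hc y
      obtain ⟨n, rfl⟩ := Submodule.Quotient.mk_surjective _ y
      rw [← Submodule.Quotient.mk_smul, Submodule.mem_bot, Submodule.Quotient.mk_eq_zero]
      exact smul_mem_redSub hc n
    exact (Submodule.mem_bot R).mp (h2 h1)
  have hle : LinearMap.ker g ≤ LinearMap.ker f := by
    intro m hm
    exact hzero m (hgker m hm)
  let h : Nq →ₗ[Λ] Nq := (LinearMap.ker g).liftQ f hle ∘ₗ
    (g.quotKerEquivOfSurjective hgs).symm.toLinearMap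
  have hh : ∀ m, h (g m) = f m := by
    intro m
    have h1 : (g.quotKerEquivOfSurjective hgs).symm (g m) = Submodule.Quotient.mk m := by
      rw [LinearEquiv.symm_apply_eq]
      rfl
    show (LinearMap.ker g).liftQ f hle ((g.quotKerEquivOfSurjective hgs).symm (g m)) = f m
    rw [h1, Submodule.liftQ_apply]
  have hfinM : Module.Finite Λ M := Module.Finite.of_basis bM
  have hfin : Module.Finite Λ Nq := Module.Finite.of_surjective g hgs
  have hhs : Function.Surjective h := by
    intro y
    obtain ⟨m, hm⟩ := hψ y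
    exact ⟨g m, (hh m).trans hm⟩
  have hhi : Function.Injective h := OrzechProperty.injective_of_surjective_endomorphism h hhs
  have hfker : ∀ m, ψ m = 0 → m ∈ redLam I d M := by
    intro m hm
    apply hgker
    apply hhi
    rw [hh, map_zero]
    exact hm
  choose v hv using fun q => hψ (Submodule.Quotient.mk (bN q))
  have hIm : IΛ ≤ maximalIdeal Λ := by
    rw [Ideal.map_le_iff_le_comap]
    intro c hc
    rw [Ideal.mem_comap, ← MvPowerSeries.c_eq_algebraMap, mem_maximalIdeal, mem_nonunits_iff,
      MvPowerSeries.isUnit_iff_constantCoeff, MvPowerSeries.constantCoeff_C]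
    exact hI hc
  have htop : (⊤ : Submodule Λ M) ≤ Submodule.span Λ (Set.range v) := by
    apply Submodule.le_of_le_smul_of_le_jacobson_bot (I := maximalIdeal Λ)
      Module.Finite.fg_top (IsLocalRing.maximalIdeal_le_jacobson _)
    intro m _
    obtain ⟨n, hn⟩ := Submodule.Quotient.mk_surjective _ (ψ m)
    have h1 : f (m - ∑ q, bN.repr n q • v q) = 0 := by
      rw [map_sub, map_sum]
      have h2 : ∀ q, f (bN.repr n q • v q) = (Submodule.mkQ
          (redSub I R N)).restrictScalars Λ (bN.repr n q • bN q) := by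
        intro q
        rw [map_smul, map_smul, hf, hv]
        rfl
      rw [Finset.sum_congr rfl fun q _ => h2 q, ← map_sum, bN.sum_repr, sub_eq_zero, hf, ← hn]
      rfl
    have hm' := hfker _ h1
    have h3 : m = (∑ q, bN.repr n q • v q) + (m - ∑ q, bN.repr n q • v q) := by
      abel
    rw [h3]
    refine Submodule.add_mem_sup ?_ (Submodule.smul_mono_left hIm hm')
    exact Submodule.sum_mem _ fun q _ => Submodule.smul_mem _ _
      (Submodule.subset_span (Set.mem_range_self q))
  have hfree : Module.Free Λ M := Module.Free.of_basis bM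
  refine ⟨basisOfTopLeSpanOfCardEqFinrank v htop (Module.finrank_eq_card_basis bM).symm, fun q => ?_⟩
  rw [coe_basisOfTopLeSpanOfCardEqFinrank]
  exact hv q

/-- The matrices of the action in compatible bases have the same reduction. -/
theorem rho_compat2 {K : Type*} [CommRing K] (p : D →+* K) {I : Ideal D} (hp : ∀ c ∈ I, p c = 0)
    (bM : Basis Q (MvPowerSeries (Fin d) D) M)
    (bN : Basis Q (MvPowerSeries (Fin d) D) N)
    (ψ : M →ₗ[R] N ⧸ redSub I R N)
    (hb : ∀ q, ψ (bM q) = Submodule.Quotient.mk (bN q))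
    (CM : CoordD D Q (xsD D d R) M) (CN : CoordD D Q (xsD D d R) N)
    (hCM : ∀ m a, CM.θ m a = (bM.repr m a.1).coeff (expo a.2))
    (hCN : ∀ m a, CN.θ m a = (bN.repr m a.1).coeff (expo a.2))
    (r : R) (a b : Q × (Fin d → Fin 5)) : p (CM.ρ r a b) = p (CN.ρ r a b) := by
  let Λ := MvPowerSeries (Fin d) D
  -- compatibility of the coordinates
  have key : ∀ (m : M) (n : N), ψ m = Submodule.Quotient.mk n → ∀ a,
      p (CM.θ m a) = p (CN.θ n a) := by
    intro m n hmn a
    have h1 : ψ m = Submodule.Quotient.mk (∑ q, bM.repr m q • bN q) := by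
      conv_lhs => rw [← bM.sum_repr m]
      rw [map_sum]
      have h2 : ∀ q, ψ (bM.repr m q • bM q) = (Submodule.mkQ
          (redSub I R N)).restrictScalars Λ (bM.repr m q • bN q) := by
        intro q
        have h3 : (ψ.restrictScalars Λ) (bM.repr m q • bM q) =
            bM.repr m q • (ψ.restrictScalars Λ) (bM q) := map_smul (ψ.restrictScalars Λ) _ _
        have h4 : (Submodule.mkQ
            (redSub I R N)).restrictScalars Λ (bM.repr m q • bN q) =
            bM.repr m q • (Submodule.mkQ
            (redSub I R N)).restrictScalars Λ (bN q) :=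
          map_smul ((Submodule.mkQ
            (redSub I R N)).restrictScalars Λ) _ _
        have h5 : (ψ.restrictScalars Λ) (bM q) = (Submodule.mkQ
            (redSub I R N)).restrictScalars Λ (bN q) := hb q
        rw [h4, ← h5, ← h3]
        rfl
      rw [Finset.sum_congr rfl fun q _ => h2 q, ← map_sum]
      rfl
    rw [hmn, Submodule.Quotient.eq] at h1
    have h4 : n = (∑ q, bM.repr m q • bN q) + (n - ∑ q, bM.repr m q • bN q) := by
      abel
    have h5 : ∀ q, bN.repr (∑ q, bM.repr m q • bN q) q = bM.repr m q := by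
      intro q
      have h6 := bN.repr_sum_self fun q => bM.repr m q
      exact congrFun h6 q
    have h7 := hp _ (CN.θ_mem h1 a)
    rw [map_sub, Pi.sub_apply, map_sub, sub_eq_zero] at h7
    rw [h7, hCM, hCN, h5]
  obtain ⟨m, hm⟩ := CM.surj (Pi.single b 1)
  obtain ⟨n, hn⟩ := Submodule.Quotient.mk_surjective _ (ψ m)
  have h1 : CM.ρ r a b = CM.θ (r • m) a := by
    rw [CM.smul, hm, Finset.sum_eq_single b]
    · rw [Pi.single_eq_same, mul_one]
    · intro b' _ hb'
      rw [Pi.single_eq_of_ne hb', mul_zero]
    · intro h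
      exact absurd (Finset.mem_univ _) h
  rw [h1, key (r • m) (r • n) (by rw [map_smul, ← hn]; rfl), CN.smul, map_sum,
    Finset.sum_eq_single b]
  · rw [map_mul, ← key m n hn.symm, hm, Pi.single_eq_same, map_one, mul_one]
  · intro b' _ hb'
    rw [map_mul, ← key m n hn.symm, hm, Pi.single_eq_of_ne hb', map_zero, mul_zero]
  · intro h
    exact absurd (Finset.mem_univ _) h

end BasisLift

end Pool.Agent.Lib.MP_682396_ag
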