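import Pool.Agent.Lib.MP_682396_ag.Isolated
import Pool.Agent.Lib.MP_682396_ag.MCM
import Pool.Agent.Lib.MP_682396_ag.Stab

/-!
# Parameters are regular on the endomorphism ring when its depth is large
-/

set_option autoImplicit false
set_option linter.unusedSectionVars false

open Module IsLocalRing RingTheory.Sequence
open scoped Pointwise

universe u

namespace Pool.Agent.Lib.MP_682396_ag

/-- The inductive form. -/
theorem isWeaklyRegular_of_fac {R : Type u} [CommRing R] [IsNoetherianRing R] [IsLocalRing R]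
    (xs rs : List R) : ∀ (E M : Type u) [AddCommGroup E] [Module R E] [Module.Finite R E]
      [AddCommGroup M] [Module R M] (G : Ideal R),
      (∀ x ∈ xs, ∃ (n : ℕ) (a : Fin n → (E →ₗ[R] M)) (b : Fin n → (M →ₗ[R] E)),
        ∀ e, ∑ i, b i (a i e) = x • e) →
      (∀ g ∈ G, ∀ e : E, g • e = 0) → (∀ r ∈ rs, r ∈ maximalIdeal R) →
      maximalIdeal R ≤ (Ideal.ofList xs ⊔ G ⊔ Ideal.ofList rs).radical →
      IsWeaklyRegular M rs →
      (∃ qs : List R, qs.length = rs.length ∧ (∀ q ∈ qs, q ∈ maximalIdeal R) ∧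
        IsWeaklyRegular E qs) → IsWeaklyRegular E rs := by
  induction rs with
  | nil =>
    intro E M _ _ _ _ _ G _ _ _ _ _ _
    exact IsWeaklyRegular.nil R E
  | cons r rs ih =>
    intro E M _ _ _ _ _ G hfac hG hmem hrad hM hE
    rcases subsingleton_or_nontrivial E with hE0 | hE0
    · exact isWeaklyRegular_of_subsingleton _ E
    obtain ⟨qs, hlen, hqs, hreg⟩ := hE
    rw [isWeaklyRegular_cons_iff] at hM
    obtain ⟨hrM, hM'⟩ := hM
    have hr : r ∈ maximalIdeal R := hmem r List.mem_cons_self
    have hrs : ∀ z ∈ rs, z ∈ maximalIdeal R := fun z hz => hmem z (List.mem_cons_of_mem r hz)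
    have hrE : IsSMulRegular E r := by
      by_contra hcon
      obtain ⟨z, hz0, hz⟩ : ∃ m : E, m ≠ 0 ∧ r • m = 0 := by
        by_contra h2
        push Not at h2
        apply hcon
        intro a b hab
        by_contra hne
        exact h2 (a - b) (sub_ne_zero.mpr hne) (by
          rw [smul_sub]
          exact sub_eq_zero.mpr hab)
      obtain ⟨p, hp, hle⟩ := exists_le_isAssociatedPrime_of_isNoetherianRing R z hz0
      have hpp := hp.isPrime
      have hle' : ∀ a : R, a • z = 0 → a ∈ p := by
        intro a ha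
        apply hle
        rw [Submodule.mem_colon_singleton, Submodule.mem_bot, ha]
      have hxs : Ideal.ofList xs ≤ p := by
        rw [Ideal.ofList, Ideal.span_le]
        intro x hx
        obtain ⟨n, a, b, hab⟩ := hfac x hx
        apply hle'
        rw [← hab z]
        refine Finset.sum_eq_zero fun i _ => ?_
        have h1 : a i z = 0 := by
          apply hrM
          show r • a i z = r • (0 : M)
          rw [← map_smul, hz, map_zero, smul_zero]
        rw [h1, map_zero]
      have hGp : G ≤ p := fun g hg => hle' g (hG g hg z)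
      have h3 := le_dim_of_mem_ass qs E hqs hreg p hp
      have h4 := dim_le_length p rs hrs (by
        refine hrad.trans (Ideal.radical_mono ?_)
        rw [Ideal.ofList_cons]
        refine sup_le ((sup_le hxs hGp).trans le_sup_left) (sup_le ?_ le_sup_right)
        exact ((Ideal.span_singleton_le_iff_mem _).mpr (hle' r hz)).trans le_sup_left)
      have h5 := h3.trans h4
      rw [hlen, List.length_cons] at h5
      have h6 : rs.length + 1 ≤ rs.length := by exact_mod_cast h5
      omega
    rw [isWeaklyRegular_cons_iff]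
    refine ⟨hrE, ?_⟩
    obtain ⟨qs', hlen', hqs', hreg'⟩ := exists_regular_quot (by
      rw [hlen, List.length_cons]) hqs hreg hr hrE
    refine ih (QuotSMulTop r E) (QuotSMulTop r M) (G ⊔ Ideal.span {r}) ?_ ?_ hrs ?_ hM'
      ⟨qs', hlen', hqs', hreg'⟩
    · intro x hx
      obtain ⟨n, a, b, hab⟩ := hfac x hx
      refine ⟨n, fun i => QuotSMulTop.map r (a i), fun i => QuotSMulTop.map r (b i), fun e => ?_⟩
      obtain ⟨e, rfl⟩ := Submodule.Quotient.mk_surjective _ e
      rw [← Submodule.Quotient.mk_smul, ← hab e]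
      simp only [QuotSMulTop.map_apply_mk]
      exact (map_sum (Submodule.mkQ (r • ⊤ : Submodule R E)) _ _).symm
    · intro g hg e
      obtain ⟨g₁, hg₁, g₂, hg₂, rfl⟩ := Submodule.mem_sup.mp hg
      obtain ⟨c, rfl⟩ := Ideal.mem_span_singleton'.mp hg₂
      obtain ⟨e, rfl⟩ := Submodule.Quotient.mk_surjective _ e
      rw [← Submodule.Quotient.mk_smul, add_smul, hG g₁ hg₁, zero_add, mul_comm, mul_smul]
      exact (Submodule.Quotient.mk_eq_zero _).mpr
        (Submodule.smul_mem_pointwise_smul _ _ ⊤ trivial)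
    · refine hrad.trans (Ideal.radical_mono ?_)
      rw [Ideal.ofList_cons, ← sup_assoc, ← sup_assoc]

/-- E1. Parameters are regular on the endomorphism ring when its depth is large. -/
theorem isWeaklyRegular_end {R : Type u} [CommRing R] [IsNoetherianRing R] [IsLocalRing R]
    {M : Type u} [AddCommGroup M] [Module R M] [Module.Finite R M] (xs fs ys : List R)
    (hst : ∀ x ∈ xs, StabAnn x M) (hmem : ∀ f ∈ fs ++ ys, f ∈ maximalIdeal R)
    (hrad : maximalIdeal R ≤ (Ideal.ofList xs ⊔ Ideal.ofList fs).radical)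
    (hM : IsWeaklyRegular M (fs ++ ys)) (hE : HasDepth R (fs ++ ys).length (M →ₗ[R] M)) :
    IsWeaklyRegular (M →ₗ[R] M) (fs ++ ys) := by
  refine isWeaklyRegular_of_fac xs (fs ++ ys) (M →ₗ[R] M) M ⊥ ?_ ?_ hmem ?_ hM ?_
  · intro x hx
    obtain ⟨n, α, β, h⟩ := hst x hx
    refine ⟨n, fun i => LinearMap.applyₗ (β (Pi.single i 1)), fun i =>
      LinearMap.smulRightₗ (LinearMap.proj i ∘ₗ α), fun e => LinearMap.ext fun m => ?_⟩
    rw [LinearMap.smul_apply, ← map_smul, ← h m]
    have h1 : α m = ∑ i, α m i • (Pi.single i 1 : Fin n → R) := by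
      ext j
      simp [Finset.sum_apply, Pi.single_apply]
    conv_rhs => rw [h1]
    rw [map_sum, map_sum, LinearMap.sum_apply]
    refine Finset.sum_congr rfl fun i _ => ?_
    simp
  · intro g hg e
    rw [(Submodule.mem_bot R).mp hg, zero_smul]
  · refine hrad.trans (Ideal.radical_mono ?_)
    rw [Ideal.ofList_append, sup_bot_eq, ← sup_assoc]
    exact le_sup_left
  · obtain ⟨qs, h1, h2, h3⟩ := hE
    exact ⟨qs, h3, h1, h2⟩

end Pool.Agent.Lib.MP_682396_ag
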