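import Pool.Agent.Lib.MP_682396_ag.Curve.Final

/-!
# Homomorphisms to a reduction lift to endomorphisms
-/

set_option autoImplicit false
set_option linter.unusedSectionVars false

open Module IsLocalRing RingTheory.Sequence
open scoped Pointwise TensorProduct

universe u v w

namespace Pool.Agent.Lib.MP_682396_ag

section E2

variable {R : Type u} [CommRing R] {M : Type u} [AddCommGroup M] [Module R M]

/-- an endomorphism with values in `I M` is in `I End(M)`, after multiplication by `x` -/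
theorem E2_smul_mem {x : R} (hx : StabAnn x M) (I : Ideal R) (e : M →ₗ[R] M)
    (he : ∀ m, e m ∈ (I • ⊤ : Submodule R M)) :
    x • e ∈ (I • ⊤ : Submodule R (M →ₗ[R] M)) := by
  classical
  obtain ⟨n, α, β, hαβ⟩ := hx
  -- `y ↦ (m ↦ α(m)_i y)`
  let T : Fin n → (M →ₗ[R] (M →ₗ[R] M)) := fun i =>
    LinearMap.flip ((LinearMap.lsmul R M) ∘ₗ ((LinearMap.proj i) ∘ₗ α))
  have hT : ∀ i y m, T i y m = α m i • y := fun i y m => rfl
  have h1 : x • e = ∑ i, T i (e (β (Pi.single i 1))) := by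
    apply LinearMap.ext
    intro m
    rw [LinearMap.smul_apply, LinearMap.sum_apply, ← map_smul, ← hαβ]
    have h2 : α m = ∑ i, α m i • (Pi.single i (1 : R) : Fin n → R) := by
      funext j
      simp [Finset.sum_apply, Pi.single_apply]
    conv_lhs => rw [h2]
    rw [map_sum, map_sum]
    refine Finset.sum_congr rfl fun i _ => ?_
    rw [hT, map_smul, map_smul]
  rw [h1]
  refine sum_mem fun i _ => ?_
  have h3 : T i (e (β (Pi.single i 1))) ∈ ((I • ⊤ : Submodule R M)).map (T i) :=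
    Submodule.mem_map_of_mem (he _)
  rw [Submodule.map_smul''] at h3
  exact Submodule.smul_mono le_rfl le_top h3


theorem E2_core (I J : Ideal R) (x₁ x₂ : R) (h₁ : StabAnn x₁ M) (h₂ : StabAnn x₂ M)
    (hM1 : IsSMulRegular (M ⧸ (I • (⊤ : Submodule R M))) x₁)
    (hE1 : IsSMulRegular ((M →ₗ[R] M) ⧸ (I • (⊤ : Submodule R (M →ₗ[R] M)))) x₁)
    (hE2 : IsSMulRegular ((M →ₗ[R] M) ⧸ (J • (⊤ : Submodule R (M →ₗ[R] M)))) x₂)
    (hsup : (J • (⊤ : Submodule R (M →ₗ[R] M))) = I • ⊤ ⊔ x₁ • ⊤)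
    (φ : M →ₗ[R] M ⧸ (I • (⊤ : Submodule R M))) :
    ∃ e : M →ₗ[R] M, ∀ m, Submodule.Quotient.mk (e m) = φ m := by
  -- the lifts
  have hlift : ∀ {x : R}, StabAnn x M → ∃ e : M →ₗ[R] M, ∀ m,
      (Submodule.Quotient.mk (e m) : M ⧸ (I • (⊤ : Submodule R M))) = x • φ m := by
    intro x hx
    obtain ⟨n, α, β, hαβ⟩ := hx
    obtain ⟨h, hh⟩ := Module.projective_lifting_property (Submodule.mkQ (I • (⊤ : Submodule R M)))
      (φ ∘ₗ β) (Submodule.mkQ_surjective _)
    refine ⟨h ∘ₗ α, fun m => ?_⟩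
    have h3 := LinearMap.congr_fun hh (α m)
    rw [LinearMap.comp_apply, LinearMap.comp_apply, hαβ, map_smul] at h3
    exact h3
  obtain ⟨e₁, he₁⟩ := hlift h₁
  obtain ⟨e₂, he₂⟩ := hlift h₂
  -- (2)
  have hin : ∀ e : M →ₗ[R] M, (∀ m, e m ∈ (I • ⊤ : Submodule R M)) →
      e ∈ (I • ⊤ : Submodule R (M →ₗ[R] M)) := by
    intro e he
    have h3 := E2_smul_mem h₁ I e he
    have h4 : x₁ • (Submodule.Quotient.mk e : (M →ₗ[R] M) ⧸
        (I • (⊤ : Submodule R (M →ₗ[R] M)))) = x₁ • 0 := by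
      rw [smul_zero, ← Submodule.Quotient.mk_smul, Submodule.Quotient.mk_eq_zero]
      exact h3
    have h5 := hE1 h4
    rwa [Submodule.Quotient.mk_eq_zero] at h5
  -- (3)
  have h6 : x₂ • e₁ - x₁ • e₂ ∈ (I • ⊤ : Submodule R (M →ₗ[R] M)) := by
    apply hin
    intro m
    rw [← Submodule.Quotient.mk_eq_zero, LinearMap.sub_apply, LinearMap.smul_apply,
      LinearMap.smul_apply, Submodule.Quotient.mk_sub, Submodule.Quotient.mk_smul,
      Submodule.Quotient.mk_smul, he₁, he₂, smul_smul, smul_smul, mul_comm, sub_self]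
  have h7 : e₁ ∈ (J • (⊤ : Submodule R (M →ₗ[R] M))) := by
    have h8 : x₂ • e₁ ∈ (J • (⊤ : Submodule R (M →ₗ[R] M))) := by
      rw [hsup]
      have h9 : x₂ • e₁ = (x₂ • e₁ - x₁ • e₂) + x₁ • e₂ := by abel
      rw [h9]
      exact Submodule.add_mem_sup h6 (Submodule.smul_mem_pointwise_smul _ _ _ Submodule.mem_top)
    have h4 : x₂ • (Submodule.Quotient.mk e₁ : (M →ₗ[R] M) ⧸
        (J • (⊤ : Submodule R (M →ₗ[R] M)))) = x₂ • 0 := by
      rw [smul_zero, ← Submodule.Quotient.mk_smul, Submodule.Quotient.mk_eq_zero]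
      exact h8
    have h5 := hE2 h4
    rwa [Submodule.Quotient.mk_eq_zero] at h5
  rw [hsup] at h7
  obtain ⟨i, hi, y, hy, hiy⟩ := Submodule.mem_sup.1 h7
  obtain ⟨e', -, rfl⟩ := Submodule.mem_smul_pointwise_iff_exists _ _ _ |>.1 hy
  refine ⟨e', fun m => ?_⟩
  have hi2 : i m ∈ (I • ⊤ : Submodule R M) := by
    have h10 : (LinearMap.applyₗ m : (M →ₗ[R] M) →ₗ[R] M) i ∈
        ((I • ⊤ : Submodule R (M →ₗ[R] M))).map (LinearMap.applyₗ m) :=
      Submodule.mem_map_of_mem hi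
    rw [Submodule.map_smul''] at h10
    exact Submodule.smul_mono le_rfl le_top h10
  have h11 : x₁ • (Submodule.Quotient.mk (e' m) : M ⧸ (I • (⊤ : Submodule R M))) = x₁ • φ m := by
    rw [← he₁ m, ← hiy, LinearMap.add_apply, LinearMap.smul_apply, Submodule.Quotient.mk_add,
      (Submodule.Quotient.mk_eq_zero _).2 hi2, zero_add, Submodule.Quotient.mk_smul]
  exact hM1 h11

end E2

/-- E2. Homomorphisms to a reduction lift to endomorphisms. -/
theorem exists_lift_mod {R : Type u} [CommRing R] {M : Type u} [AddCommGroup M] [Module R M]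
    (fs : List R) (x₁ x₂ : R) (h₁ : StabAnn x₁ M) (h₂ : StabAnn x₂ M)
    (hM : IsWeaklyRegular M (fs ++ [x₁])) (hE : IsWeaklyRegular (M →ₗ[R] M) (fs ++ [x₁, x₂]))
    (φ : M →ₗ[R] M ⧸ (Ideal.ofList fs • (⊤ : Submodule R M))) :
    ∃ e : M →ₗ[R] M, ∀ m, Submodule.Quotient.mk (e m) = φ m := by
  have hM1 : IsSMulRegular (M ⧸ (Ideal.ofList fs • (⊤ : Submodule R M))) x₁ := by
    have h := hM.regular_mod_prev fs.length (by simp)
    rw [List.take_left, List.getElem_append_right le_rfl] at h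
    simpa using h
  have hE1 : IsSMulRegular ((M →ₗ[R] M) ⧸
      (Ideal.ofList fs • (⊤ : Submodule R (M →ₗ[R] M)))) x₁ := by
    have h := hE.regular_mod_prev fs.length (by simp)
    rw [List.take_left, List.getElem_append_right le_rfl] at h
    simpa using h
  have hE2 : IsSMulRegular ((M →ₗ[R] M) ⧸
      (Ideal.ofList (fs ++ [x₁]) • (⊤ : Submodule R (M →ₗ[R] M)))) x₂ := by
    have h0 : fs ++ [x₁, x₂] = (fs ++ [x₁]) ++ [x₂] := by simp
    have h := hE.regular_mod_prev (fs ++ [x₁]).length (by simp)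
    have h1 : List.take (fs ++ [x₁]).length (fs ++ [x₁, x₂]) = fs ++ [x₁] := by
      rw [h0, List.take_left]
    have h2 : (fs ++ [x₁, x₂])[(fs ++ [x₁]).length]'(by simp) = x₂ := by
      simp only [h0]
      rw [List.getElem_append_right le_rfl]
      simp
    rw [h1, h2] at h
    exact h
  refine E2_core (Ideal.ofList fs) (Ideal.ofList (fs ++ [x₁])) x₁ x₂ h₁ h₂ hM1 hE1 hE2 ?_ φ
  rw [Ideal.ofList_append, Ideal.ofList_singleton, Submodule.sup_smul,
    Submodule.ideal_span_singleton_smul]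

end Pool.Agent.Lib.MP_682396_ag
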