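import Pool.Agent.Lib.MP_682396_ag.Curve.Params

/-!
# Systems of parameters with many members in an ideal of small dimension
-/

set_option autoImplicit false
set_option linter.unusedSectionVars false

open Module IsLocalRing RingTheory.Sequence
open scoped Pointwise

universe u v w

namespace Pool.Agent.Lib.MP_682396_ag

section Dim

variable {R : Type*} [CommRing R] [IsNoetherianRing R] [IsLocalRing R]

/-- Sequences in an ideal cutting down the dimension as long as possible. -/
theorem exists_dimSeq' {d s : ℕ} (hd : ringKrullDim R ≤ ((d + s : ℕ) : WithBot ℕ∞)) (J : Ideal R)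
    (hJ : ∀ P : Ideal R, P.IsPrime → J ≤ P → ringKrullDim (R ⧸ P) ≤ (s : WithBot ℕ∞))
    (k : ℕ) (hk : k ≤ d) :
    ∃ ys : List R, ys.length = k ∧ (∀ y ∈ ys, y ∈ J ⊓ maximalIdeal R) ∧
      ∀ P ∈ (Ideal.ofList ys).minimalPrimes,
        ringKrullDim (R ⧸ P) + (k : WithBot ℕ∞) ≤ ((d + s : ℕ) : WithBot ℕ∞) := by
  classical
  induction k with
  | zero =>
    refine ⟨[], rfl, by simp, fun P _ => ?_⟩
    rw [Nat.cast_zero, add_zero]
    exact (ringKrullDim_quotient_le P).trans hd
  | succ k ih =>
    obtain ⟨ys, hlen, hmem, hdim⟩ := ih (by omega)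
    have hfin : (Ideal.ofList ys).minimalPrimes.Finite :=
      Ideal.finite_minimalPrimes_of_isNoetherianRing R _
    let t : Finset (Ideal R) := hfin.toFinset.filter fun P => ¬ J ⊓ maximalIdeal R ≤ P
    obtain ⟨y, hy, hyt⟩ := exists_avoid (J ⊓ maximalIdeal R) t
      (fun P hP => (hfin.mem_toFinset.mp (Finset.mem_filter.mp hP).1).1.1)
      (fun P hP => (Finset.mem_filter.mp hP).2)
    refine ⟨y :: ys, by rw [List.length_cons, hlen], ?_, ?_⟩
    · intro z hz
      rcases List.mem_cons.mp hz with rfl | h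
      · exact hy
      · exact hmem z h
    · intro P' hP'
      have hP'p : P'.IsPrime := hP'.1.1
      have hPle := hP'.1.2
      rw [Ideal.ofList_cons] at hPle
      obtain ⟨P, hP, hPP'⟩ := Ideal.exists_minimalPrimes_le (le_sup_right.trans hPle)
      have hyP' : y ∈ P' := hPle (Ideal.mem_sup_left (Ideal.mem_span_singleton_self y))
      have hPp : P.IsPrime := hP.1.1
      by_cases hyP : y ∈ P
      · -- then the quotient has dimension at most `s`
        have h1 : J ⊓ maximalIdeal R ≤ P := by
          by_contra h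
          exact hyt P (Finset.mem_filter.mpr ⟨hfin.mem_toFinset.mpr hP, h⟩) hyP
        have h2 : ringKrullDim (R ⧸ P) ≤ (s : WithBot ℕ∞) := by
          rcases hPp.inf_le.mp h1 with h | h
          · exact hJ P hPp h
          · have h3 : maximalIdeal R = P := (maximalIdeal.isMaximal R).eq_of_le hPp.ne_top h
            have hm : P.IsMaximal := h3 ▸ maximalIdeal.isMaximal R
            let _ : Field (R ⧸ P) := Ideal.Quotient.field P
            rw [ringKrullDim_eq_zero_of_field]
            exact_mod_cast Nat.zero_le s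
        have h3 : ringKrullDim (R ⧸ P') ≤ (s : WithBot ℕ∞) :=
          (ringKrullDim_le_of_surjective (Ideal.Quotient.factor hPP')
            (Ideal.Quotient.factor_surjective hPP')).trans h2
        calc ringKrullDim (R ⧸ P') + ((k + 1 : ℕ) : WithBot ℕ∞)
              ≤ (s : WithBot ℕ∞) + ((k + 1 : ℕ) : WithBot ℕ∞) := by
              gcongr
          _ = ((s + (k + 1) : ℕ) : WithBot ℕ∞) := by push_cast; rfl
          _ ≤ ((d + s : ℕ) : WithBot ℕ∞) := by exact_mod_cast (by omega : s + (k + 1) ≤ d + s)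
      · have h1 := ringKrullDim_succ_le_of_lt hPP' hyP hyP'
        calc ringKrullDim (R ⧸ P') + ((k + 1 : ℕ) : WithBot ℕ∞) =
              (ringKrullDim (R ⧸ P') + 1) + (k : WithBot ℕ∞) := by
              push_cast
              rw [add_assoc, add_comm (1 : WithBot ℕ∞)]
          _ ≤ ringKrullDim (R ⧸ P) + (k : WithBot ℕ∞) := by gcongr
          _ ≤ _ := hdim P hP

/-- Adding general elements of the maximal ideal gives a system of parameters. -/
theorem exists_lasts {I : Ideal R} (hI : ∀ P ∈ I.minimalPrimes, P ≤ maximalIdeal R) {s : ℕ}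
    (hdim : ∀ P ∈ I.minimalPrimes, ringKrullDim (R ⧸ P) ≤ (s : WithBot ℕ∞)) :
    ∃ f : Fin s → R, (∀ j, f j ∈ maximalIdeal R) ∧
      maximalIdeal R ≤ (I ⊔ Ideal.span (Set.range f)).radical := by
  classical
  induction s generalizing I with
  | zero =>
    refine ⟨fun j => 0, fun j => j.elim0, ?_⟩
    have h0 : Ideal.span (Set.range (fun _ : Fin 0 => (0 : R))) = ⊥ := by
      rw [Set.range_eq_empty, Ideal.span_empty]
    rw [h0, sup_bot_eq, Ideal.radical_eq_sInf]
    refine le_sInf ?_
    rintro P' ⟨hP', hP'p⟩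
    obtain ⟨P, hP, hPP'⟩ := Ideal.exists_minimalPrimes_le hP'
    have hPp : P.IsPrime := hP.1.1
    have h2 : ringKrullDim (R ⧸ P) ≤ 0 := by
      have := hdim P hP
      simpa using this
    have h4 : Ring.KrullDimLE 0 (R ⧸ P) := by
      rw [Ring.krullDimLE_iff]
      exact h2
    have h5 : IsField (R ⧸ P) := Ring.KrullDimLE.isField_of_isDomain
    have h6 : P.IsMaximal := Ideal.Quotient.maximal_of_isField P h5
    exact (IsLocalRing.eq_maximalIdeal h6).ge.trans hPP'
  | succ s ih =>
    have hfin : I.minimalPrimes.Finite :=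
      Ideal.finite_minimalPrimes_of_isNoetherianRing R _
    let t : Finset (Ideal R) := hfin.toFinset.filter fun P => ¬ maximalIdeal R ≤ P
    obtain ⟨f, hf, hft⟩ := exists_avoid (maximalIdeal R) t
      (fun P hP => (hfin.mem_toFinset.mp (Finset.mem_filter.mp hP).1).1.1)
      (fun P hP => (Finset.mem_filter.mp hP).2)
    obtain ⟨g, hg, hrad⟩ := ih (I := I ⊔ Ideal.span {f}) (by
      intro P' hP'
      exact IsLocalRing.le_maximalIdeal hP'.1.1.ne_top) (by
      intro P' hP'
      have hP'p : P'.IsPrime := hP'.1.1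
      obtain ⟨P, hP, hPP'⟩ := Ideal.exists_minimalPrimes_le (le_sup_left.trans hP'.1.2)
      have hPp : P.IsPrime := hP.1.1
      by_cases h : maximalIdeal R ≤ P
      · have h3 : maximalIdeal R = P' := (maximalIdeal.isMaximal R).eq_of_le hP'p.ne_top
          (h.trans hPP')
        have hm : P'.IsMaximal := h3 ▸ maximalIdeal.isMaximal R
        let _ : Field (R ⧸ P') := Ideal.Quotient.field P'
        rw [ringKrullDim_eq_zero_of_field]
        exact_mod_cast Nat.zero_le s
      · have hfP : f ∉ P := hft P (Finset.mem_filter.mpr ⟨hfin.mem_toFinset.mpr hP, h⟩)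
        have hfP' : f ∈ P' := hP'.1.2 (Ideal.mem_sup_right (Ideal.mem_span_singleton_self f))
        have h1 := (ringKrullDim_succ_le_of_lt hPP' hfP hfP').trans (hdim P hP)
        have h3 : ringKrullDim (R ⧸ P') + 1 ≤ (s : WithBot ℕ∞) + 1 := by
          refine h1.trans (le_of_eq ?_)
          push_cast
          rfl
        exact ENat.WithBot.add_le_add_one_right_iff.mp h3)
    refine ⟨Fin.cons f g, ?_, ?_⟩
    · intro j
      refine Fin.cases ?_ ?_ j
      · rw [Fin.cons_zero]
        exact hf
      · intro j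
        rw [Fin.cons_succ]
        exact hg j
    · refine hrad.trans (Ideal.radical_mono ?_)
      rw [sup_assoc]
      refine sup_le_sup_left ?_ _
      rw [← Ideal.span_union]
      apply Ideal.span_mono
      rintro x (hx | hx)
      · rw [Set.mem_singleton_iff] at hx
        exact ⟨0, by rw [Fin.cons_zero, hx]⟩
      · obtain ⟨j, rfl⟩ := hx
        exact ⟨j.succ, by rw [Fin.cons_succ]⟩

end Dim

/-- E3. A system of parameters with many members in an ideal of small dimension. -/
theorem exists_params_dim {R : Type u} [CommRing R] [IsNoetherianRing R] [IsLocalRing R]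
    {d s : ℕ} (hd : (maximalIdeal R).height = ((d + s : ℕ) : ℕ∞)) (J : Ideal R)
    (hJ : ∀ P : Ideal R, P.IsPrime → J ≤ P → ringKrullDim (R ⧸ P) ≤ (s : WithBot ℕ∞)) :
    ∃ (x : Fin d → R) (f : Fin s → R), (∀ l, x l ∈ J ∧ x l ∈ maximalIdeal R) ∧
      (∀ j, f j ∈ maximalIdeal R) ∧
      maximalIdeal R ≤ (Ideal.span (Set.range x) ⊔ Ideal.span (Set.range f)).radical := by
  have hdim : ringKrullDim R ≤ ((d + s : ℕ) : WithBot ℕ∞) := by
    rw [← IsLocalRing.maximalIdeal_height_eq_ringKrullDim, hd]
    exact le_rfl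
  obtain ⟨ys, hlen, hmem, hys⟩ := exists_dimSeq' hdim J hJ d le_rfl
  obtain ⟨f, hf, hrad⟩ := exists_lasts (I := Ideal.ofList ys) (s := s)
    (fun P hP => IsLocalRing.le_maximalIdeal hP.1.1.ne_top) (by
    intro P hP
    have h1 := hys P hP
    have h2 : ringKrullDim (R ⧸ P) + (d : WithBot ℕ∞) ≤ (s : WithBot ℕ∞) + (d : WithBot ℕ∞) := by
      refine h1.trans (le_of_eq ?_)
      push_cast
      rw [add_comm]
    exact ENat.WithBot.add_le_add_natCast_right_iff.mp h2)
  refine ⟨fun l => ys.get (Fin.cast hlen.symm l), f, ?_, hf, ?_⟩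
  · intro l
    have h := hmem _ (List.get_mem ys (Fin.cast hlen.symm l))
    exact ⟨h.1, h.2⟩
  · have hrange : Set.range (fun l : Fin d => ys.get (Fin.cast hlen.symm l)) =
        {t | t ∈ ys} := by
      ext t
      rw [Set.mem_range, Set.mem_ofPred_eq, List.mem_iff_get]
      constructor
      · rintro ⟨l, hl⟩
        exact ⟨_, hl⟩
      · rintro ⟨l, hl'⟩
        exact ⟨Fin.cast hlen l, hl'⟩
    rw [hrange]
    exact hrad

end Pool.Agent.Lib.MP_682396_ag
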