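import Pool.Agent.Lib.MP_682396_ag.Gen.E2

/-!
# Lifting homomorphisms to reductions from the vanishing of higher self-extensions
-/

set_option autoImplicit false
set_option linter.unusedSectionVars false

open Module IsLocalRing RingTheory.Sequence CategoryTheory CategoryTheory.Abelian
open scoped Pointwise

universe u v

namespace Pool.Agent.Lib.MP_682396_ag

variable {R : Type u} [CommRing R]

theorem ext_quot_pos (N M : ModuleCat.{u} R) {y : R} (hy : IsSMulRegular M y) {n : ℕ}
    (hext : ∀ i, 1 ≤ i → i ≤ n + 1 → Subsingleton (Ext N M i)) :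
    ∀ i, 1 ≤ i → i ≤ n → Subsingleton (Ext N (ModuleCat.of R (QuotSMulTop y M)) i) := by
  intro i hi1 hi
  have zero1 := AddCommGrpCat.isZero_of_iff_subsingleton.mpr (hext i hi1 (by omega))
  have zero2 := AddCommGrpCat.isZero_of_iff_subsingleton.mpr (hext (i + 1) (by omega) (by omega))
  exact AddCommGrpCat.subsingleton_of_isZero <| ShortComplex.Exact.isZero_of_both_zeros
    ((Ext.covariant_sequence_exact₃' N hy.smulShortComplex_shortExact) i (i + 1) rfl)
    (zero1.eq_zero_of_src _) (zero2.eq_zero_of_tgt _)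

theorem exists_lift_quotSMulTop (M N : Type u) [AddCommGroup M] [Module R M] [AddCommGroup N]
    [Module R N] {y : R} (hy : IsSMulRegular N y)
    (hext : Subsingleton (Ext (ModuleCat.of R M) (ModuleCat.of R N) 1))
    (φ : M →ₗ[R] QuotSMulTop y N) :
    ∃ e : M →ₗ[R] N, ∀ m, Submodule.Quotient.mk (e m) = φ m := by
  have hy' : IsSMulRegular (ModuleCat.of R N) y := hy
  have hS := hy'.smulShortComplex_shortExact
  let f : ModuleCat.of R M ⟶ (ModuleCat.smulShortComplex (ModuleCat.of R N) y).X₃ :=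
    ModuleCat.ofHom φ
  obtain ⟨x₂, hx₂⟩ := Ext.covariant_sequence_exact₃ (ModuleCat.of R M) hS (Ext.mk₀ f) (n₁ := 1)
    rfl (@Subsingleton.elim _ hext _ _)
  obtain ⟨g, rfl⟩ := Ext.mk₀_bijective _ _ |>.2 x₂
  rw [Ext.mk₀_comp_mk₀] at hx₂
  have h1 := (Ext.mk₀_bijective _ _).1 hx₂
  refine ⟨g.hom, fun m => ?_⟩
  exact congrArg (fun k : ModuleCat.of R M ⟶ (ModuleCat.smulShortComplex
    (ModuleCat.of R N) y).X₃ => k.hom m) h1

/-- If the first self-extensions vanish, homomorphisms to a reduction lift. -/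
theorem exists_lift_mod_of_ext (fs : List R) : ∀ (M N : Type u) [AddCommGroup M] [Module R M]
    [AddCommGroup N] [Module R N], IsWeaklyRegular N fs →
    (∀ i, 1 ≤ i → i ≤ fs.length →
      Subsingleton (Ext (ModuleCat.of R M) (ModuleCat.of R N) i)) →
    ∀ φ : M →ₗ[R] N ⧸ (Ideal.ofList fs • (⊤ : Submodule R N)),
      ∃ e : M →ₗ[R] N, ∀ m, Submodule.Quotient.mk (e m) = φ m := by
  induction fs with
  | nil =>
    intro M N _ _ _ _ _ _ φ
    have h0 : (Ideal.ofList ([] : List R) • (⊤ : Submodule R N)) = ⊥ := by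
      rw [Ideal.ofList_nil, Submodule.bot_smul]
    refine ⟨(Submodule.quotEquivOfEqBot _ h0).toLinearMap ∘ₗ φ, fun m => ?_⟩
    obtain ⟨y, hy⟩ := Submodule.Quotient.mk_surjective _ (φ m)
    show Submodule.Quotient.mk (Submodule.quotEquivOfEqBot _ h0 (φ m)) = φ m
    rw [← hy]
    rfl
  | cons f fs ih =>
    intro M N _ _ _ _ hreg hext φ
    rw [isWeaklyRegular_cons_iff] at hreg
    let e₀ := Submodule.quotOfListConsSMulTopEquivQuotSMulTopInner N f fs
    have hext' := ext_quot_pos (ModuleCat.of R M) (ModuleCat.of R N) (y := f) hreg.1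
      (n := fs.length) (fun i h1 h2 => hext i h1 (by rw [List.length_cons]; exact h2))
    obtain ⟨e₁, he₁⟩ := ih M (QuotSMulTop f N) hreg.2 hext' (e₀.toLinearMap ∘ₗ φ)
    obtain ⟨e₂, he₂⟩ := exists_lift_quotSMulTop M N hreg.1
      (hext 1 le_rfl (by rw [List.length_cons]; omega)) e₁
    refine ⟨e₂, fun m => ?_⟩
    apply e₀.injective
    have h1 : e₀ (Submodule.Quotient.mk (e₂ m)) =
        Submodule.Quotient.mk (Submodule.Quotient.mk (e₂ m)) := rfl
    rw [h1, he₂, he₁]
    rfl

end Pool.Agent.Lib.MP_682396_ag
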