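import Pool.Agent.Lib.MP_682396_ag.Curve.CoordD

/-!
# Extension of homomorphisms with coefficients in torsion-free modules
-/

set_option autoImplicit false
set_option linter.unusedSectionVars false

open Module IsLocalRing
open scoped Pointwise

universe u v w

namespace Pool.Agent.Lib.MP_682396_ag

open Tw

section Def

variable {D : Type*} [CommRing D] {R : Type u} [CommRing R] [Algebra D R] {Q : Type*} [Fintype Q]
  [DecidableEq Q] {d : ℕ} {x : Fin d → R} {M : Type u} [AddCommGroup M] [Module R M]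

/-- Extension property of the syzygies of `M` with coefficients in submodules of finite free
modules over the base ring. -/
def ExtTF (C : CoordD D Q x M) : Prop :=
  ∀ (m : ℕ) (π : (Fin m → R) →ₗ[R] M), Function.Surjective π →
    ∀ (k : ℕ) (W : Submodule D (Fin k → D)), Ext43 C.ρ x (LinearMap.ker π) W

variable {T : Type*} [CommRing T] [Algebra D T] {ε : T →ₐ[D] D}
  {ρ : R →+* Matrix (Q × (Fin d → Fin 5)) (Q × (Fin d → Fin 5)) T}

theorem ExtTF.ext43 {C : CoordD D Q x M} (h : ExtTF C) (hC : ∀ r a b, ε (ρ r a b) = C.ρ r a b)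
    {m : ℕ} (π : (Fin m → R) →ₗ[R] M) (hπ : Function.Surjective π)
    {W : Type*} [AddCommGroup W] [Module T W] [Module D W] [IsScalarTower D T W]
    (hkill : ∀ p ∈ RingHom.ker ε, ∀ w : W, p • w = 0) {k : ℕ} (W₀ : Submodule D (Fin k → D))
    (e : W ≃ₗ[D] W₀) : Ext43 ρ x (LinearMap.ker π) W := by
  let f : Tw C.ρ W₀ →ₗ[R] Tw ρ W :=
    { toFun := fun v a => e.symm (v a)
      map_add' := fun v w => by
        apply Tw.ext
        intro a
        show e.symm ((v + w) a) = e.symm (v a) + e.symm (w a)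
        rw [Tw.add_apply, map_add]
      map_smul' := fun r v => by
        apply Tw.ext
        intro a
        show e.symm ((r • v) a) = ∑ b, ρ r a b • e.symm (v b)
        rw [Tw.smul_apply, map_sum]
        refine Finset.sum_congr rfl fun b _ => ?_
        rw [map_smul, smul_eq_of_kill ε hkill, hC] }
  have hf : ∀ v a, f v a = e.symm (v a) := fun _ _ => rfl
  have hfs : Function.Surjective f := by
    intro v
    refine ⟨fun a => e (v a), Tw.ext fun a => ?_⟩
    rw [hf]
    exact e.symm_apply_apply _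
  have hfi : LinearMap.ker f = ⊥ := by
    rw [LinearMap.ker_eq_bot']
    intro v hv
    apply Tw.ext
    intro a
    apply e.symm.injective
    rw [← hf, hv, Tw.zero_apply, Tw.zero_apply, map_zero]
  exact ExtV.transfer f hfs (comap_lev f hfs (by rw [hfi]; exact bot_le))
    (comap_lev f hfs (by rw [hfi]; exact bot_le)) _ _ (h m π hπ k W₀)

end Def

section Layer

variable {D T : Type*} [CommRing D] [IsDomain D] [IsNoetherianRing D] [CommRing T] [IsDomain T]
  [IsNoetherianRing T] [Algebra D T] (ε : T →ₐ[D] D)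

theorem layer_kill2 {D T : Type*} [CommRing D] [CommRing T] [Algebra D T] (ε : T →ₐ[D] D)
    [(RingHom.ker ε).IsPrime] (j : ℕ) : ∀ p ∈ RingHom.ker ε,
    ∀ w : Layer (RingHom.ker ε) (Nat.le_succ j), p • w = 0 := by
  rintro p hp ⟨w, hw⟩
  obtain ⟨a, rfl⟩ := Submodule.Quotient.mk_surjective _ w
  have ha : a ∈ symb (RingHom.ker ε) j := (Submodule.Quotient.mk_eq_zero _).mp hw
  apply Subtype.ext
  show p • (Submodule.Quotient.mk a : T ⧸ symb (RingHom.ker ε) (j + 1)) = 0
  rw [← Submodule.Quotient.mk_smul, Submodule.Quotient.mk_eq_zero]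
  exact mul_mem_symb (RingHom.ker ε) hp ha

/-- The layers are isomorphic to submodules of finite free modules. -/
theorem exists_equiv_layer [(RingHom.ker ε).IsPrime] (j : ℕ) :
    ∃ (n : ℕ) (W₀ : Submodule D (Fin n → D)),
      Nonempty (Layer (RingHom.ker ε) (Nat.le_succ j) ≃ₗ[D] W₀) := by
  have hfin : Module.Finite D (Layer (RingHom.ker ε) (Nat.le_succ j)) :=
    finite_of_kill (W := Layer (RingHom.ker ε) (Nat.le_succ j)) ε (layer_kill2 ε j)
  have htf : IsTorsionFree D (Layer (RingHom.ker ε) (Nat.le_succ j)) := by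
    refine ⟨fun c hc => ?_⟩
    have hc0 : c ≠ 0 := hc.ne_zero
    have hcP : algebraMap D T c ∉ RingHom.ker ε := by
      rw [RingHom.mem_ker]
      have : ε (algebraMap D T c) = c := AlgHom.commutes ε c
      rw [this]
      exact hc0
    have key : ∀ w : Layer (RingHom.ker ε) (Nat.le_succ j), c • w = 0 → w = 0 := by
      rintro ⟨w, hw⟩ h
      obtain ⟨a, rfl⟩ := Submodule.Quotient.mk_surjective _ w
      have h1 : algebraMap D T c •
          (Submodule.Quotient.mk a : T ⧸ symb (RingHom.ker ε) (j + 1)) = 0 := by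
        have h2 := congrArg Subtype.val h
        rw [algebraMap_smul]
        exact h2
      rw [← Submodule.Quotient.mk_smul, Submodule.Quotient.mk_eq_zero] at h1
      apply Subtype.ext
      show (Submodule.Quotient.mk a : T ⧸ symb (RingHom.ker ε) (j + 1)) = 0
      rw [Submodule.Quotient.mk_eq_zero]
      exact mem_symb_of_mul (RingHom.ker ε) hcP h1
    intro w w' h
    rw [← sub_eq_zero]
    apply key
    rw [smul_sub, sub_eq_zero]
    exact h
  obtain ⟨f, hf⟩ := exists_embedding (R := D) (Layer (RingHom.ker ε) (Nat.le_succ j))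
  exact ⟨_, _, ⟨LinearEquiv.ofInjective f hf⟩⟩

end Layer

section Symb

variable {D T : Type*} [CommRing D] [CommRing T] [IsDomain T]
  [IsNoetherianRing T] [Algebra D T] (ε : T →ₐ[D] D)
  {R Q : Type*} [CommRing R] [Fintype Q] [DecidableEq Q] {d : ℕ}
  {ρ : R →+* Matrix (Q × (Fin d → Fin 5)) (Q × (Fin d → Fin 5)) T} {x : Fin d → R} {m : ℕ}
  {Ω : Submodule R (Fin m → R)}

theorem ext32_symb2 (hx : ∀ l, ρ (x l) = shiftMat T Q l) (hΩ : ∀ l, StabAnn (x l) Ω)
    [(RingHom.ker ε).IsPrime]
    (h : ∀ j, Ext43 ρ x Ω (Layer (RingHom.ker ε) (Nat.le_succ j))) (k : ℕ) :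
    ∀ {j e : ℕ} (hje : j ≤ e), e = j + k → Ext32 ρ x Ω (Layer (RingHom.ker ε) hje) := by
  induction k with
  | zero =>
    intro j e hje hek
    rw [add_zero] at hek
    subst hek
    have : Subsingleton (Layer (RingHom.ker ε) hje) := by
      refine ⟨fun a b => Subtype.ext ?_⟩
      obtain ⟨a, ha⟩ := a
      obtain ⟨b, hb⟩ := b
      obtain ⟨a, rfl⟩ := Submodule.Quotient.mk_surjective _ a
      obtain ⟨b, rfl⟩ := Submodule.Quotient.mk_surjective _ b
      have ha' : (Submodule.Quotient.mk a : T ⧸ symb (RingHom.ker ε) e) = 0 := ha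
      have hb' : (Submodule.Quotient.mk b : T ⧸ symb (RingHom.ker ε) e) = 0 := hb
      exact ha'.trans hb'.symm
    exact ext32_of_subsingleton _
  | succ k ih =>
    intro j e hje hek
    have hje' : j + 1 ≤ e := by omega
    obtain ⟨i, p, hi, hp, hex⟩ := layer_exact (RingHom.ker ε) hje' hje
    exact Ext32.of_exact hx hΩ i hi p hp hex (ih hje' (by omega)) (h j)

end Symb

end Pool.Agent.Lib.MP_682396_ag
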