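import Pool.Agent.Lib.MP_682396_ag.Gen.LiftS
import Pool.Agent.Lib.MP_682396_ag.CharP.P4
import Pool.Agent.Lib.MP_682396_ag.Gen.KL

/-!
# The extension property from rigidity and the lifting property
-/

set_option autoImplicit false
set_option linter.unusedSectionVars false

open Module IsLocalRing
open scoped Pointwise

universe u v w

namespace Pool.Agent.Lib.MP_682396_ag

open Tw

section ExtTFLift

variable {D : Type*} [CommRing D] {d : ℕ} {R : Type u} [CommRing R] [Algebra D R]
  [Algebra (MvPowerSeries (Fin d) D) R] [IsScalarTower D (MvPowerSeries (Fin d) D) R]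
  {M : Type u} [AddCommGroup M] [Module R M]
  [Module (MvPowerSeries (Fin d) D) M] [IsScalarTower (MvPowerSeries (Fin d) D) R M]
  {Q : Type*} [Fintype Q] [DecidableEq Q] (b : Basis Q (MvPowerSeries (Fin d) D) M)

theorem extTF_of_liftProp (C : CoordD D Q (xsD D d R) M)
    (hC : ∀ m a, C.θ m a = (b.repr m a.1).coeff (expo a.2))
    (hst : ∀ l, StabAnn (xsD D d R l) M)
    (hrig : ∀ (E : Type u) [AddCommGroup E] [Module R E] (f : M →ₗ[R] E) (g : E →ₗ[R] M),
      Function.Injective f → Function.Surjective g →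
      LinearMap.range f = LinearMap.ker g → ∃ s : M →ₗ[R] E, g ∘ₗ s = LinearMap.id)
    (hS : ∀ (k : ℕ) (W : Submodule D (Fin k → D)), LiftProp (R := R) b W) : ExtTF C := by
  intro m π hπ k W
  let N := MW R b W
  have hker : LinearMap.ker (toTwW b C hC W) = lev (xsD D d R) N fun _ => 5 :=
    ker_toTwW b C hC W
  refine ExtV.transfer (toTwW b C hC W) (toTwW_surjective b C hC W)
    (comap_lev (toTwW b C hC W) (toTwW_surjective b C hC W)
      (hker.le.trans (lev_anti fun _ => by norm_num)))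
    (comap_lev (toTwW b C hC W) (toTwW_surjective b C hC W)
      (hker.le.trans (lev_anti fun _ => by norm_num)))
    (lev_anti fun _ => by norm_num) _ ?_
  intro g
  have hΩ : ∀ l, StabAnn (xsD D d R l) (LinearMap.ker π) := fun l => (hst l).syzygy π hπ
  obtain ⟨ψ, hψ⟩ := lift_M (regSys_MW b W) hΩ (k := 4) (by norm_num) g
  choose H hH using fun t : Fin k =>
    extend_of_rigid hrig π hπ (LinearMap.proj t ∘ₗ (MW R b W).subtype ∘ₗ ψ)
  let H₁ : (Fin m → R) →ₗ[R] (Fin k → M) := LinearMap.pi H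
  have hH₁ : ∀ ω : LinearMap.ker π, H₁ ω = (ψ ω : Fin k → M) := by
    intro ω
    funext t
    exact hH t ω
  have hle : LinearMap.ker π ≤ LinearMap.ker ((MW R b W).mkQ ∘ₗ H₁) := by
    intro ω hω
    rw [LinearMap.mem_ker, LinearMap.comp_apply, Submodule.mkQ_apply,
      Submodule.Quotient.mk_eq_zero]
    have h1 := hH₁ ⟨ω, hω⟩
    rw [show H₁ ω = (ψ ⟨ω, hω⟩ : Fin k → M) from h1]
    exact (ψ ⟨ω, hω⟩).2
  let φ : M →ₗ[R] (Fin k → M) ⧸ MW R b W := (LinearMap.ker π).liftQ _ hle ∘ₗ
    (π.quotKerEquivOfSurjective hπ).symm.toLinearMap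
  have hφ : ∀ v, φ (π v) = Submodule.Quotient.mk (H₁ v) := by
    intro v
    have h3 : (π.quotKerEquivOfSurjective hπ).symm (π v) = Submodule.Quotient.mk v := by
      rw [LinearEquiv.symm_apply_eq]
      rfl
    show (LinearMap.ker π).liftQ _ hle ((π.quotKerEquivOfSurjective hπ).symm (π v)) = _
    rw [h3]
    rfl
  obtain ⟨e, he⟩ := hS k W φ
  let H₂ : (Fin m → R) →ₗ[R] N := LinearMap.codRestrict _ (H₁ - e ∘ₗ π) (by
    intro v
    rw [LinearMap.sub_apply, LinearMap.comp_apply, ← Submodule.Quotient.eq, he, hφ])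
  have hH₂ : ∀ ω : LinearMap.ker π, H₂ ω = ψ ω := by
    intro ω
    apply Subtype.ext
    show H₁ ω - e (π ω) = ψ ω
    rw [hH₁, ω.2, map_zero, sub_zero]
  refine ⟨Submodule.mkQ _ ∘ₗ H₂, fun ω => ?_⟩
  rw [LinearMap.comp_apply, hH₂]
  exact hψ ω

/-- The extension property over a principal ideal domain. -/
theorem extTF_of_pid [IsDomain D] [IsPrincipalIdealRing D] (C : CoordD D Q (xsD D d R) M)
    (hst : ∀ l, StabAnn (xsD D d R l) M)
    (hreg : RegSys (xsD D d R) M)
    (hrig : ∀ (E : Type u) [AddCommGroup E] [Module R E] (f : M →ₗ[R] E) (g : E →ₗ[R] M),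
      Function.Injective f → Function.Surjective g →
      LinearMap.range f = LinearMap.ker g → ∃ s : M →ₗ[R] E, g ∘ₗ s = LinearMap.id) :
    ExtTF C := by
  intro m π hπ k W
  let ε : D →ₐ[D] D := AlgHom.id D D
  have hε : ∀ p ∈ RingHom.ker ε, p = 0 := fun p hp => hp
  have h1 : Ext43 C.ρ (xsD D d R) (LinearMap.ker π) (D ⧸ RingHom.ker ε) := by
    let F : FiberD ε C.ρ (xsD D d R) M :=
      { θ := C.θ
        smul := fun r m a => C.smul r m a
        surj := C.surj
        ker := C.ker }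
    refine ExtV.transfer F.toTw F.toTw_surjective (F.comap_lev (fun _ => by norm_num))
      (F.comap_lev (fun _ => by norm_num)) (lev_anti fun _ => by norm_num) _
      (extV_of_rigid hreg hst hrig π hπ 3)
  obtain ⟨n, ⟨bW⟩⟩ : ∃ n, Nonempty (Basis (Fin n) D W) := by
    have : Module.Free D W := inferInstance
    have : Module.Finite D W := inferInstance
    exact ⟨_, ⟨Module.finBasis D W⟩⟩
  exact ext43_of_basis ε C.shift (fun p hp w => by rw [hε p hp, zero_smul]) bW h1

end ExtTFLift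

end Pool.Agent.Lib.MP_682396_ag
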