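import Pool.Agent.Lib.MP_682396_ag.Curve.Final

/-!
# Power series rings in several variables: maximal ideal, finiteness, completeness
-/

set_option autoImplicit false
set_option linter.unusedSectionVars false

open Module IsLocalRing RingTheory.Sequence
open scoped Pointwise

universe u v w

namespace Pool.Agent.Lib.MP_682396_ag

/-- F1. Generators of the maximal ideal of a power series ring over a local ring. -/
theorem ofList_X_append {D : Type*} [CommRing D] [IsLocalRing D] {d : ℕ} (fs : List D)
    (hfs : Ideal.ofList fs = maximalIdeal D) :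
    Ideal.ofList (fs.map (MvPowerSeries.C : D →+* MvPowerSeries (Fin d) D) ++
      List.ofFn fun l : Fin d => (MvPowerSeries.X l : MvPowerSeries (Fin d) D)) =
    maximalIdeal (MvPowerSeries (Fin d) D) := by
  rw [Ideal.ofList_append, ← Ideal.map_ofList, hfs]
  apply le_antisymm
  · refine sup_le ?_ ?_
    · rw [Ideal.map_le_iff_le_comap]
      intro a ha
      rw [Ideal.mem_comap, mem_maximalIdeal, mem_nonunits_iff,
        MvPowerSeries.isUnit_iff_constantCoeff, MvPowerSeries.constantCoeff_C]
      exact ha
    · rw [Ideal.ofList, Ideal.span_le]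
      intro f hf
      simp only [Set.mem_ofPred_eq, List.mem_ofFn] at hf
      obtain ⟨l, rfl⟩ := hf
      rw [SetLike.mem_coe, mem_maximalIdeal, mem_nonunits_iff,
        MvPowerSeries.isUnit_iff_constantCoeff, MvPowerSeries.constantCoeff_X]
      exact not_isUnit_zero
  · intro f hf
    rw [mem_maximalIdeal, mem_nonunits_iff, MvPowerSeries.isUnit_iff_constantCoeff] at hf
    have h0 : MvPowerSeries.constantCoeff f ∈ maximalIdeal D := hf
    obtain ⟨g, hg⟩ := exists_decompD (Finset.univ : Finset (Fin d)) (fun _ => 1)
      (f - MvPowerSeries.C (MvPowerSeries.constantCoeff f)) (by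
      intro α hα
      have h0 : α = 0 := by
        ext l
        have := hα l (Finset.mem_univ l)
        rw [Finsupp.zero_apply]
        omega
      rw [h0, map_sub, MvPowerSeries.coeff_zero_eq_constantCoeff_apply,
        MvPowerSeries.coeff_zero_eq_constantCoeff_apply, MvPowerSeries.constantCoeff_C, sub_self])
    have h1 : f = MvPowerSeries.C (MvPowerSeries.constantCoeff f) +
        (f - MvPowerSeries.C (MvPowerSeries.constantCoeff f)) := by abel
    rw [h1]
    refine Submodule.add_mem_sup ?_ ?_
    · exact Ideal.mem_map_of_mem _ h0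
    · rw [hg]
      refine Ideal.sum_mem _ fun l _ => ?_
      rw [pow_one]
      apply Ideal.mul_mem_right
      apply Ideal.subset_span
      simp only [Set.mem_ofPred_eq, List.mem_ofFn]
      exact ⟨l, rfl⟩

/-- F2. Quotients for which the distinguished variables are parameters are finite over the power
series ring in those variables. -/
theorem finite_quotient_mvPowerSeries {s : ℕ} {K : Type*} [Field K] {R : Type*} [CommRing R]
    [IsNoetherianRing R] [IsLocalRing R] [Algebra K R] [IsAdicComplete (maximalIdeal R) R]
    [Algebra (MvPowerSeries (Fin s) K) R] [IsScalarTower K (MvPowerSeries (Fin s) K) R]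
    (hres : ∀ r : R, ∃ c : K, r - algebraMap K R c ∈ maximalIdeal R)
    (hf : ∀ j, algebraMap (MvPowerSeries (Fin s) K) R (MvPowerSeries.X j) ∈ maximalIdeal R)
    (J : Ideal R) (hJ : J ≤ maximalIdeal R)
    (hrad : maximalIdeal R ≤ (J ⊔ Ideal.span (Set.range fun j =>
      algebraMap (MvPowerSeries (Fin s) K) R (MvPowerSeries.X j))).radical) :
    Module.Finite (MvPowerSeries (Fin s) K) (R ⧸ J) := by
  have hnt : Nontrivial (R ⧸ J) := by
    rw [Ideal.Quotient.nontrivial_iff]
    rintro rfl
    exact (maximalIdeal.isMaximal R).ne_top (top_le_iff.mp hJ)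
  have hloc : IsLocalRing (R ⧸ J) := IsLocalRing.of_surjective' _ Ideal.Quotient.mk_surjective
  have hcomp : IsAdicComplete (maximalIdeal (R ⧸ J)) (R ⧸ J) := isAdicComplete_quotient J
  have hmax := map_mk_maximalIdeal J
  let f' : Fin s → R ⧸ J := fun j =>
    Ideal.Quotient.mk J (algebraMap (MvPowerSeries (Fin s) K) R (MvPowerSeries.X j))
  have hf' : ∀ j, f' j ∈ maximalIdeal (R ⧸ J) := by
    intro j
    rw [← hmax]
    exact Ideal.mem_map_of_mem _ (hf j)
  have hfle : Ideal.span (Set.range f') ≤ maximalIdeal (R ⧸ J) := by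
    rw [Ideal.span_le]
    rintro _ ⟨j, rfl⟩
    exact hf' j
  have hmap : Ideal.span (Set.range f') = (Ideal.span (Set.range fun j =>
      algebraMap (MvPowerSeries (Fin s) K) R (MvPowerSeries.X j))).map (Ideal.Quotient.mk J) := by
    rw [Ideal.map_span, ← Set.range_comp]
    rfl
  have hfin : Module.Finite K ((R ⧸ J) ⧸ Ideal.span (Set.range f')) := by
    apply finite_quotient (K := K) (R := R ⧸ J)
    · intro b
      obtain ⟨r, rfl⟩ := Ideal.Quotient.mk_surjective b
      obtain ⟨c, hc⟩ := hres r
      refine ⟨c, ?_⟩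
      rw [← hmax]
      exact Ideal.mem_map_of_mem _ hc
    · exact hfle
    · rw [← hmax, Ideal.map_le_iff_le_comap]
      intro r hr
      obtain ⟨n, hn⟩ := hrad hr
      rw [Ideal.mem_comap]
      refine ⟨n, ?_⟩
      rw [← map_pow, hmap]
      obtain ⟨a, ha, b, hb, hab⟩ := Submodule.mem_sup.mp hn
      rw [← hab, map_add, Ideal.Quotient.eq_zero_iff_mem.mpr ha, zero_add]
      exact Ideal.mem_map_of_mem _ hb
  refine finite_of_finite_quotientD (B := K) (σ := Fin s) (R := R ⧸ J)
    (Ideal.span (Set.range f')) rfl hfin ?_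
  apply IsHausdorff.of_isLocalRing
  intro h
  rw [h] at hfle
  exact (maximalIdeal.isMaximal (R ⧸ J)).ne_top (top_le_iff.mp hfle)

/-- F3. The power series ring in finitely many variables over a field is complete. -/
theorem isAdicComplete_maximalIdeal_mvPowerSeries {s : ℕ} {K : Type*} [Field K] :
    IsAdicComplete (maximalIdeal (MvPowerSeries (Fin s) K)) (MvPowerSeries (Fin s) K) := by
  have h : maximalIdeal (MvPowerSeries (Fin s) K) =
      Ideal.span (Set.range (MvPowerSeries.X : Fin s → MvPowerSeries (Fin s) K)) := by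
    rw [← ofList_X, Ideal.ofList]
    congr 1
    ext t
    simp only [Set.mem_ofPred_eq, List.mem_ofFn, Set.mem_range]
  rw [h]
  infer_instance

end Pool.Agent.Lib.MP_682396_ag
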