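import Pool.Agent.Lib.MP_682396_ag.Curve.Final

/-!
# A dualizing functional for a ring with an irreducible parameter ideal
-/

set_option autoImplicit false
set_option linter.unusedSectionVars false
set_option linter.unusedVariables false

open Module IsLocalRing RingTheory.Sequence
open scoped Pointwise TensorProduct

universe u v w

namespace Pool.Agent.Lib.MP_682396_ag

section GA

variable {A R : Type u} [CommRing A] [IsLocalRing A] [CommRing R] [Algebra A R]
  {ι : Type*} [Fintype ι]

/-- membership in the extended maximal ideal in coordinates -/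
theorem GA_mem_iff (b : Basis ι A R) (r : R) :
    r ∈ (maximalIdeal A).map (algebraMap A R) ↔ ∀ i, b.repr r i ∈ maximalIdeal A := by
  constructor
  · intro h i
    have h1 : r ∈ ((maximalIdeal A) • (⊤ : Submodule A R)) := by
      rw [Ideal.smul_top_eq_map]
      exact h
    refine Submodule.smul_induction_on h1 (fun a ha x _ => ?_) (fun x y hx hy => ?_)
    · rw [map_smul, Finsupp.smul_apply, smul_eq_mul]
      exact Ideal.mul_mem_right _ _ ha
    · rw [map_add, Finsupp.add_apply]
      exact add_mem hx hy
  · intro h
    rw [← b.sum_repr r]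
    refine sum_mem fun i _ => ?_
    rw [Algebra.smul_def]
    exact Ideal.mul_mem_right _ _ (Ideal.mem_map_of_mem _ (h i))

/-- the ideal of the elements all whose multiples have a small coordinate -/
noncomputable def GA_J (b : Basis ι A R) (i : ι) : Ideal R where
  carrier := {r | ∀ s, b.repr (r * s) i ∈ maximalIdeal A}
  zero_mem' := fun s => by
    rw [zero_mul, map_zero]
    exact Ideal.zero_mem _
  add_mem' := fun {x y} hx hy s => by
    rw [add_mul, map_add, Finsupp.add_apply]
    exact add_mem (hx s) (hy s)
  smul_mem' := fun c x hx s => by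
    have h : c • x * s = x * (c * s) := by
      rw [smul_eq_mul]
      ring
    rw [h]
    exact hx _

theorem GA_exists_coord (b : Basis ι A R)
    (hirr : InfIrred ((maximalIdeal A).map (algebraMap A R))) :
    ∃ i, ∀ r : R, (∀ s, b.coord i (r * s) ∈ maximalIdeal A) →
      r ∈ (maximalIdeal A).map (algebraMap A R) := by
  classical
  have h1 : (Finset.univ : Finset ι).inf (GA_J b) = (maximalIdeal A).map (algebraMap A R) := by
    ext r
    rw [Submodule.mem_finsetInf]
    constructor
    · intro h
      rw [GA_mem_iff b]
      intro i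
      have := h i (Finset.mem_univ i) 1
      rwa [mul_one] at this
    · intro h i _ s
      exact (GA_mem_iff b _).1 (Ideal.mul_mem_right s _ h) i
  obtain ⟨i, -, hi⟩ := hirr.finset_inf_eq h1
  refine ⟨i, fun r hr => ?_⟩
  rw [← hi]
  exact hr

end GA

/-- GA. The dualizing module of a ring whose parameter ideal is irreducible. -/
theorem exists_dual_generator {A R : Type u} [CommRing A] [IsLocalRing A] [CommRing R]
    [IsLocalRing R] [Algebra A R] [Module.Finite A R] [Module.Free A R]
    (hloc : (maximalIdeal A).map (algebraMap A R) ≤ maximalIdeal R)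
    (hirr : InfIrred ((maximalIdeal A).map (algebraMap A R))) :
    ∃ t : R →ₗ[A] A, ∀ (M : Type u) [AddCommGroup M] [Module R M] [Module A M]
      [IsScalarTower A R M] (μ : M →ₗ[A] A), ∃! f : M →ₗ[R] R, ∀ m, t (f m) = μ m := by
  classical
  let b := Module.Free.chooseBasis A R
  obtain ⟨i₀, hi₀⟩ := GA_exists_coord b hirr
  set t : R →ₗ[A] A := b.coord i₀ with ht
  set G : Matrix (Module.Free.ChooseBasisIndex A R) (Module.Free.ChooseBasisIndex A R) A :=
    fun j l => t (b j * b l) with hG
  have hGsymm : ∀ j l, G j l = G l j := fun j l => by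
    rw [hG]
    dsimp only
    rw [mul_comm]
  -- multiplication by a combination of the basis
  have hmul : ∀ (w : Module.Free.ChooseBasisIndex A R → A) (l : Module.Free.ChooseBasisIndex A R),
      t ((∑ j, w j • b j) * b l) = (Matrix.mulVec G w) l := by
    intro w l
    rw [Finset.sum_mul, map_sum, Matrix.mulVec, dotProduct]
    refine Finset.sum_congr rfl fun j _ => ?_
    rw [smul_mul_assoc, map_smul, smul_eq_mul, mul_comm, hGsymm l j]
  -- linear in the second argument
  have hext : ∀ (c : R) (ψ : R →ₗ[A] A), (∀ l, t (c * b l) = ψ (b l)) → ∀ s, t (c * s) = ψ s := by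
    intro c ψ h s
    have h1 : t ∘ₗ LinearMap.mulLeft A c = ψ := b.ext fun l => h l
    exact LinearMap.congr_fun h1 s
  -- the determinant is a unit
  have hdet : IsUnit G.det := by
    by_contra hcon
    have hmem : G.det ∈ maximalIdeal A := (mem_maximalIdeal _).2 hcon
    have h0 : (G.map (residue A)).det = 0 := by
      have h1 : (G.map (residue A)).det = residue A G.det := by
        rw [RingHom.map_det]
        rfl
      rw [h1]
      exact (residue_eq_zero_iff _).2 hmem
    obtain ⟨v, hv0, hv⟩ := Matrix.exists_mulVec_eq_zero_iff.2 h0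
    choose w hw using fun j => residue_surjective (v j)
    apply hv0
    have hr : (∑ j, w j • b j) ∈ (maximalIdeal A).map (algebraMap A R) := by
      apply hi₀
      intro s
      have h2 : ∀ l, b.coord i₀ ((∑ j, w j • b j) * b l) ∈ maximalIdeal A := by
        intro l
        rw [← ht, hmul, ← residue_eq_zero_iff]
        have h3 := congrFun hv l
        rw [Matrix.mulVec, dotProduct] at h3 ⊢
        rw [map_sum]
        rw [Pi.zero_apply] at h3
        rw [← h3]
        refine Finset.sum_congr rfl fun j _ => ?_
        rw [map_mul, hw, Matrix.map_apply]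
      rw [← b.sum_repr s, Finset.mul_sum, map_sum]
      refine sum_mem fun l _ => ?_
      rw [mul_smul_comm, map_smul, smul_eq_mul]
      exact Ideal.mul_mem_left _ _ (h2 l)
    funext j
    have h4 := (GA_mem_iff b _).1 hr j
    have h5 : b.repr (∑ j, w j • b j) j = w j := by
      rw [b.repr_sum_self]
    rw [h5, ← residue_eq_zero_iff, hw] at h4
    exact h4
  -- existence
  have hex : ∀ ψ : R →ₗ[A] A, ∃ c : R, ∀ s, t (c * s) = ψ s := by
    intro ψ
    refine ⟨∑ j, (Matrix.mulVec G⁻¹ fun l => ψ (b l)) j • b j, hext _ ψ fun l => ?_⟩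
    rw [hmul, Matrix.mulVec_mulVec, Matrix.mul_nonsing_inv _ hdet, Matrix.one_mulVec]
  have huniq : ∀ c : R, (∀ s, t (c * s) = 0) → c = 0 := by
    intro c hc
    have h1 : Matrix.mulVec G (fun j => b.repr c j) = 0 := by
      funext l
      rw [← hmul, b.sum_repr, Pi.zero_apply]
      exact hc _
    have h2 : (fun j => b.repr c j) = 0 := by
      have h3 := congrArg (Matrix.mulVec G⁻¹) h1
      rwa [Matrix.mulVec_mulVec, Matrix.nonsing_inv_mul _ hdet, Matrix.one_mulVec,
        Matrix.mulVec_zero] at h3
    rw [← b.sum_repr c]
    exact Finset.sum_eq_zero fun j _ => by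
      rw [show b.repr c j = 0 from congrFun h2 j, zero_smul]
  have huniq2 : ∀ c c' : R, (∀ s, t (c * s) = t (c' * s)) → c = c' := by
    intro c c' h
    rw [← sub_eq_zero]
    apply huniq
    intro s
    rw [sub_mul, map_sub, h, sub_self]
  refine ⟨t, ?_⟩
  intro M _ _ _ _ μ
  choose f hf using fun y : M =>
    hex (μ ∘ₗ (LinearMap.toSpanSingleton R M y).restrictScalars A)
  have hf' : ∀ (y : M) (s : R), t (f y * s) = μ (s • y) := fun y s => hf y s
  refine ⟨{ toFun := f
            map_add' := ?_
            map_smul' := ?_ }, ?_, ?_⟩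
  · intro y y'
    apply huniq2
    intro s
    rw [add_mul, map_add, hf', hf', hf', smul_add, map_add]
  · intro r y
    apply huniq2
    intro s
    rw [RingHom.id_apply, smul_eq_mul, mul_comm r, mul_assoc, hf', hf', smul_smul, mul_comm]
  · intro m
    have := hf' m 1
    rwa [mul_one, one_smul] at this
  · intro g hg
    apply LinearMap.ext
    intro m
    apply huniq2
    intro s
    change t (g m * s) = t (f m * s)
    rw [hf', ← hg, map_smul, smul_eq_mul, mul_comm]

end Pool.Agent.Lib.MP_682396_ag
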