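import Pool.Agent.Lib.MP_682396_ag.Gen.SplitDef

set_option autoImplicit false
set_option linter.unusedSectionVars false

open Module IsLocalRing
open scoped Pointwise TensorProduct

universe u

namespace Pool.Agent.Lib.MP_682396_ag

namespace GB

/-- the action of `R` on `Hom_A(N, X)` by precomposition -/
@[reducible] def domModule (A R N X : Type u) [CommRing A] [CommRing R] [Algebra A R]
    [AddCommGroup N] [Module R N] [Module A N] [IsScalarTower A R N] [AddCommGroup X]
    [Module A X] : Module R (N →ₗ[A] X) where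
  smul r h := h ∘ₗ (Algebra.lsmul A A N r)
  one_smul h := by
    ext v
    show h ((1 : R) • v) = h v
    rw [one_smul]
  mul_smul r s h := by
    ext v
    show h ((r * s) • v) = h (s • (r • v))
    rw [mul_comm, mul_smul]
  smul_zero r := by
    ext v; rfl
  smul_add r h h' := by
    ext v; rfl
  add_smul r s h := by
    ext v
    show h ((r + s) • v) = h (r • v) + h (s • v)
    rw [add_smul, map_add]
  zero_smul h := by
    ext v
    show h ((0 : R) • v) = 0
    rw [zero_smul, map_zero]

section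

variable {A R : Type u} [CommRing A] [CommRing R] [Algebra A R] (t : R →ₗ[A] A)
    {M : Type u} [AddCommGroup M] [Module R M] [Module A M] [IsScalarTower A R M]

/-- `f ↦ t ∘ f` -/
def theta : (M →ₗ[R] R) →ₗ[A] (M →ₗ[A] A) where
  toFun f := t ∘ₗ f.restrictScalars A
  map_add' f g := by
    ext m
    show t (f m + g m) = t (f m) + t (g m)
    rw [map_add]
  map_smul' a f := by
    ext m
    show t (a • f m) = a • t (f m)
    rw [map_smul]

theorem theta_apply (f : M →ₗ[R] R) (m : M) : theta t f m = t (f m) := rfl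

theorem theta_bij (ht : ∀ (μ : M →ₗ[A] A), ∃! f : M →ₗ[R] R, ∀ m, t (f m) = μ m) :
    Function.Bijective (theta (M := M) t) := by
  constructor
  · intro f g hfg
    obtain ⟨k, -, hk⟩ := ht (theta t f)
    rw [hk f (fun m => rfl), hk g (fun m => by rw [hfg]; rfl)]
  · intro μ
    obtain ⟨f, hf, -⟩ := ht μ
    exact ⟨f, LinearMap.ext hf⟩

/-- the evaluation -/
def ev (m : M) : (M →ₗ[R] R) →ₗ[A] A where
  toFun f := t (f m)
  map_add' f g := by
    show t (f m + g m) = _
    rw [map_add]
  map_smul' a f := by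
    show t (a • f m) = a • t (f m)
    rw [map_smul]

theorem ev_bij [Module.Finite A M] [Module.Free A M]
    (ht : ∀ (μ : M →ₗ[A] A), ∃! f : M →ₗ[R] R, ∀ m, t (f m) = μ m) :
    (∀ m : M, ev t m = 0 → m = 0) ∧ ∀ h : (M →ₗ[R] R) →ₗ[A] A, ∃ m : M, ev t m = h := by
  have hb := theta_bij (M := M) t ht
  let e : (M →ₗ[R] R) ≃ₗ[A] (M →ₗ[A] A) := LinearEquiv.ofBijective _ hb
  have hrefl := (Module.bijective_dual_eval A M)
  constructor
  · intro m hm
    apply hrefl.1
    rw [map_zero]
    ext μ
    obtain ⟨f, hf⟩ := hb.2 μ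
    show μ m = 0
    rw [← hf]
    exact LinearMap.congr_fun hm f
  · intro h
    obtain ⟨m, hm⟩ := hrefl.2 (h ∘ₗ e.symm.toLinearMap)
    refine ⟨m, ?_⟩
    ext f
    have h1 := LinearMap.congr_fun hm (e f)
    have h2 : (h ∘ₗ e.symm.toLinearMap) (e f) = h f := by
      show h (e.symm (e f)) = h f
      rw [LinearEquiv.symm_apply_apply]
    rw [h2] at h1
    exact h1

end

end GB

open GB in
/-- GB. Rigidity gives the splitting of extensions of the tensor product. -/
theorem splitsExt_tensor {A R : Type u} [CommRing A] [CommRing R] [Algebra A R] (t : R →ₗ[A] A)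
    (ht : ∀ (M : Type u) [AddCommGroup M] [Module R M] [Module A M]
      [IsScalarTower A R M] (μ : M →ₗ[A] A), ∃! f : M →ₗ[R] R, ∀ m, t (f m) = μ m)
    {M : Type u} [AddCommGroup M] [Module R M] [Module A M] [IsScalarTower A R M]
    [Module.Finite A M] [Module.Free A M]
    (hrig : ∀ (E : Type u) [AddCommGroup E] [Module R E] (f : M →ₗ[R] E) (g : E →ₗ[R] M),
      Function.Injective f → Function.Surjective g →
      LinearMap.range f = LinearMap.ker g → ∃ s : M →ₗ[R] E, g ∘ₗ s = LinearMap.id) :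
    SplitsExt A (M ⊗[R] (M →ₗ[R] R)) := by
  intro X _ _ i p hi hp hex
  let _ : Module R ((M →ₗ[R] R) →ₗ[A] X) := domModule A R (M →ₗ[R] R) X
  have hsm : ∀ (r : R) (h : (M →ₗ[R] R) →ₗ[A] X) (v : M →ₗ[R] R), (r • h) v = h (r • v) :=
    fun r h v => rfl
  -- projectivity of the dual
  let e : (M →ₗ[R] R) ≃ₗ[A] (M →ₗ[A] A) := LinearEquiv.ofBijective _ (theta_bij (M := M) t (ht M))
  have hproj : Module.Projective A (M →ₗ[R] R) := Module.Projective.of_equiv e.symm
  let Z : Submodule R (M × ((M →ₗ[R] R) →ₗ[A] X)) :=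
    { carrier := {q | ∀ v, p (q.2 v) = q.1 ⊗ₜ[R] v}
      add_mem' := by
        intro q q' hq hq' v
        show p (q.2 v + q'.2 v) = (q.1 + q'.1) ⊗ₜ[R] v
        rw [map_add, hq v, hq' v, TensorProduct.add_tmul]
      zero_mem' := by
        intro v
        show p 0 = (0 : M) ⊗ₜ[R] v
        rw [map_zero, TensorProduct.zero_tmul]
      smul_mem' := by
        intro r q hq v
        show p ((r • q.2) v) = (r • q.1) ⊗ₜ[R] v
        rw [hsm, hq, TensorProduct.smul_tmul] }
  have hZ : ∀ q, q ∈ Z ↔ ∀ v, p (q.2 v) = q.1 ⊗ₜ[R] v := fun q => Iff.rfl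
  let g : Z →ₗ[R] M := (LinearMap.fst R M ((M →ₗ[R] R) →ₗ[A] X)) ∘ₗ Z.subtype
  have hpi : ∀ a, p (i a) = 0 := by
    intro a
    have : i a ∈ LinearMap.ker p := by rw [← hex]; exact ⟨a, rfl⟩
    exact this
  let f₀ : M →ₗ[R] (M × ((M →ₗ[R] R) →ₗ[A] X)) :=
    { toFun := fun m => (0, i ∘ₗ ev t m)
      map_add' := by
        intro m m'
        refine Prod.ext (by simp) ?_
        ext v
        show i (t (v (m + m'))) = i (t (v m)) + i (t (v m'))
        rw [map_add, map_add, map_add]
      map_smul' := by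
        intro r m
        refine Prod.ext (by simp) ?_
        ext v
        show i (t (v (r • m))) = i (t ((r • v) m))
        rw [map_smul]; rfl }
  have hf₀ : ∀ m, f₀ m ∈ Z := by
    intro m v
    show p (i (t (v m))) = (0 : M) ⊗ₜ[R] v
    rw [hpi, TensorProduct.zero_tmul]
  let f : M →ₗ[R] Z := f₀.codRestrict Z hf₀
  have hev := ev_bij (M := M) t (ht M)
  have hfi : Function.Injective f := by
    rw [← LinearMap.ker_eq_bot, LinearMap.ker_eq_bot']
    intro m hm
    apply hev.1
    ext v
    apply hi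
    have h1 : (f₀ m).2 = 0 := by
      have := congrArg (fun z : Z => (z : M × ((M →ₗ[R] R) →ₗ[A] X)).2) hm
      exact this
    have h2 := LinearMap.congr_fun h1 v
    show i (ev t m v) = i 0
    rw [map_zero]
    exact h2
  have hgs : Function.Surjective g := by
    intro m
    let μ : (M →ₗ[R] R) →ₗ[A] (M ⊗[R] (M →ₗ[R] R)) :=
      { toFun := fun v => m ⊗ₜ[R] v
        map_add' := fun v w => TensorProduct.tmul_add m v w
        map_smul' := by
          intro a v
          show m ⊗ₜ[R] (a • v) = a • (m ⊗ₜ[R] v)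
          rw [← algebraMap_smul R a v, ← TensorProduct.smul_tmul, algebraMap_smul,
            TensorProduct.smul_tmul'] }
    obtain ⟨h, hh⟩ := Module.projective_lifting_property p μ hp
    refine ⟨⟨(m, h), ?_⟩, rfl⟩
    intro v
    exact LinearMap.congr_fun hh v
  have hexg : LinearMap.range f = LinearMap.ker g := by
    ext z
    rw [LinearMap.mem_range, LinearMap.mem_ker]
    constructor
    · rintro ⟨m, rfl⟩; rfl
    · intro hz
      have hz1 : (z : M × ((M →ₗ[R] R) →ₗ[A] X)).1 = 0 := hz
      have hz2 : ∀ v, p ((z : M × ((M →ₗ[R] R) →ₗ[A] X)).2 v) = 0 := by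
        intro v
        rw [z.2 v, hz1, TensorProduct.zero_tmul]
      -- factor through i
      let e' := LinearEquiv.ofInjective i hi
      let h' : (M →ₗ[R] R) →ₗ[A] A := e'.symm.toLinearMap ∘ₗ
        LinearMap.codRestrict (LinearMap.range i) (z : M × ((M →ₗ[R] R) →ₗ[A] X)).2
          (fun v => by rw [hex]; exact hz2 v)
      have hh' : ∀ v, i (h' v) = (z : M × ((M →ₗ[R] R) →ₗ[A] X)).2 v := by
        intro v
        have h3 : e' (h' v) = LinearMap.codRestrict (LinearMap.range i)
            (z : M × ((M →ₗ[R] R) →ₗ[A] X)).2 (fun v => by rw [hex]; exact hz2 v) v :=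
          e'.apply_symm_apply _
        exact congrArg Subtype.val h3
      obtain ⟨m, hm⟩ := hev.2 h'
      refine ⟨m, Subtype.ext (Prod.ext hz1.symm ?_)⟩
      ext v
      show i (ev t m v) = _
      rw [hm, hh']
  obtain ⟨s, hs⟩ := hrig Z f g hfi hgs hexg
  have hs' : ∀ m, (s m : M × ((M →ₗ[R] R) →ₗ[A] X)).1 = m := fun m => LinearMap.congr_fun hs m
  have hs2 : ∀ m v, p ((s m : M × ((M →ₗ[R] R) →ₗ[A] X)).2 v) = m ⊗ₜ[R] v := by
    intro m v
    rw [(s m).2 v, hs']
  let F : M →+ (M →ₗ[R] R) →+ X :=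
    { toFun := fun m => (s m : M × ((M →ₗ[R] R) →ₗ[A] X)).2.toAddMonoidHom
      map_zero' := by
        ext v
        show (s 0 : M × ((M →ₗ[R] R) →ₗ[A] X)).2 v = 0
        rw [map_zero]; rfl
      map_add' := by
        intro m m'
        ext v
        show (s (m + m') : M × ((M →ₗ[R] R) →ₗ[A] X)).2 v = _
        rw [map_add]; rfl }
  have hF : ∀ (r : R) (m : M) (v : M →ₗ[R] R), F (r • m) v = F m (r • v) := by
    intro r m v
    show (s (r • m) : M × ((M →ₗ[R] R) →ₗ[A] X)).2 v = _
    rw [map_smul]; rfl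
  let σ₀ : (M ⊗[R] (M →ₗ[R] R)) →+ X := TensorProduct.liftAddHom F hF
  have hσ₀ : ∀ m v, σ₀ (m ⊗ₜ[R] v) = (s m : M × ((M →ₗ[R] R) →ₗ[A] X)).2 v := fun m v => rfl
  let σ : (M ⊗[R] (M →ₗ[R] R)) →ₗ[A] X :=
    { toFun := σ₀
      map_add' := σ₀.map_add
      map_smul' := by
        intro a x
        show σ₀ (a • x) = a • σ₀ x
        induction x using TensorProduct.induction_on with
        | zero => rw [smul_zero, map_zero, smul_zero]
        | tmul m v =>
          rw [TensorProduct.smul_tmul', hσ₀, hσ₀, ← algebraMap_smul R a m, map_smul]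
          show (s m : M × ((M →ₗ[R] R) →ₗ[A] X)).2 (algebraMap A R a • v) = _
          rw [algebraMap_smul, map_smul]
        | add x y hx hy => rw [smul_add, map_add, hx, hy, map_add, smul_add] }
  refine ⟨σ, ?_⟩
  ext x
  show p (σ₀ x) = x
  induction x using TensorProduct.induction_on with
  | zero => rw [map_zero, map_zero]
  | tmul m v => rw [hσ₀, hs2]
  | add x y hx hy => rw [map_add, map_add, hx, hy]

end Pool.Agent.Lib.MP_682396_ag
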