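import Pool.Agent.Lib.MP_682396_ag.Gen.SplitDef
import Pool.Agent.Lib.MP_682396_ag.Stab

/-!
# Passing from the tensor product to the endomorphism ring
-/

set_option autoImplicit false
set_option linter.unusedSectionVars false

open Module IsLocalRing RingTheory.Sequence
open scoped Pointwise TensorProduct

universe u v w

namespace Pool.Agent.Lib.MP_682396_ag

/-- Elementary form of weak regularity of a pair. -/
theorem gc_unpack {A : Type*} [CommRing A] {M : Type*} [AddCommGroup M] [Module A M] {x₁ x₂ : A}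
    {rs : List A} (h : IsWeaklyRegular M (x₁ :: x₂ :: rs)) :
    (∀ m : M, x₁ • m = 0 → m = 0) ∧ ∀ m m' : M, x₂ • m = x₁ • m' → ∃ n : M, m = x₁ • n := by
  rw [isWeaklyRegular_cons_iff] at h
  obtain ⟨h1, h2⟩ := h
  rw [isWeaklyRegular_cons_iff] at h2
  obtain ⟨h2, -⟩ := h2
  refine ⟨fun m hm => ?_, fun m m' hm => ?_⟩
  · exact h1 (by simpa using hm)
  · have h3 : x₂ • (Submodule.Quotient.mk m : QuotSMulTop x₁ M) = x₂ • 0 := by
      rw [smul_zero, ← Submodule.Quotient.mk_smul, hm, Submodule.Quotient.mk_eq_zero]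
      exact Submodule.smul_mem_pointwise_smul _ _ _ trivial
    have h4 := h2 h3
    rw [Submodule.Quotient.mk_eq_zero, Submodule.mem_smul_pointwise_iff_exists] at h4
    obtain ⟨n, -, hn⟩ := h4
    exact ⟨n, hn.symm⟩

/-- The same for modules of homomorphisms. -/
theorem gc_hom {A R : Type*} [CommRing A] [CommRing R] [Algebra A R] {x₁ x₂ : A}
    {N M : Type*} [AddCommGroup N] [Module R N] [AddCommGroup M] [Module R M] [Module A M]
    [IsScalarTower A R M] (h1 : ∀ m : M, x₁ • m = 0 → m = 0)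
    (h2 : ∀ m m' : M, x₂ • m = x₁ • m' → ∃ n : M, m = x₁ • n) :
    (∀ e : N →ₗ[R] M, x₁ • e = 0 → e = 0) ∧
      ∀ e e' : N →ₗ[R] M, x₂ • e = x₁ • e' → ∃ n : N →ₗ[R] M, e = x₁ • n := by
  have hinj : ∀ m m' : M, x₁ • m = x₁ • m' → m = m' := fun m m' h => by
    have := h1 (m - m') (by rw [smul_sub, h, sub_self])
    exact sub_eq_zero.1 this
  refine ⟨fun e he => ?_, fun e e' he => ?_⟩
  · ext y
    exact h1 _ (by simpa using LinearMap.congr_fun he y)
  · have h3 : ∀ y, ∃ n : M, e y = x₁ • n := fun y => h2 (e y) (e' y) (by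
      simpa using LinearMap.congr_fun he y)
    choose n hn using h3
    refine ⟨{ toFun := n, map_add' := fun y z => ?_, map_smul' := fun r y => ?_ }, ?_⟩
    · apply hinj
      rw [smul_add, ← hn, ← hn, ← hn, map_add]
    · apply hinj
      rw [← hn, map_smul, hn, RingHom.id_apply, smul_comm]
    · ext y
      exact hn y

/-- GC. Passing from the tensor product to the endomorphism ring. -/
theorem splitsExt_end {A R : Type u} [CommRing A] [CommRing R] [Algebra A R]
    {M : Type u} [AddCommGroup M] [Module R M] [Module A M] [IsScalarTower A R M]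
    (x₁ x₂ : A) (h₁ : StabAnn (algebraMap A R x₁) M) (h₂ : StabAnn (algebraMap A R x₂) M)
    (hA : IsWeaklyRegular A [x₁, x₂]) (hM : IsWeaklyRegular M [x₁, x₂])
    (h : SplitsExt A (M ⊗[R] (M →ₗ[R] R))) : SplitsExt A (M →ₗ[R] M) := by
  intro X _ _ i p hi hp hip
  obtain ⟨a1, a2⟩ := gc_unpack hA
  obtain ⟨m1, m2⟩ := gc_unpack hM
  obtain ⟨e1, e2⟩ := gc_hom (R := R) (N := M) m1 m2
  -- the canonical map
  let φ : M ⊗[R] (M →ₗ[R] R) →ₗ[R] (M →ₗ[R] M) :=
    TensorProduct.lift (LinearMap.mk₂ R (fun m f => f.smulRight m)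
      (fun m m' f => by ext y; simp) (fun c m f => by ext y; exact smul_comm (f y) c m)
      (fun m f f' => by ext y; simp [add_smul]) (fun c m f => by ext y; simp [mul_smul]))
  have hφ : ∀ (m : M) (f : M →ₗ[R] R) (y : M), φ (m ⊗ₜ f) y = f y • m := fun m f y => rfl
  let φA : M ⊗[R] (M →ₗ[R] R) →ₗ[A] (M →ₗ[R] M) :=
    { toFun := φ
      map_add' := map_add φ
      map_smul' := fun a q => by
        show φ (a • q) = a • φ q
        rw [← algebraMap_smul R a q, map_smul, algebraMap_smul] }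
  have hφA : ∀ q, φA q = φ q := fun q => rfl
  -- the lifts of multiples
  have hQ : ∀ x : A, StabAnn (algebraMap A R x) M → ∃ Q : (M →ₗ[R] M) → M ⊗[R] (M →ₗ[R] R),
      (∀ e, φ (Q e) = x • e) ∧ ∀ q, φ q = 0 → x • q = 0 := by
    rintro x ⟨n, α, β, hαβ⟩
    have hx : ∀ m : M, x • m = ∑ j, (α m j) • β (Pi.single j 1) := by
      intro m
      rw [← algebraMap_smul R x m, ← hαβ m]
      conv_lhs => rw [pi_eq_sum_univ' (α m)]
      rw [map_sum]
      refine Finset.sum_congr rfl fun j _ => ?_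
      rw [← map_smul]
    refine ⟨fun e => ∑ j, e (β (Pi.single j 1)) ⊗ₜ[R] ((LinearMap.proj j).comp α),
      fun e => ?_, fun q hq => ?_⟩
    · rw [map_sum]
      ext y
      rw [LinearMap.sum_apply]
      have : (x • e) y = e (x • y) := by
        rw [LinearMap.smul_apply, ← algebraMap_smul R x (e y), ← map_smul, algebraMap_smul]
      rw [this, hx y, map_sum]
      refine Finset.sum_congr rfl fun j _ => ?_
      rw [hφ, map_smul]
      rfl
    · have key : ∀ q : M ⊗[R] (M →ₗ[R] R), x • q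
          = ∑ j, β (Pi.single j 1) ⊗ₜ[R] (((LinearMap.proj j).comp α).comp (φ q)) := by
        intro q
        induction q using TensorProduct.induction_on with
        | zero => simp
        | add q q' h h' =>
          rw [smul_add, h, h', ← Finset.sum_add_distrib]
          refine Finset.sum_congr rfl fun j _ => ?_
          rw [map_add, LinearMap.comp_add, TensorProduct.tmul_add]
        | tmul m f =>
          rw [TensorProduct.smul_tmul', hx m, TensorProduct.sum_tmul]
          refine Finset.sum_congr rfl fun j _ => ?_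
          rw [TensorProduct.smul_tmul]
          congr 1
          ext y
          simp only [LinearMap.smul_apply, LinearMap.comp_apply, hφ, map_smul, smul_eq_mul]
          exact mul_comm _ _
      rw [key, hq]
      simp
  obtain ⟨Q1, q1, k1⟩ := hQ x₁ h₁
  obtain ⟨Q2, q2, k2⟩ := hQ x₂ h₂
  -- the pull back
  let Y : Submodule A (X × (M ⊗[R] (M →ₗ[R] R))) :=
    LinearMap.ker (p ∘ₗ LinearMap.fst A X _ - φA ∘ₗ LinearMap.snd A X _)
  have hY : ∀ y : X × (M ⊗[R] (M →ₗ[R] R)), y ∈ Y ↔ p y.1 = φ y.2 := by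
    intro y
    rw [LinearMap.mem_ker, LinearMap.sub_apply, sub_eq_zero]
    rfl
  have hpi : ∀ a, p (i a) = 0 := fun a => by
    have : i a ∈ LinearMap.ker p := hip ▸ ⟨a, rfl⟩
    exact this
  let i' : A →ₗ[A] Y := LinearMap.codRestrict Y (LinearMap.inl A X _ ∘ₗ i) (fun a => by
    rw [hY]
    show p (i a) = φ 0
    rw [hpi, map_zero])
  let p' : Y →ₗ[A] M ⊗[R] (M →ₗ[R] R) := LinearMap.snd A X _ ∘ₗ Y.subtype
  obtain ⟨s, hs⟩ := h Y i' p' (by
      intro a b hab
      exact hi (congrArg (fun y : Y => (y : X × (M ⊗[R] (M →ₗ[R] R))).1) hab))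
    (by
      intro q
      obtain ⟨x, hx⟩ := hp (φ q)
      exact ⟨⟨(x, q), (hY _).2 hx⟩, rfl⟩)
    (by
      ext y
      rw [LinearMap.mem_range, LinearMap.mem_ker]
      constructor
      · rintro ⟨a, rfl⟩; rfl
      · intro hy
        obtain ⟨⟨x, q⟩, hxq⟩ := y
        have hq : q = 0 := hy
        subst hq
        have : x ∈ LinearMap.ker p := by
          have := (hY _).1 hxq
          rw [LinearMap.mem_ker]
          simpa using this
        rw [← hip] at this
        obtain ⟨a, rfl⟩ := this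
        exact ⟨a, rfl⟩)
  let g : M ⊗[R] (M →ₗ[R] R) →ₗ[A] X := LinearMap.fst A X _ ∘ₗ Y.subtype ∘ₗ s
  have hg : ∀ q, p (g q) = φ q := by
    intro q
    have h3 := (hY (s q : X × (M ⊗[R] (M →ₗ[R] R)))).1 (s q).2
    have h4 : (s q : X × (M ⊗[R] (M →ₗ[R] R))).2 = q := LinearMap.congr_fun hs q
    rw [h4] at h3
    exact h3
  have hker : ∀ q, φ q = 0 → g q = 0 := by
    intro q hq
    have h3 : g q ∈ LinearMap.ker p := by rw [LinearMap.mem_ker, hg, hq]
    rw [← hip] at h3
    obtain ⟨a, ha⟩ := h3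
    have h4 : i (x₁ • a) = 0 := by
      rw [map_smul, ha, ← map_smul, k1 q hq, map_zero]
    have h5 : x₁ • a = 0 := hi (by rw [h4, map_zero])
    rw [← ha, a1 a h5, map_zero]
  have hX1 : ∀ w : X, x₁ • w = 0 → w = 0 := by
    intro w hw
    have h3 : p w = 0 := e1 _ (by rw [← map_smul, hw, map_zero])
    have h4 : w ∈ LinearMap.range i := by rw [hip]; exact h3
    obtain ⟨a, rfl⟩ := h4
    rw [a1 a (hi (by rw [map_smul, hw, map_zero])), map_zero]
  have hX2 : ∀ w v : X, x₂ • w = x₁ • v → ∃ n : X, w = x₁ • n := by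
    intro w v hwv
    obtain ⟨e, he⟩ := e2 (p w) (p v) (by rw [← map_smul, hwv, map_smul])
    obtain ⟨w0, hw0⟩ := hp e
    have h3 : w - x₁ • w0 ∈ LinearMap.ker p := by
      rw [LinearMap.mem_ker, map_sub, map_smul, hw0, he, sub_self]
    rw [← hip] at h3
    obtain ⟨a, ha⟩ := h3
    have h4 : x₁ • (v - x₂ • w0) = i (x₂ • a) := by
      rw [map_smul, ha, smul_sub, smul_sub, hwv, smul_comm x₁ x₂ w0]
    have h5 : p (v - x₂ • w0) = 0 := e1 _ (by rw [← map_smul, h4, hpi])
    have h6 : v - x₂ • w0 ∈ LinearMap.range i := by rw [hip]; exact h5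
    obtain ⟨a', ha'⟩ := h6
    have h7 : x₂ • a = x₁ • a' := hi (by rw [← h4, ← ha', map_smul])
    obtain ⟨b, hb⟩ := a2 _ _ h7
    refine ⟨w0 + i b, ?_⟩
    rw [smul_add, ← map_smul, ← hb, ha]
    abel
  have hXi : ∀ w w' : X, x₁ • w = x₁ • w' → w = w' := fun w w' hw =>
    sub_eq_zero.1 (hX1 _ (by rw [smul_sub, hw, sub_self]))
  have hw : ∀ e : M →ₗ[R] M, ∃ w : X, g (Q1 e) = x₁ • w := by
    intro e
    refine hX2 (g (Q1 e)) (g (Q2 e)) ?_
    rw [← map_smul, ← map_smul]
    have h3 : φ (x₂ • Q1 e - x₁ • Q2 e) = 0 := by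
      have c1 : φ (x₂ • Q1 e) = x₂ • φ (Q1 e) := φA.map_smul x₂ (Q1 e)
      have c2 : φ (x₁ • Q2 e) = x₁ • φ (Q2 e) := φA.map_smul x₁ (Q2 e)
      rw [map_sub, c1, c2, q1, q2, smul_comm, sub_self]
    have h4 := hker _ h3
    rw [map_sub, sub_eq_zero] at h4
    exact h4
  choose w hw' using hw
  have hg2 : ∀ q q' : M ⊗[R] (M →ₗ[R] R), φ q = φ q' → g q = g q' := fun q q' hqq => by
    have := hker (q - q') (by rw [map_sub, hqq, sub_self])
    rw [map_sub, sub_eq_zero] at this
    exact this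
  refine ⟨{ toFun := w, map_add' := fun e e' => ?_, map_smul' := fun a e => ?_ }, ?_⟩
  · apply hXi
    rw [smul_add, ← hw', ← hw', ← hw', ← map_add]
    apply hg2
    rw [map_add, q1, q1, q1, smul_add]
  · apply hXi
    rw [RingHom.id_apply, smul_comm, ← hw', ← hw', ← map_smul]
    apply hg2
    have c1 : φ (a • Q1 e) = a • φ (Q1 e) := φA.map_smul a (Q1 e)
    rw [c1, q1, q1, smul_comm]
  · apply LinearMap.ext
    intro e
    show p (w e) = e
    have h3 : x₁ • (p (w e) - e) = 0 := by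
      rw [smul_sub, ← map_smul, ← hw', hg, q1, sub_self]
    exact sub_eq_zero.1 (e1 _ h3)

end Pool.Agent.Lib.MP_682396_ag
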