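import Pool.Agent.Lib.MP_682396_ag.Gen.GC
import Pool.Agent.Lib.MP_682396_ag.Rigid
import Pool.Agent.Lib.MP_682396_ag.FreeOver

/-!
# If extensions of the endomorphism ring of a rigid module split, it is free
-/

set_option autoImplicit false
set_option linter.unusedSectionVars false

open Module IsLocalRing RingTheory.Sequence
open scoped Pointwise TensorProduct

universe u v w

namespace Pool.Agent.Lib.MP_682396_ag

/-- Lemma L: depth of the kernel. -/
theorem gd_kernel {A : Type u} [CommRing A] (rs : List A) (t : A) :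
    ∀ (E F H : Type u) [AddCommGroup E] [Module A E] [AddCommGroup F] [Module A F]
      [AddCommGroup H] [Module A H] (i : E →ₗ[A] F) (p : F →ₗ[A] H),
      Function.Injective i → Function.Surjective p → LinearMap.range i = LinearMap.ker p →
      IsWeaklyRegular H rs → IsWeaklyRegular F (rs ++ [t]) → IsWeaklyRegular E (rs ++ [t]) := by
  induction rs with
  | nil =>
    intro E F H _ _ _ _ _ _ i p hi _ _ _ hF
    rw [List.nil_append, isWeaklyRegular_cons_iff] at hF ⊢
    refine ⟨?_, IsWeaklyRegular.nil _ _⟩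
    intro a b hab
    apply hi
    apply hF.1
    show t • i a = t • i b
    rw [← map_smul, ← map_smul]
    exact congrArg i hab
  | cons r rs ih =>
    intro E F H _ _ _ _ _ _ i p hi hp hip hH hF
    rw [List.cons_append, isWeaklyRegular_cons_iff] at hF ⊢
    rw [isWeaklyRegular_cons_iff] at hH
    have hrE : IsSMulRegular E r := by
      intro a b hab
      apply hi
      apply hF.1
      show r • i a = r • i b
      rw [← map_smul, ← map_smul]
      exact congrArg i hab
    refine ⟨hrE, ?_⟩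
    have hpi : ∀ a, p (i a) = 0 := fun a => by
      have : i a ∈ LinearMap.ker p := hip ▸ ⟨a, rfl⟩
      exact this
    refine ih (QuotSMulTop r E) (QuotSMulTop r F) (QuotSMulTop r H)
      (QuotSMulTop.map r i) (QuotSMulTop.map r p) ?_ ?_ ?_ hH.2 hF.2
    · rw [← LinearMap.ker_eq_bot, LinearMap.ker_eq_bot']
      intro x hx
      obtain ⟨a, rfl⟩ := Submodule.Quotient.mk_surjective _ x
      have h1 : (Submodule.Quotient.mk (i a) : QuotSMulTop r F) = 0 := hx
      rw [Submodule.Quotient.mk_eq_zero, Submodule.mem_smul_pointwise_iff_exists] at h1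
      obtain ⟨f, -, hf⟩ := h1
      have h2 : r • p f = r • (0 : H) := by
        rw [smul_zero, ← map_smul, hf, hpi]
      have h3 : p f = 0 := hH.1 h2
      have h4 : f ∈ LinearMap.range i := by rw [hip]; exact h3
      obtain ⟨b, rfl⟩ := h4
      have h5 : a = r • b := hi (by rw [map_smul, hf])
      rw [Submodule.Quotient.mk_eq_zero, h5]
      exact Submodule.smul_mem_pointwise_smul _ _ _ trivial
    · intro x
      obtain ⟨a, rfl⟩ := Submodule.Quotient.mk_surjective _ x
      obtain ⟨b, rfl⟩ := hp a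
      exact ⟨Submodule.Quotient.mk b, rfl⟩
    · ext x
      obtain ⟨a, rfl⟩ := Submodule.Quotient.mk_surjective _ x
      rw [LinearMap.mem_range, LinearMap.mem_ker]
      constructor
      · rintro ⟨y, hy⟩
        obtain ⟨b, rfl⟩ := Submodule.Quotient.mk_surjective _ y
        rw [← hy]
        show (Submodule.Quotient.mk (p (i b)) : QuotSMulTop r H) = 0
        rw [hpi, Submodule.Quotient.mk_zero]
      · intro h1
        have h1' : (Submodule.Quotient.mk (p a) : QuotSMulTop r H) = 0 := h1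
        rw [Submodule.Quotient.mk_eq_zero, Submodule.mem_smul_pointwise_iff_exists] at h1'
        obtain ⟨c, -, hc⟩ := h1'
        obtain ⟨d, rfl⟩ := hp c
        have h2 : a - r • d ∈ LinearMap.ker p := by
          rw [LinearMap.mem_ker, map_sub, map_smul, hc, sub_self]
        rw [← hip] at h2
        obtain ⟨e, he⟩ := h2
        refine ⟨Submodule.Quotient.mk e, ?_⟩
        show (Submodule.Quotient.mk (i e) : QuotSMulTop r F) = Submodule.Quotient.mk a
        rw [he, Submodule.Quotient.eq]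
        have : a - r • d - a = r • (-d) := by rw [smul_neg]; abel
        rw [this]
        exact Submodule.smul_mem_pointwise_smul _ _ _ trivial

/-- extension of homomorphisms to the base ring -/
theorem gd_extend {A : Type u} [CommRing A] {E : Type u} [AddCommGroup E] [Module A E]
    (h : SplitsExt A E) {m : ℕ} (π : (Fin m → A) →ₗ[A] E) (hπ : Function.Surjective π)
    (g : LinearMap.ker π →ₗ[A] A) : ∃ H : (Fin m → A) →ₗ[A] A, ∀ ω : LinearMap.ker π,
      H ω = g ω := by
  let K : Submodule A (A × (Fin m → A)) :=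
    LinearMap.range (g.prod (-(LinearMap.ker π).subtype))
  have hK : ∀ p : A × (Fin m → A), p ∈ K ↔ ∃ ω : LinearMap.ker π, p = (g ω, -(ω : Fin m → A)) := by
    intro p
    constructor
    · rintro ⟨ω, rfl⟩; exact ⟨ω, rfl⟩
    · rintro ⟨ω, rfl⟩; exact ⟨ω, rfl⟩
  let f : A →ₗ[A] (A × (Fin m → A)) ⧸ K := K.mkQ ∘ₗ LinearMap.inl A A (Fin m → A)
  let gE : ((A × (Fin m → A)) ⧸ K) →ₗ[A] E := K.liftQ (π ∘ₗ LinearMap.snd A A (Fin m → A)) (by
    intro p hp
    obtain ⟨ω, rfl⟩ := (hK p).mp hp
    rw [LinearMap.mem_ker]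
    show π (-(ω : Fin m → A)) = 0
    rw [map_neg, ω.2, neg_zero])
  have hfi : Function.Injective f := by
    rw [← LinearMap.ker_eq_bot, LinearMap.ker_eq_bot']
    intro a ha
    have h1 : ((a, 0) : A × (Fin m → A)) ∈ K := (Submodule.Quotient.mk_eq_zero K).mp ha
    obtain ⟨ω, hω⟩ := (hK _).mp h1
    have h2 := congrArg Prod.snd hω
    have h3 := congrArg Prod.fst hω
    simp only at h2 h3
    have h4 : ω = 0 := by
      apply Subtype.ext
      have : (ω : Fin m → A) = 0 := by
        rw [← neg_eq_zero]; exact h2.symm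
      simpa using this
    rw [h3, h4, map_zero]
  have hgs : Function.Surjective gE := by
    intro a
    obtain ⟨v, rfl⟩ := hπ a
    exact ⟨K.mkQ (0, v), rfl⟩
  obtain ⟨s, hs⟩ := h _ f gE hfi hgs (by
    ext q
    obtain ⟨⟨a, v⟩, rfl⟩ := Submodule.Quotient.mk_surjective _ q
    rw [LinearMap.mem_range, LinearMap.mem_ker]
    constructor
    · rintro ⟨b, hb⟩
      rw [← hb]
      show π 0 = 0
      exact map_zero π
    · intro hv
      have hv' : π v = 0 := hv
      refine ⟨a + g ⟨v, hv'⟩, ?_⟩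
      show (Submodule.Quotient.mk (a + g ⟨v, hv'⟩, 0) : (A × (Fin m → A)) ⧸ K) = _
      rw [Submodule.Quotient.eq, hK]
      refine ⟨⟨v, hv'⟩, ?_⟩
      ext <;> simp)
  have hs' : ∀ a, gE (s a) = a := fun a => LinearMap.congr_fun hs a
  let e := LinearEquiv.ofInjective f hfi
  have hrange : ∀ q, q - s (gE q) ∈ LinearMap.range f := by
    intro q
    obtain ⟨⟨a, v⟩, hav⟩ := Submodule.Quotient.mk_surjective _ (q - s (gE q))
    have h1 : gE (q - s (gE q)) = 0 := by rw [map_sub, hs', sub_self]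
    rw [← hav] at h1 ⊢
    have hv' : π v = 0 := h1
    refine ⟨a + g ⟨v, hv'⟩, ?_⟩
    show (Submodule.Quotient.mk (a + g ⟨v, hv'⟩, 0) : (A × (Fin m → A)) ⧸ K) = _
    rw [Submodule.Quotient.eq, hK]
    refine ⟨⟨v, hv'⟩, ?_⟩
    ext <;> simp
  let r : ((A × (Fin m → A)) ⧸ K) →ₗ[A] A := e.symm.toLinearMap ∘ₗ
    LinearMap.codRestrict (LinearMap.range f) (LinearMap.id - s ∘ₗ gE) hrange
  have hr : ∀ a, r (f a) = a := by
    intro a
    have h1 : gE (f a) = 0 := by
      show π 0 = 0
      exact map_zero π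
    apply e.injective
    show e (e.symm _) = e a
    rw [LinearEquiv.apply_symm_apply]
    apply Subtype.ext
    show f a - s (gE (f a)) = f a
    rw [h1, map_zero, sub_zero]
  refine ⟨r ∘ₗ K.mkQ ∘ₗ LinearMap.inr A A (Fin m → A), fun ω => ?_⟩
  have h1 : K.mkQ (LinearMap.inr A A (Fin m → A) ω) = f (g ω) := by
    show (Submodule.Quotient.mk (0, (ω : Fin m → A)) : (A × (Fin m → A)) ⧸ K) =
      Submodule.Quotient.mk (g ω, 0)
    rw [Submodule.Quotient.eq, hK]
    refine ⟨-ω, ?_⟩
    ext <;> simp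
  show r (K.mkQ (LinearMap.inr A A (Fin m → A) ω)) = g ω
  rw [h1, hr]

/-- transport of weak regularity of a pair -/
theorem gd_pack {A : Type*} [CommRing A] {M : Type*} [AddCommGroup M] [Module A M] {x₁ x₂ : A}
    (h1 : ∀ m : M, x₁ • m = 0 → m = 0)
    (h2 : ∀ m m' : M, x₂ • m = x₁ • m' → ∃ n : M, m = x₁ • n) :
    IsWeaklyRegular M [x₁, x₂] := by
  rw [isWeaklyRegular_cons_iff, isWeaklyRegular_cons_iff]
  refine ⟨?_, ?_, IsWeaklyRegular.nil _ _⟩
  · intro a b hab
    have : x₁ • (a - b) = 0 := by rw [smul_sub, sub_eq_zero]; exact hab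
    exact sub_eq_zero.1 (h1 _ this)
  · intro a b hab
    obtain ⟨a, rfl⟩ := Submodule.Quotient.mk_surjective _ a
    obtain ⟨b, rfl⟩ := Submodule.Quotient.mk_surjective _ b
    have h3 : (Submodule.Quotient.mk (x₂ • a) : QuotSMulTop x₁ M) =
      Submodule.Quotient.mk (x₂ • b) := hab
    rw [Submodule.Quotient.eq, ← smul_sub, Submodule.mem_smul_pointwise_iff_exists] at h3
    obtain ⟨c, -, hc⟩ := h3
    obtain ⟨n, hn⟩ := h2 _ _ hc.symm
    rw [Submodule.Quotient.eq, hn]
    exact Submodule.smul_mem_pointwise_smul _ _ _ trivial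

/-- GD. If extensions of the endomorphism ring of a rigid module split, it is free. -/
theorem free_end_of_splitsExt {A R : Type u} [CommRing A] [IsNoetherianRing A] [IsLocalRing A]
    [CommRing R] [Algebra A R] [Module.Finite A R] (z₁ z₂ z₃ z₄ : A)
    (hz : Ideal.ofList [z₁, z₂, z₃, z₄] = maximalIdeal A)
    (hzA : IsWeaklyRegular A [z₁, z₂, z₃, z₄])
    {M : Type u} [AddCommGroup M] [Module R M] [Module A M] [IsScalarTower A R M]
    [Module.Finite A M] [Module.Free A M]
    (hrig : ∀ (E : Type u) [AddCommGroup E] [Module R E] (f : M →ₗ[R] E) (g : E →ₗ[R] M),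
      Function.Injective f → Function.Surjective g →
      LinearMap.range f = LinearMap.ker g → ∃ s : M →ₗ[R] E, g ∘ₗ s = LinearMap.id)
    (h : SplitsExt A (M →ₗ[R] M)) : Module.Free A (M →ₗ[R] M) := by
  have hMR : Module.Finite R M := Module.Finite.of_restrictScalars_finite A R M
  obtain ⟨m, π, hπ⟩ := Module.Finite.exists_fin' R M
  -- regularity on free modules
  have hfree : ∀ (F : Type u) [AddCommGroup F] [Module A F] [Module.Free A F],
      ∀ rs : List A, IsWeaklyRegular A rs → IsWeaklyRegular F rs := by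
    intro F _ _ _ rs hrs
    have h1 : IsWeaklyRegular (F ⊗[A] A) rs := IsWeaklyRegular.isWeaklyRegular_lTensor hrs
    exact ((TensorProduct.rid A F).isWeaklyRegular_congr rs).1 h1
  have hz3 : IsWeaklyRegular A [z₁, z₂, z₃] := by
    have : [z₁, z₂, z₃, z₄] = [z₁, z₂, z₃] ++ [z₄] := rfl
    rw [this, isWeaklyRegular_append_iff] at hzA
    exact hzA.1
  obtain ⟨m1, m2⟩ := gc_unpack (hfree M _ hzA)
  let eF : (Fin m → M) ≃ₗ[A] ((Fin m → R) →ₗ[R] M) := (Pi.basisFun R (Fin m)).constr A
  have hFfree : Module.Free A ((Fin m → R) →ₗ[R] M) := Module.Free.of_equiv eF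
  have hFfin : Module.Finite A ((Fin m → R) →ₗ[R] M) := Module.Finite.equiv eF
  let i : (M →ₗ[R] M) →ₗ[A] ((Fin m → R) →ₗ[R] M) :=
    { toFun := fun e => e ∘ₗ π
      map_add' := fun e e' => LinearMap.add_comp _ _ _
      map_smul' := fun a e => LinearMap.smul_comp _ _ _ }
  let p : ((Fin m → R) →ₗ[R] M) →ₗ[A] (LinearMap.ker π →ₗ[R] M) :=
    { toFun := fun g => g ∘ₗ (LinearMap.ker π).subtype
      map_add' := fun e e' => LinearMap.add_comp _ _ _
      map_smul' := fun a e => LinearMap.smul_comp _ _ _ }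
  have hi : Function.Injective i := by
    intro e e' he
    apply LinearMap.ext
    intro y
    obtain ⟨v, rfl⟩ := hπ y
    exact LinearMap.congr_fun (f := e ∘ₗ π) (g := e' ∘ₗ π) he v
  have hp : Function.Surjective p := by
    intro g
    obtain ⟨H, hH⟩ := extend_of_rigid hrig π hπ g
    exact ⟨H, LinearMap.ext hH⟩
  have hip : LinearMap.range i = LinearMap.ker p := by
    ext g
    rw [LinearMap.mem_range, LinearMap.mem_ker]
    constructor
    · rintro ⟨e, rfl⟩
      apply LinearMap.ext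
      rintro ⟨v, hv⟩
      show e (π v) = 0
      rw [LinearMap.mem_ker.1 hv, map_zero]
    · intro hg
      have hle : LinearMap.ker π ≤ LinearMap.ker g := by
        intro v hv
        exact LinearMap.congr_fun (f := g ∘ₗ (LinearMap.ker π).subtype)
          (g := (0 : LinearMap.ker π →ₗ[R] M)) hg ⟨v, hv⟩
      refine ⟨(LinearMap.ker π).liftQ g hle ∘ₗ (π.quotKerEquivOfSurjective hπ).symm.toLinearMap,
        ?_⟩
      apply LinearMap.ext
      intro v
      show (LinearMap.ker π).liftQ g hle ((π.quotKerEquivOfSurjective hπ).symm (π v)) = g v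
      have : (π.quotKerEquivOfSurjective hπ).symm (π v) = Submodule.Quotient.mk v := by
        rw [LinearEquiv.symm_apply_eq]
        rfl
      rw [this]
      rfl
  have hH2 : IsWeaklyRegular (LinearMap.ker π →ₗ[R] M) [z₁, z₂] := by
    obtain ⟨e1, e2⟩ := gc_hom (R := R) (N := LinearMap.ker π) m1 m2
    exact gd_pack e1 e2
  have hE3 : IsWeaklyRegular (M →ₗ[R] M) ([z₁, z₂] ++ [z₃]) :=
    gd_kernel [z₁, z₂] z₃ _ _ _ i p hi hp hip hH2 (hfree _ _ hz3)
  have hEfin : Module.Finite A (M →ₗ[R] M) := Module.Finite.of_injective i hi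
  obtain ⟨k, ρ, hρ⟩ := Module.Finite.exists_fin' A (M →ₗ[R] M)
  have hG : IsWeaklyRegular (LinearMap.ker ρ) ([z₁, z₂, z₃] ++ [z₄]) :=
    gd_kernel [z₁, z₂, z₃] z₄ _ _ _ (LinearMap.ker ρ).subtype ρ (Submodule.subtype_injective _) hρ
      (Submodule.range_subtype _) hE3 (hfree _ _ hzA)
  have hGfree : Module.Free A (LinearMap.ker ρ) :=
    free_of_isWeaklyRegular 4 A (LinearMap.ker ρ) [z₁, z₂, z₃, z₄] rfl hz hG
  let b := Module.Free.chooseBasis A (LinearMap.ker ρ)
  have hext := fun j => gd_extend h ρ hρ (b.coord j)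
  choose H hH using hext
  let ψ : (Fin k → A) →ₗ[A] LinearMap.ker ρ := ∑ j, (H j).smulRight (b j)
  have hψ : ∀ ω : LinearMap.ker ρ, ψ ω = ω := by
    intro ω
    show (∑ j, (H j).smulRight (b j)) (ω : Fin k → A) = ω
    rw [LinearMap.sum_apply]
    conv_rhs => rw [← b.sum_repr ω]
    refine Finset.sum_congr rfl fun j _ => ?_
    rw [LinearMap.smulRight_apply, hH]
    rfl
  let σ : (Fin k → A) →ₗ[A] (Fin k → A) := LinearMap.id - (LinearMap.ker ρ).subtype ∘ₗ ψ
  have hσ : LinearMap.ker ρ ≤ LinearMap.ker σ := by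
    intro v hv
    rw [LinearMap.mem_ker]
    show v - ((ψ v : LinearMap.ker ρ) : Fin k → A) = 0
    have := hψ ⟨v, hv⟩
    have h2 : ψ v = ⟨v, hv⟩ := this
    rw [h2, sub_self]
  let τ : (M →ₗ[R] M) →ₗ[A] (Fin k → A) :=
    (LinearMap.ker ρ).liftQ σ hσ ∘ₗ (ρ.quotKerEquivOfSurjective hρ).symm.toLinearMap
  have hτ : ρ ∘ₗ τ = LinearMap.id := by
    apply LinearMap.ext
    intro e
    obtain ⟨v, rfl⟩ := hρ e
    have : (ρ.quotKerEquivOfSurjective hρ).symm (ρ v) = Submodule.Quotient.mk v := by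
      rw [LinearEquiv.symm_apply_eq]
      rfl
    show ρ ((LinearMap.ker ρ).liftQ σ hσ ((ρ.quotKerEquivOfSurjective hρ).symm (ρ v))) = ρ v
    rw [this]
    show ρ (v - ((ψ v : LinearMap.ker ρ) : Fin k → A)) = ρ v
    rw [map_sub, (ψ v).2, sub_zero]
  have hproj : Module.Projective A (M →ₗ[R] M) := Module.Projective.of_split τ ρ hτ
  have : Module.FinitePresentation A (M →ₗ[R] M) := Module.finitePresentation_of_finite A _
  exact Module.free_of_flat_of_isLocalRing

end Pool.Agent.Lib.MP_682396_ag
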