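import Pool.Agent.Lib.MP_682396_ag.Gen.SeqGen
import Pool.Agent.Lib.MP_682396_ag.Gen.GA
import Pool.Agent.Lib.MP_682396_ag.Gen.GB
import Pool.Agent.Lib.MP_682396_ag.Gen.GC
import Pool.Agent.Lib.MP_682396_ag.Gen.GD

/-!
# Endomorphism rings of rigid modules over Gorenstein rings of dimension four
-/

set_option autoImplicit false
set_option linter.unusedSectionVars false

open Module IsLocalRing RingTheory.Sequence
open scoped Pointwise TensorProduct

universe u v

namespace Pool.Agent.Lib.MP_682396_ag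

open Tw

/-- Weak regularity passes to retracts. -/
theorem isWeaklyRegular_of_retract {A : Type*} [CommRing A] {N L : Type*} [AddCommGroup N]
    [Module A N] [AddCommGroup L] [Module A L] (i : N →ₗ[A] L) (p : L →ₗ[A] N)
    (hpi : ∀ y, p (i y) = y) {zs : List A} (h : IsWeaklyRegular L zs) : IsWeaklyRegular N zs := by
  refine ⟨fun j hj => ?_⟩
  have h1 := h.regular_mod_prev j hj
  let I : Ideal A := Ideal.ofList (zs.take j)
  have hmap : ∀ y ∈ (I • ⊤ : Submodule A N), i y ∈ (I • ⊤ : Submodule A L) := by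
    intro y hy
    have h2 : (I • ⊤ : Submodule A N).map i ≤ (I • ⊤ : Submodule A L) := by
      rw [Submodule.map_smul'']
      exact smul_mono_right _ le_top
    exact h2 (Submodule.mem_map_of_mem hy)
  have hmap' : ∀ y ∈ (I • ⊤ : Submodule A L), p y ∈ (I • ⊤ : Submodule A N) := by
    intro y hy
    have h2 : (I • ⊤ : Submodule A L).map p ≤ (I • ⊤ : Submodule A N) := by
      rw [Submodule.map_smul'']
      exact smul_mono_right _ le_top
    exact h2 (Submodule.mem_map_of_mem hy)
  let f : (N ⧸ (I • ⊤ : Submodule A N)) →ₗ[A] (L ⧸ (I • ⊤ : Submodule A L)) :=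
    Submodule.mapQ _ _ i hmap
  have hf : Function.Injective f := by
    rw [← LinearMap.ker_eq_bot, LinearMap.ker_eq_bot']
    intro y hy
    obtain ⟨y, rfl⟩ := Submodule.Quotient.mk_surjective _ y
    have h2 : i y ∈ (I • ⊤ : Submodule A L) := (Submodule.Quotient.mk_eq_zero _).mp hy
    have h3 := hmap' _ h2
    rw [hpi] at h3
    exact (Submodule.Quotient.mk_eq_zero _).mpr h3
  intro a c hac
  apply hf
  apply h1
  show zs[j] • f a = zs[j] • f c
  rw [← map_smul, ← map_smul]
  exact congrArg f hac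

/-- A flat module inherits weakly regular sequences of the ring. -/
theorem isWeaklyRegular_of_flat {A : Type*} [CommRing A] {N : Type*} [AddCommGroup N]
    [Module A N] [Module.Flat A N] {zs : List A} (h : IsWeaklyRegular A zs) :
    IsWeaklyRegular N zs := by
  have h1 : IsWeaklyRegular (N ⊗[A] A) zs := h.isWeaklyRegular_lTensor
  exact ((TensorProduct.rid A N).isWeaklyRegular_congr zs).mp h1

/-- A regular base for a system of parameters. -/
theorem exists_base {R : Type u} [CommRing R] [IsNoetherianRing R] [IsLocalRing R]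
    [IsAdicComplete (maximalIdeal R) R]
    (hsec : ∃ σ : ResidueField R →+* R, ∀ y, residue R (σ y) = y) {n : ℕ} (y : Fin n → R)
    (hy : ∀ l, y l ∈ maximalIdeal R)
    (hrad : maximalIdeal R ≤ (Ideal.span (Set.range y)).radical) :
    ∃ (A : Type u) (_ : CommRing A) (_ : IsNoetherianRing A) (_ : IsLocalRing A)
      (_ : Algebra A R) (_ : Module.Finite A R) (z : Fin n → A),
      (∀ l, algebraMap A R (z l) = y l) ∧ Ideal.ofList (List.ofFn z) = maximalIdeal A := by
  obtain ⟨σ, hσ⟩ := hsec
  let _ : Algebra (ResidueField R) R := σ.toAlgebra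
  obtain ⟨_, _, hX, hfin⟩ := exists_algebra_of_section (R := R) hσ y hy hrad
  exact ⟨MvPowerSeries (Fin n) (ResidueField R), inferInstance, inferInstance, inferInstance, _,
    hfin, MvPowerSeries.X, hX, ofList_X⟩

/-- Over a ring of dimension four all of whose parameter ideals are irreducible, with singular
locus of dimension at most two, endomorphism rings of rigid modules of maximal depth have maximal
depth. -/
theorem hasDepth_end_of_irred {R : Type u} [CommRing R] [IsDomain R] [IsNoetherianRing R]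
    [IsLocalRing R] [IsAdicComplete (maximalIdeal R) R]
    (hsec : ∃ σ : ResidueField R →+* R, ∀ y, residue R (σ y) = y)
    (hd : (maximalIdeal R).height = ((2 + 2 : ℕ) : ℕ∞))
    (hJ : ∀ P : Ideal R, P.IsPrime → (∀ z : R, (∀ (M : Type u) [AddCommGroup M] [Module R M]
      [Module.Finite R M], HasDepth R (2 + 2) M → StabAnn z M) → z ∈ P) →
      ringKrullDim (R ⧸ P) ≤ ((2 : ℕ) : WithBot ℕ∞))
    (hR : HasDepth R (2 + 2) R)
    (hirr : ∀ rs : List R, rs.length = 4 → (∀ r ∈ rs, r ∈ maximalIdeal R) →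
      maximalIdeal R ≤ (Ideal.ofList rs).radical → InfIrred (Ideal.ofList rs))
    {M : Type u} [AddCommGroup M] [Module R M] [Module.Finite R M] (hM : HasDepth R (2 + 2) M)
    (hrig : ∀ (E : Type u) [AddCommGroup E] [Module R E] (f : M →ₗ[R] E) (g : E →ₗ[R] M),
      Function.Injective f → Function.Surjective g →
      LinearMap.range f = LinearMap.ker g → ∃ s : M →ₗ[R] E, g ∘ₗ s = LinearMap.id) :
    HasDepth R (2 + 2) (M →ₗ[R] M) := by
  let J : Ideal R :=
    { carrier := {z | ∀ (M : Type u) [AddCommGroup M] [Module R M] [Module.Finite R M],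
        HasDepth R (2 + 2) M → StabAnn z M}
      zero_mem' := fun M _ _ _ _ => StabAnn.zero
      add_mem' := fun {a b} ha hb M _ _ _ hM => (ha M hM).add (hb M hM)
      smul_mem' := fun c z hz M _ _ _ hM => (hz M hM).smul c }
  obtain ⟨x, f, hxJ, hfm, hrad⟩ := exists_params_dim hd J (fun P hP hJP => hJ P hP hJP)
  have hx : ∀ l, x l ∈ maximalIdeal R := fun l => (hxJ l).2
  have hst : ∀ l, StabAnn (x l) M := fun l => (hxJ l).1 M hM
  let y : Fin 4 → R := ![x 0, x 1, f 0, f 1]
  have hyl : List.ofFn y = [x 0, x 1, f 0, f 1] := rfl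
  have hlistm : ∀ y ∈ [x 0, x 1, f 0, f 1], y ∈ maximalIdeal R := by
    intro y hy
    simp only [List.mem_cons, List.not_mem_nil, or_false] at hy
    rcases hy with rfl | rfl | rfl | rfl
    · exact hx 0
    · exact hx 1
    · exact hfm 0
    · exact hfm 1
  have hlistrad : maximalIdeal R ≤ (Ideal.ofList [x 0, x 1, f 0, f 1]).radical := by
    refine hrad.trans (Ideal.radical_mono (sup_le ?_ ?_))
    · rw [Ideal.span_le]
      rintro _ ⟨l, rfl⟩
      apply Ideal.subset_span
      show x l ∈ [x 0, x 1, f 0, f 1]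
      fin_cases l <;> simp
    · rw [Ideal.span_le]
      rintro _ ⟨l, rfl⟩
      apply Ideal.subset_span
      show f l ∈ [x 0, x 1, f 0, f 1]
      fin_cases l <;> simp
  obtain ⟨A, _, _, _, _, hfinA, z, hz, hmax⟩ := exists_base hsec y (fun l => by
    apply hlistm
    rw [← hyl, List.mem_ofFn]
    exact ⟨l, rfl⟩) (by
    rw [← ofList_ofFn, hyl]
    exact hlistrad)
  let _ : Module A M := Module.compHom M (algebraMap A R)
  have _ : IsScalarTower A R M := IsScalarTower.of_algebraMap_smul fun _ _ => rfl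
  have hMfin : Module.Finite A M := Module.Finite.trans R M
  let z₁ : A := z 0
  let z₂ : A := z 1
  let z₃ : A := z 2
  let z₄ : A := z 3
  have e₁ : algebraMap A R z₁ = x 0 := hz 0
  have e₂ : algebraMap A R z₂ = x 1 := hz 1
  have e₃ : algebraMap A R z₃ = f 0 := hz 2
  have e₄ : algebraMap A R z₄ = f 1 := hz 3
  have hmax : Ideal.ofList [z₁, z₂, z₃, z₄] = maximalIdeal A := hmax
  have hzlist : [x 0, x 1, f 0, f 1] = [z₁, z₂, z₃, z₄].map (algebraMap A R) := by
    simp only [List.map_cons, List.map_nil, e₁, e₂, e₃, e₄]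
  have hRreg : IsWeaklyRegular R [x 0, x 1, f 0, f 1] := by
    obtain ⟨rs, hmem, hreg, hlen⟩ := hR
    exact isWeaklyRegular_of_sop _ R rs (by rw [hlen]; rfl) hmem hreg hlistm
      (hlistrad.trans (Ideal.radical_mono le_sup_right))
  have hRregA : IsWeaklyRegular R [z₁, z₂, z₃, z₄] := by
    rw [hzlist, isWeaklyRegular_map_algebraMap_iff] at hRreg
    exact hRreg
  have hRfree : Module.Free A R := free_of_isWeaklyRegular 4 A R _ rfl hmax hRregA
  have hMregA : IsWeaklyRegular M [z₁, z₂, z₃, z₄] := by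
    obtain ⟨rs, hmem, hreg, hlen⟩ := hM
    rw [← isWeaklyRegular_map_algebraMap_iff R M, ← hzlist]
    exact isWeaklyRegular_of_sop _ M rs (by rw [hlen]; rfl) hmem hreg hlistm
      (hlistrad.trans (Ideal.radical_mono le_sup_right))
  have hMfree : Module.Free A M := free_of_isWeaklyRegular 4 A M _ rfl hmax hMregA
  have hAreg : IsWeaklyRegular A [z₁, z₂, z₃, z₄] := by
    let bR := Module.Free.chooseBasis A R
    obtain ⟨i⟩ : Nonempty (Module.Free.ChooseBasisIndex A R) := by
      by_contra hcon
      rw [not_nonempty_iff] at hcon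
      have h1 : Subsingleton R := bR.repr.toEquiv.subsingleton
      exact not_subsingleton R h1
    refine isWeaklyRegular_of_retract (LinearMap.toSpanSingleton A R (bR i)) (bR.coord i) ?_ hRregA
    intro y
    rw [LinearMap.toSpanSingleton_apply, map_smul, Basis.coord_apply, Basis.repr_self,
      Finsupp.single_eq_same, smul_eq_mul, mul_one]
  have hAirr : InfIrred ((maximalIdeal A).map (algebraMap A R)) := by
    rw [← hmax, Ideal.map_ofList, ← hzlist]
    exact hirr _ rfl hlistm hlistrad
  have hloc : (maximalIdeal A).map (algebraMap A R) ≤ maximalIdeal R := by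
    rw [← hmax, Ideal.map_ofList, ← hzlist, Ideal.ofList, Ideal.span_le]
    exact hlistm
  obtain ⟨t, ht⟩ := exists_dual_generator hloc hAirr
  have h12A : IsWeaklyRegular A [z₁, z₂] := by
    have h1 : [z₁, z₂, z₃, z₄] = [z₁, z₂] ++ [z₃, z₄] := rfl
    rw [h1] at hAreg
    exact ((isWeaklyRegular_append_iff A _ _).mp hAreg).1
  have hsplit := splitsExt_end z₁ z₂ (by rw [e₁]; exact hst 0) (by rw [e₂]; exact hst 1) h12A
    (isWeaklyRegular_of_flat h12A) (splitsExt_tensor t ht hrig)
  have hfree : Module.Free A (M →ₗ[R] M) :=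
    free_end_of_splitsExt z₁ z₂ z₃ z₄ hmax hAreg hrig hsplit
  refine ⟨[x 0, x 1, f 0, f 1], hlistm, ?_, rfl⟩
  rw [hzlist, isWeaklyRegular_map_algebraMap_iff]
  exact isWeaklyRegular_of_flat hAreg

end Pool.Agent.Lib.MP_682396_ag
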