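import Pool.Agent.Lib.MP_682396_ag.Classes
import Pool.Agent.Lib.MP_682396_ag.Gen.Gor
import Pool.Agent.Lib.MP_682396_ag.CharP.P4

/-!
# Finiteness of classes of rigid modules of bounded rank
-/

set_option autoImplicit false
set_option linter.unusedSectionVars false

open Module IsLocalRing RingTheory.Sequence CategoryTheory CategoryTheory.Abelian
open scoped Pointwise

universe u

namespace Pool.Agent.Lib.MP_682396_ag

section Equiv

variable {R : Type u} [CommRing R] {M M' : Type u} [AddCommGroup M] [Module R M]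
  [AddCommGroup M'] [Module R M']

theorem ext_subsingleton_of_equiv (e : M ≃ₗ[R] M') {k : ℕ}
    (h : Subsingleton (Ext (ModuleCat.of R M) (ModuleCat.of R M) k)) :
    Subsingleton (Ext (ModuleCat.of R M') (ModuleCat.of R M') k) := by
  let i : ModuleCat.of R M ≅ ModuleCat.of R M' := e.toModuleIso
  refine ⟨fun x y => ?_⟩
  have key : ∀ x : Ext (ModuleCat.of R M') (ModuleCat.of R M') k, x = 0 := by
    intro x
    have h1 : ((Ext.mk₀ i.hom).comp x (zero_add k)).comp (Ext.mk₀ i.inv) (add_zero k) = 0 :=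
      Subsingleton.elim _ _
    have h2 : (Ext.mk₀ i.inv).comp
        ((((Ext.mk₀ i.hom).comp x (zero_add k)).comp (Ext.mk₀ i.inv) (add_zero k)).comp
          (Ext.mk₀ i.hom) (add_zero k)) (zero_add k) = x := by
      rw [Ext.comp_assoc_of_third_deg_zero, Ext.mk₀_comp_mk₀, i.inv_hom_id, Ext.comp_mk₀_id,
        Ext.mk₀_comp_mk₀_assoc, i.inv_hom_id, Ext.mk₀_id_comp]
    rw [← h2, h1, Ext.zero_comp, Ext.comp_zero]
  rw [key x, key y]

variable [IsLocalRing R]

theorem HasDepth.of_equiv (e : M ≃ₗ[R] M') {d : ℕ} (h : HasDepth R d M) : HasDepth R d M' := by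
  obtain ⟨rs, hrs, hreg, hlen⟩ := h
  exact ⟨rs, hrs, (e.isWeaklyRegular_congr rs).mp hreg, hlen⟩

theorem HasDepth.mono {d d' : ℕ} (hd : d' ≤ d) (h : HasDepth R d M) : HasDepth R d' M := by
  obtain ⟨rs, hrs, hreg, hlen⟩ := h
  refine ⟨rs.take d', fun r hr => hrs r (List.mem_of_mem_take hr), ?_, ?_⟩
  · have h1 : rs = rs.take d' ++ rs.drop d' := (List.take_append_drop _ _).symm
    rw [h1] at hreg
    exact ((isWeaklyRegular_append_iff M _ _).mp hreg).1
  · rw [List.length_take, hlen]
    exact min_eq_left hd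

end Equiv

/-- The conditions under which finiteness is proved. -/
def Cond (R : Type u) [CommRing R] [IsLocalRing R] (s : ℕ) (M : Type u) [AddCommGroup M]
    [Module R M] : Prop :=
  s ≤ 1 ∨ HasDepth R (s + 2) (M →ₗ[R] M) ∨ (∀ k, 1 ≤ k → k ≤ s →
      Subsingleton (Ext (ModuleCat.of R M) (ModuleCat.of R M) k))

theorem Cond.of_equiv {R : Type u} [CommRing R] [IsLocalRing R] {s : ℕ} {M M' : Type u}
    [AddCommGroup M] [Module R M] [AddCommGroup M'] [Module R M'] (e : M ≃ₗ[R] M')
    (h : Cond R s M) : Cond R s M' := by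
  rcases h with h | h | h
  · exact Or.inl h
  · exact Or.inr (Or.inl (h.of_equiv (LinearEquiv.congrRight e ≪≫ₗ LinearEquiv.congrLeft M' R e)))
  · exact Or.inr (Or.inr fun k h1 h2 => ext_subsingleton_of_equiv e (h k h1 h2))

/-- Finiteness of classes. -/
theorem finite_core {R : Type u} [CommRing R] [IsDomain R] [IsNoetherianRing R]
    [IsLocalRing R] [IsAdicComplete (maximalIdeal R) R]
    (hsec : ∃ σ : ResidueField R →+* R, ∀ y, residue R (σ y) = y) {d s : ℕ}
    (hd : (maximalIdeal R).height = ((d + s : ℕ) : ℕ∞))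
    (hJ : ∀ P : Ideal R, P.IsPrime → (∀ z : R, (∀ (M : Type u) [AddCommGroup M] [Module R M]
      [Module.Finite R M], HasDepth R (d + s) M → StabAnn z M) → z ∈ P) →
      ringKrullDim (R ⧸ P) ≤ (s : WithBot ℕ∞)) (N : ℕ) :
    ∃ S : Set (Σ k : ℕ, Submodule R (Fin k → R)), S.Finite ∧
      ∀ (M : Type u) [AddCommGroup M] [Module R M], Module.Finite R M → IsTorsionFree R M →
        HasDepth R (d + s) M →
        (∀ (E : Type u) [AddCommGroup E] [Module R E] (f : M →ₗ[R] E) (g : E →ₗ[R] M),
              Function.Injective f → Function.Surjective g →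
              LinearMap.range f = LinearMap.ker g →
              ∃ s : M →ₗ[R] E, g ∘ₗ s = LinearMap.id) →
        Cond R s M → Module.finrank R M ≤ N →
        ∃ p ∈ S, Nonempty (M ≃ₗ[R] (Fin p.1 → R) ⧸ p.2) := by
  -- the relation of isomorphism on quotients of finite free modules
  let st : Setoid (Σ k : ℕ, Submodule R (Fin k → R)) :=
    { r := fun p q => Nonempty (((Fin p.1 → R) ⧸ p.2) ≃ₗ[R] (Fin q.1 → R) ⧸ q.2)
      iseqv := ⟨fun p => ⟨LinearEquiv.refl _ _⟩, fun ⟨e⟩ => ⟨e.symm⟩,
        fun ⟨e⟩ ⟨e'⟩ => ⟨e.trans e'⟩⟩ }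
  obtain ⟨S, hS, hSr⟩ := exists_finite_repr st
    (fun p => IsTorsionFree R ((Fin p.1 → R) ⧸ p.2) ∧ finrank R ((Fin p.1 → R) ⧸ p.2) ≤ N ∧
      HasDepth R (d + s) ((Fin p.1 → R) ⧸ p.2) ∧ Cond R s ((Fin p.1 → R) ⧸ p.2) ∧
      ∀ (E : Type u) [AddCommGroup E] [Module R E] (f : ((Fin p.1 → R) ⧸ p.2) →ₗ[R] E)
        (g : E →ₗ[R] ((Fin p.1 → R) ⧸ p.2)),
        Function.Injective f → Function.Surjective g → LinearMap.range f = LinearMap.ker g →
          ∃ s : ((Fin p.1 → R) ⧸ p.2) →ₗ[R] E, g ∘ₗ s = LinearMap.id) (by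
    intro p hp
    -- infinitely many have the same rank
    obtain ⟨n, hn⟩ := Finite.exists_infinite_fiber
      (fun i : ℕ => (⟨finrank R ((Fin (p i).1 → R) ⧸ (p i).2),
        Nat.lt_succ_of_le (hp i).2.1⟩ : Fin (N + 1)))
    let f := Infinite.natEmbedding ((fun i : ℕ => (⟨finrank R ((Fin (p i).1 → R) ⧸ (p i).2),
        Nat.lt_succ_of_le (hp i).2.1⟩ : Fin (N + 1))) ⁻¹' {n})
    have hf : ∀ i, finrank R ((Fin (p (f i)).1 → R) ⧸ (p (f i)).2) = n := by
      intro i
      have h1 := (f i).2
      rw [Set.mem_preimage, Set.mem_singleton_iff] at h1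
      exact congrArg Fin.val h1
    have htf : ∀ i, IsTorsionFree R ((Fin (p (f i)).1 → R) ⧸ (p (f i)).2) := fun i => (hp _).1
    obtain ⟨i, j, hij, hiso'⟩ := exists_iso_of_seq_gen hsec hd hJ
      (fun i => (Fin (p (f i)).1 → R) ⧸ (p (f i)).2) (fun i => (hp _).2.2.1) n hf
      (fun i => (hp _).2.2.2.2) (fun i => (hp _).2.2.2.1)
    exact ⟨f i, f j, fun h => hij (f.injective (Subtype.ext h)), hiso'⟩)
  refine ⟨S, hS, ?_⟩
  intro M _ _ hfin htf hMCM hrig hcond hrank
  -- a presentation
  obtain ⟨k, g, hg⟩ := Module.Finite.exists_fin' R M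
  let e : M ≃ₗ[R] ((Fin k → R) ⧸ LinearMap.ker g) := (g.quotKerEquivOfSurjective hg).symm
  have htf' : IsTorsionFree R ((Fin k → R) ⧸ LinearMap.ker g) :=
    Function.Injective.moduleIsTorsionFree e.symm e.symm.injective (fun a m => map_smul _ _ _)
  have hrank' : finrank R ((Fin k → R) ⧸ LinearMap.ker g) ≤ N := by
    rw [← e.finrank_eq]
    exact hrank
  obtain ⟨p, hpS, ⟨e'⟩⟩ := hSr ⟨k, LinearMap.ker g⟩
    ⟨htf', hrank', hMCM.of_equiv e, hcond.of_equiv e, split_of_equiv e hrig⟩
  exact ⟨p, hpS, ⟨e.trans e'⟩⟩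

section Dim

/-- The zero ideal of a domain is a regular prime. -/
theorem isRegularLocalRing_bot {R : Type u} [CommRing R] [IsDomain R] :
    IsRegularLocalRing (Localization.AtPrime (⊥ : Ideal R)) := by
  have h1 : maximalIdeal (Localization.AtPrime (⊥ : Ideal R)) = ⊥ := by
    rw [← Localization.AtPrime.map_eq_maximalIdeal, Ideal.map_bot]
  have hf : IsField (Localization.AtPrime (⊥ : Ideal R)) :=
    IsLocalRing.isField_iff_maximalIdeal_eq.mpr h1
  have hpid : IsPrincipalIdealRing (Localization.AtPrime (⊥ : Ideal R)) := by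
    let _ : Field (Localization.AtPrime (⊥ : Ideal R)) := hf.toField
    infer_instance
  have hdom : IsDomain (Localization.AtPrime (⊥ : Ideal R)) := hf.isDomain
  infer_instance

/-- The dimension drops along strict inclusions of primes. -/
theorem dim_quotient_succ_le {R : Type u} [CommRing R] {q p : Ideal R} [q.IsPrime] (h : q < p) :
    ringKrullDim (R ⧸ p) + 1 ≤ ringKrullDim (R ⧸ q) := by
  obtain ⟨y, hy, hyq⟩ := SetLike.exists_of_lt h
  have hle := h.le
  exact ringKrullDim_succ_le_of_surjective (Ideal.Quotient.factor hle)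
    (Ideal.Quotient.factor_surjective hle) (r := Ideal.Quotient.mk q y)
    (mem_nonZeroDivisors_of_ne_zero fun h0 => hyq (Ideal.Quotient.eq_zero_iff_mem.mp h0))
    (by
      rw [Ideal.Quotient.factor_mk]
      exact Ideal.Quotient.eq_zero_iff_mem.mpr hy)

/-- In dimension at most two the singular locus of a domain has dimension at most one. -/
theorem dim_quotient_le_one {R : Type u} [CommRing R] [IsDomain R] (h2 : ringKrullDim R ≤ 2)
    (p : Ideal R) [p.IsPrime] (hp : ¬ IsRegularLocalRing (Localization.AtPrime p)) :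
    ringKrullDim (R ⧸ p) ≤ 1 := by
  by_cases h0 : p = ⊥
  · subst h0
    exact absurd isRegularLocalRing_bot hp
  · have h1 := dim_quotient_succ_le (q := (⊥ : Ideal R)) (p := p) (bot_lt_iff_ne_bot.mpr h0)
    have h3 : ringKrullDim (R ⧸ p) + 1 ≤ (1 : WithBot ℕ∞) + 1 :=
      ((h1.trans (ringKrullDim_quotient_le _)).trans h2).trans (le_of_eq (by norm_num))
    exact ENat.WithBot.add_le_add_one_right_iff.mp h3

/-- The singular locus of a normal domain has codimension at least two. -/
theorem dim_quotient_add_two_le {R : Type u} [CommRing R] [IsDomain R] [IsNoetherianRing R]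
    [IsIntegrallyClosed R]
    (p : Ideal R) [p.IsPrime] (hp : ¬ IsRegularLocalRing (Localization.AtPrime p)) :
    ringKrullDim (R ⧸ p) + 1 + 1 ≤ ringKrullDim R := by
  by_cases h0 : p = ⊥
  · subst h0
    exact absurd isRegularLocalRing_bot hp
  -- there is a nonzero prime properly contained in `p`
  obtain ⟨q, hq, hq0, hqp⟩ : ∃ q : Ideal R, q.IsPrime ∧ ⊥ < q ∧ q < p := by
    by_contra hcon
    push Not at hcon
    apply hp
    let L := Localization.AtPrime p
    have hLc : IsIntegrallyClosed L :=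
      isIntegrallyClosed_of_isLocalization L p.primeCompl p.primeCompl_le_nonZeroDivisors
    have hLdom : IsDomain L := IsLocalization.isDomain_localization p.primeCompl_le_nonZeroDivisors
    have hprime : ∀ P : Ideal L, P ≠ ⊥ → P.IsPrime → P = maximalIdeal L := by
      intro P hP0 hPp
      have h1 : (P.under R).IsPrime := Ideal.IsPrime.under R P
      have h2 : ⊥ < P.under R := by
        rw [bot_lt_iff_ne_bot]
        intro h
        apply hP0
        rw [← IsLocalization.map_under p.primeCompl L P, h, Ideal.map_bot]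
      have h3 : P.under R ≤ p := by
        have h4 : P ≤ maximalIdeal L := IsLocalRing.le_maximalIdeal hPp.ne_top
        have h5 : P.under R ≤ (maximalIdeal L).under R := Ideal.comap_mono h4
        rwa [Localization.AtPrime.under_maximalIdeal] at h5
      have h4 : P.under R = p := by
        by_contra hne
        exact hcon _ h1 h2 (lt_of_le_of_ne h3 hne)
      rw [← IsLocalization.map_under p.primeCompl L P, h4,
        Localization.AtPrime.map_eq_maximalIdeal]
    have h5 : IsIntegrallyClosed L ∧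
        ∀ P : Ideal L, P ≠ ⊥ → P.IsPrime → P = maximalIdeal L := ⟨hLc, hprime⟩
    have hpid : IsPrincipalIdealRing L :=
      ((tfae_of_isNoetherianRing_of_isLocalRing_of_isDomain L).out 3 0).mp h5
    infer_instance
  have h1 := dim_quotient_succ_le (q := (⊥ : Ideal R)) (p := q) hq0
  have h2 := dim_quotient_succ_le (q := q) (p := p) hqp
  exact le_trans (add_le_add_left h2 1) (h1.trans (ringKrullDim_quotient_le _))

end Dim

end Pool.Agent.Lib.MP_682396_ag
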