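import Pool.Agent.Lib.MP_682396_ag.Gen.ExtTF

/-!
# Families over a base with a section, with the extension property as a hypothesis
-/

set_option autoImplicit false
set_option linter.unusedSectionVars false

open Module IsLocalRing
open scoped Pointwise

universe u v w

namespace Pool.Agent.Lib.MP_682396_ag

open Tw

section Family

variable {K : Type*} [CommRing K] {A : Type*} [CommRing A] [Algebra K A] {ε : A →ₐ[K] K}
  {R : Type u} [CommRing R] [Algebra K R] {Q : Type*} [Fintype Q] [DecidableEq Q] {d : ℕ}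
  {ρ : R →+* Matrix (Q × (Fin d → Fin 5)) (Q × (Fin d → Fin 5)) A} {x : Fin d → R}
  {M : Type u} [AddCommGroup M] [Module R M]

/-- Infinitesimal intertwiners. -/
theorem exists_inf_intertwinerD2 (hx : ∀ l, ρ (x l) = shiftMat A Q l)
    (hρK : ∀ (c : K) (a b : Q × (Fin d → Fin 5)), ρ (algebraMap K R c) a b =
      if a = b then algebraMap K A c else 0)
    (F : FiberD ε ρ x M) [Module.Finite R M]
    (J : Ideal A) (hJ : J ≤ RingHom.ker ε)
    (hE : ∀ {m : ℕ} (π : (Fin m → R) →ₗ[R] M), Function.Surjective π →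
      Ext32 ρ x (LinearMap.ker π) (LinearMap.ker (Submodule.factor hJ))) :
    ∃ g : Ix2 Q d → Ix2 Q d → A, (∀ a b, ε (g a b) = if a = b then 1 else 0) ∧
      ∀ (r : R) (a b : Ix2 Q d), ∑ b', ρ r a.1 b'.1 * g b' b -
        ∑ b', g a b' * algebraMap K A (ε (ρ r b'.1 b.1)) ∈ J := by
  have hε : ∀ c : K, ε (algebraMap K A c) = c := fun c => AlgHom.commutes ε c
  obtain ⟨m, π, hπ⟩ := Module.Finite.exists_fin' R M
  let q : (A ⧸ J) →ₗ[A] (A ⧸ RingHom.ker ε) := Submodule.factor hJ
  have hq : Function.Surjective q := Submodule.factor_surjective hJ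
  have hext : Ext32 ρ x (LinearMap.ker π) (LinearMap.ker q) := hE π hπ
  obtain ⟨Ψ, hΨ⟩ := exists_lift π hπ hx q hq hext (Submodule.mkQ _ ∘ₗ F.toTw)
  -- test elements
  choose mb hmb using fun b : Ix2 Q d => F.surj (Pi.single b.1 1)
  choose v hv using fun b : Ix2 Q d => Submodule.Quotient.mk_surjective _ (Ψ (mb b))
  choose g hg using fun a b : Ix2 Q d => Submodule.Quotient.mk_surjective _ (v b a.1)
  refine ⟨g, ?_, ?_⟩
  · intro a b
    have h1 := hΨ (mb b)
    rw [← hv b, mapLev_mk, LinearMap.comp_apply, Submodule.mkQ_apply] at h1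
    have h2 : map ρ q (v b) - F.toTw (mb b) ∈ lev x (Tw ρ (A ⧸ RingHom.ker ε)) fun _ => 2 :=
      (Submodule.Quotient.eq _).mp h1
    have h3 := (mem_lev_iff hx _ _).mp h2 a.1 a.2
    rw [Tw.sub_apply, map_apply, ← hg a b, F.toTw_apply, hmb b] at h3
    have h4 : g a b - algebraMap K A ((Pi.single b.1 1 : Q × (Fin d → Fin 5) → K) a.1) ∈
        RingHom.ker ε := (Submodule.Quotient.eq _).mp (sub_eq_zero.mp h3)
    rw [RingHom.mem_ker, map_sub, hε, sub_eq_zero] at h4
    rw [h4, Pi.single_apply]
    simp only [Subtype.ext_iff]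
  · intro r a b
    -- the relation in `M`
    have hsm : ∀ (c : K) (y : M) (a' : Q × (Fin d → Fin 5)),
        F.θ (algebraMap K R c • y) a' = c * F.θ y a' := by
      intro c y a'
      rw [F.smul, Finset.sum_eq_single a']
      · rw [hρK, if_pos rfl, hε]
      · intro b' _ hb'
        rw [hρK, if_neg (Ne.symm hb'), map_zero, zero_mul]
      · intro h
        exact absurd (Finset.mem_univ _) h
    have h1 : r • mb b - ∑ b' : Ix2 Q d, algebraMap K R (ε (ρ r b'.1 b.1)) • mb b' ∈
        lev x M fun _ => 2 := by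
      rw [F.comap_lev (c := fun _ => 2) (fun _ => by norm_num), Submodule.mem_comap,
        mem_lev_iff hx]
      intro a' ha'
      rw [F.toTw_apply]
      have h2 : F.θ (r • mb b - ∑ b' : Ix2 Q d, algebraMap K R (ε (ρ r b'.1 b.1)) • mb b') a' =
          0 := by
        rw [map_sub, map_sum, Pi.sub_apply, Finset.sum_apply, F.smul, hmb, sub_eq_zero,
          Finset.sum_eq_single b.1, Finset.sum_eq_single ⟨a', ha'⟩]
        · rw [hsm, hmb, Pi.single_eq_same, Pi.single_eq_same]
        · intro b' _ hb'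
          rw [hsm, hmb, Pi.single_eq_of_ne, mul_zero]
          intro h
          exact hb' (Subtype.ext h.symm)
        · intro h
          exact absurd (Finset.mem_univ _) h
        · intro b' _ hb'
          rw [Pi.single_eq_of_ne hb', mul_zero]
        · intro h
          exact absurd (Finset.mem_univ _) h
      rw [h2, map_zero, map_zero]
    have h3 : Ψ (r • mb b - ∑ b' : Ix2 Q d, algebraMap K R (ε (ρ r b'.1 b.1)) • mb b') = 0 :=
      eq_zero_of_mem_lev Ψ h1
    have h4 : (Submodule.Quotient.mk (r • v b -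
        ∑ b' : Ix2 Q d, algebraMap K R (ε (ρ r b'.1 b.1)) • v b') :
        Tw ρ (A ⧸ J) ⧸ lev x _ fun _ => 2) = 0 := by
      rw [← h3, map_sub, map_sum, map_smul, ← hv b, ← Submodule.mkQ_apply, ← Submodule.mkQ_apply,
        map_sub, map_sum, map_smul]
      congr 1
      refine Finset.sum_congr rfl fun b' _ => ?_
      rw [map_smul, map_smul, ← hv b', Submodule.mkQ_apply]
    rw [Submodule.Quotient.mk_eq_zero] at h4
    have h5 := (mem_lev_iff hx _ _).mp h4 a.1 a.2
    rw [Tw.sub_apply, Tw.sum_apply, sum_block hx] at h5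
    have h6 : ∀ (c : K) (w : Tw ρ (A ⧸ J)) (a' : Q × (Fin d → Fin 5)),
        (algebraMap K R c • w) a' = algebraMap K A c • w a' := by
      intro c w a'
      rw [Tw.smul_apply, Finset.sum_eq_single a']
      · rw [hρK, if_pos rfl]
      · intro b' _ hb'
        rw [hρK, if_neg (Ne.symm hb'), zero_smul]
      · intro h
        exact absurd (Finset.mem_univ _) h
    rw [← Ideal.Quotient.eq_zero_iff_mem, map_sub, map_sum, map_sum, ← h5]
    congr 1
    · refine Finset.sum_congr rfl fun b' _ => ?_
      rw [← hg b' b, map_mul]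
      rfl
    · refine Finset.sum_congr rfl fun b' _ => ?_
      rw [h6, ← hg a b', map_mul, mul_comm]
      rfl

end Family

end Pool.Agent.Lib.MP_682396_ag
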