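import Pool.Agent.Lib.MP_682396_ag.Gen.KL
import Pool.Agent.Lib.MP_682396_ag.Curve.Inter

/-!
# Intertwiners over quotients of completions, with the extension property as hypothesis
-/

set_option autoImplicit false
set_option linter.unusedSectionVars false

open Module IsLocalRing
open scoped Pointwise

universe u v w

namespace Pool.Agent.Lib.MP_682396_ag

open Tw

section Quot

variable {D : Type*} [CommRing D] [IsDomain D] [IsNoetherianRing D]
  {A : Type*} [CommRing A] [Algebra D A] {ε : A →ₐ[D] D}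
  {R : Type u} [CommRing R] [Algebra D R] {Q : Type*} [Fintype Q] [DecidableEq Q] {d : ℕ}
  {ρ : R →+* Matrix (Q × (Fin d → Fin 5)) (Q × (Fin d → Fin 5)) A} {x : Fin d → R}
  {M : Type u} [AddCommGroup M] [Module R M]
  {S : Type*} [CommRing S] [Algebra A S] [IsLocalRing S] [IsNoetherianRing S]
  [IsAdicComplete (maximalIdeal S) S]

/-- Over the quotient of the completion by a prime contained in the kernel of the evaluation the
family is constant below level two. -/
theorem exists_intertwiner_quot2 (hx : ∀ l, ρ (x l) = shiftMat A Q l)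
    (hρD : ∀ (c : D) (a b : Q × (Fin d → Fin 5)), ρ (algebraMap D R c) a b =
      if a = b then algebraMap D A c else 0)
    (C : CoordD D Q x M) (hC : ∀ r a b, ε (ρ r a b) = C.ρ r a b)
    (σ : S →+* D) (hσ : ∀ a, σ (algebraMap A S a) = ε a) (q : Ideal S) [q.IsPrime]
    (hq : q ≤ RingHom.ker σ) [Module.Finite R M]
    (hst : ∀ l, StabAnn (x l) M) (hTF : ExtTF C)
    {n : ℕ} (r : Fin n → R) :
    ∃ g : Matrix (Ix2 Q d) (Ix2 Q d) (S ⧸ q), IsUnit g.det ∧
      ∀ (k : Fin n) (a b : Ix2 Q d),
        ∑ b', Ideal.Quotient.mk q (algebraMap A S (ρ (r k) a.1 b'.1)) * g b' b =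
        ∑ b', g a b' * Ideal.Quotient.mk q (algebraMap A S (algebraMap D A
          (C.ρ (r k) b'.1 b.1))) := by
  let _ : Algebra D S := ((algebraMap A S).comp (algebraMap D A)).toAlgebra
  have hDS : ∀ c : D, algebraMap D S c = algebraMap A S (algebraMap D A c) := fun _ => rfl
  have hloc : IsLocalRing (S ⧸ q) := IsLocalRing.of_surjective' _ Ideal.Quotient.mk_surjective
  have hcomp : IsAdicComplete (maximalIdeal (S ⧸ q)) (S ⧸ q) := isAdicComplete_quotient q
  let σ' : S →ₐ[D] D :=
    { σ with
      commutes' := fun c => by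
        show σ (algebraMap A S (algebraMap D A c)) = c
        rw [hσ]
        exact AlgHom.commutes ε c }
  have hσ' : ∀ s, σ' s = σ s := fun _ => rfl
  let εT : S ⧸ q →ₐ[D] D := Ideal.Quotient.liftₐ q σ' (fun a ha => hq ha)
  have hεT : ∀ s, εT (Ideal.Quotient.mk q s) = σ s := fun _ => rfl
  have hDT : ∀ c : D, algebraMap D (S ⧸ q) c =
    Ideal.Quotient.mk q (algebraMap A S (algebraMap D A c)) := fun _ => rfl
  let ρT : R →+* Matrix (Q × (Fin d → Fin 5)) (Q × (Fin d → Fin 5)) (S ⧸ q) :=
    (RingHom.mapMatrix ((Ideal.Quotient.mk q).comp (algebraMap A S))).comp ρ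
  have hρT : ∀ r a b, ρT r a b = Ideal.Quotient.mk q (algebraMap A S (ρ r a b)) :=
    fun _ _ _ => rfl
  have hερ : ∀ r a b, εT (ρT r a b) = C.ρ r a b := by
    intro r a b
    rw [hρT, hεT, hσ, hC]
  obtain ⟨g, hg1, hg2⟩ := exists_intertwiner_complete2 (ε := εT) (ρ := ρT) (x := x)
    (fun l => by
      ext a b
      rw [hρT, hx]
      unfold shiftMat
      split_ifs
      · rw [map_one, map_one]
      · rw [map_zero, map_zero])
    (fun c a b => by
      rw [hρT, hρD, hDT]
      split_ifs
      · rfl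
      · rw [map_zero, map_zero]) C hερ hst hTF r
  refine ⟨g, ?_, fun k a b => ?_⟩
  · have h1 : εT g.det = 1 := by
      rw [AlgHom.map_det]
      have : εT.mapMatrix g = 1 := by
        ext a b
        rw [AlgHom.mapMatrix_apply, Matrix.map_apply, hg1, Matrix.one_apply]
      rw [this, Matrix.det_one]
    by_contra hnu
    have h2 : g.det ∈ maximalIdeal (S ⧸ q) := (mem_maximalIdeal _).mpr hnu
    have h3 : 1 - g.det ∈ maximalIdeal (S ⧸ q) := by
      have h4 : RingHom.ker εT ≠ ⊤ := RingHom.ker_ne_top _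
      apply IsLocalRing.le_maximalIdeal h4
      rw [RingHom.mem_ker, map_sub, map_one, h1, sub_self]
    have h5 := add_mem h3 h2
    rw [sub_add_cancel] at h5
    exact (maximalIdeal.isMaximal (S ⧸ q)).ne_top ((Ideal.eq_top_iff_one _).mpr h5)
  · have h1 := hg2 k a b
    simp only [hερ] at h1
    simp only [hDT, hρT] at h1
    exact h1

end Quot

end Pool.Agent.Lib.MP_682396_ag
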