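import Pool.Agent.Lib.MP_682396_ag.Gen.MW

/-!
# Lifting homomorphisms to quotients by coefficient conditions
-/

set_option autoImplicit false
set_option linter.unusedSectionVars false

open Module IsLocalRing
open scoped Pointwise

universe u v w

namespace Pool.Agent.Lib.MP_682396_ag

open Tw

section LiftS

variable {D : Type*} [CommRing D] {d : ℕ} {R : Type u} [CommRing R] [Algebra D R]
  [Algebra (MvPowerSeries (Fin d) D) R] [IsScalarTower D (MvPowerSeries (Fin d) D) R]
  {M : Type u} [AddCommGroup M] [Module R M]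
  [Module (MvPowerSeries (Fin d) D) M] [IsScalarTower (MvPowerSeries (Fin d) D) R M]
  {Q : Type*} [Fintype Q] (b : Basis Q (MvPowerSeries (Fin d) D) M) {k : ℕ}

/-- Every homomorphism to the quotient lifts. -/
def LiftProp (W : Submodule D (Fin k → D)) : Prop :=
  ∀ φ : M →ₗ[R] (Fin k → M) ⧸ MW R b W, ∃ e : M →ₗ[R] (Fin k → M),
    ∀ m, Submodule.Quotient.mk (e m) = φ m

theorem liftProp_top : LiftProp (R := R) b (⊤ : Submodule D (Fin k → D)) := by
  intro φ
  refine ⟨0, fun m => ?_⟩
  obtain ⟨v, hv⟩ := Submodule.Quotient.mk_surjective _ (φ m)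
  rw [← hv, Submodule.Quotient.eq]
  intro q α
  trivial

/-- Multiplication by a vector of scalars. -/
def mulVec (R : Type u) [CommRing R] [Algebra D R] (M : Type u) [AddCommGroup M] [Module R M]
    (w : Fin k → D) : M →ₗ[R] (Fin k → M) where
  toFun m t := algebraMap D R (w t) • m
  map_add' m m' := by
    funext t
    exact smul_add _ _ _
  map_smul' r m := by
    funext t
    exact smul_comm _ _ _

theorem cf_mulVec (w : Fin k → D) (m : M) (q : Q) (α : Fin d →₀ ℕ) :
    cf b (mulVec R M w m) q α = (b.repr m q).coeff α • w := by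
  funext t
  rw [cf_apply]
  show (b.repr (algebraMap D R (w t) • m) q).coeff α = _
  rw [smul_eq_C_smul (w t) d, map_smul, Finsupp.smul_apply, smul_eq_mul,
    MvPowerSeries.coeff_C_mul, Pi.smul_apply, smul_eq_mul, mul_comm]

theorem liftProp_step [IsLocalRing D] (hFG : (maximalIdeal D).FG)
    (hθ : ∀ φ : M →ₗ[R] M ⧸ redSub (maximalIdeal D) R M, ∃ e : M →ₗ[R] M,
      ∀ m, Submodule.Quotient.mk (e m) = φ m)
    (W : Submodule D (Fin k → D)) (w : Fin k → D) (hw : w ∉ W)
    (hmw : ∀ c ∈ maximalIdeal D, c • w ∈ W)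
    (h : LiftProp (R := R) b (W ⊔ Submodule.span D {w})) : LiftProp (R := R) b W := by
  intro φ
  have hle : MW R b W ≤ MW R b (W ⊔ Submodule.span D {w}) := MW_mono b le_sup_left
  obtain ⟨e₁, he₁⟩ := h (Submodule.factor hle ∘ₗ φ)
  let ψ : M →ₗ[R] (Fin k → M) ⧸ MW R b W := φ - Submodule.mkQ _ ∘ₗ e₁
  have hψ : ∀ m, ψ m = φ m - Submodule.Quotient.mk (e₁ m) := fun _ => rfl
  have hker : redSub (maximalIdeal D) R M ≤
      LinearMap.ker ((MW R b W).mkQ ∘ₗ mulVec R M w) := by
    rw [redSub_le]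
    intro c hc m
    rw [LinearMap.mem_ker, LinearMap.comp_apply, Submodule.mkQ_apply,
      Submodule.Quotient.mk_eq_zero]
    intro q α
    rw [cf_mulVec, smul_eq_C_smul c d, map_smul, Finsupp.smul_apply, smul_eq_mul,
      MvPowerSeries.coeff_C_mul, mul_comm, mul_smul]
    exact Submodule.smul_mem _ _ (hmw c hc)
  let μ : (M ⧸ redSub (maximalIdeal D) R M) →ₗ[R] (Fin k → M) ⧸ MW R b W :=
    Submodule.liftQ _ _ hker
  have hμ : ∀ m, μ (Submodule.Quotient.mk m) = Submodule.Quotient.mk (mulVec R M w m) :=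
    fun _ => rfl
  have hμi : Function.Injective μ := by
    rw [← LinearMap.ker_eq_bot, LinearMap.ker_eq_bot']
    intro y hy
    obtain ⟨m, rfl⟩ := Submodule.Quotient.mk_surjective _ y
    rw [hμ, Submodule.Quotient.mk_eq_zero] at hy
    rw [Submodule.Quotient.mk_eq_zero]
    obtain ⟨m', hm', hm''⟩ := exists_redSub_coeff (R := R) b (maximalIdeal D) hFG
      (fun q α => (b.repr m q).coeff α) (by
        intro q α
        have h1 := hy q α
        rw [cf_mulVec] at h1
        by_contra hnu
        have hu : IsUnit ((b.repr m q).coeff α) := by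
          rwa [mem_maximalIdeal, mem_nonunits_iff, not_not] at hnu
        apply hw
        obtain ⟨u, hu⟩ := hu
        rw [← hu] at h1
        have h2 := Submodule.smul_mem W (↑u⁻¹ : D) h1
        rwa [smul_smul, Units.inv_mul, one_smul] at h2)
    have h3 : m = m' := by
      apply b.repr.injective
      ext q α
      exact (hm'' q α).symm
    rw [h3]
    exact hm'
  obtain ⟨φ', hφ'⟩ := exists_lift_of_injective μ hμi ψ (by
    intro m
    obtain ⟨v, hv⟩ := Submodule.Quotient.mk_surjective _ (ψ m)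
    have h1 : v ∈ MW R b (W ⊔ Submodule.span D {w}) := by
      have h2 : Submodule.factor hle (ψ m) = 0 := by
        have h3 : Submodule.factor hle (Submodule.Quotient.mk (e₁ m)) =
          (Submodule.Quotient.mk (e₁ m) : (Fin k → M) ⧸ MW R b (W ⊔ Submodule.span D {w})) := rfl
        rw [hψ, map_sub, h3, he₁, sub_eq_zero]
        rfl
      rw [← hv] at h2
      exact (Submodule.Quotient.mk_eq_zero _).mp h2
    have h2 : ∀ q α, ∃ c : D, cf b v q α - c • w ∈ W := by
      intro q α
      obtain ⟨y, hy, z, hz, hyz⟩ := Submodule.mem_sup.mp (h1 q α)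
      obtain ⟨c, rfl⟩ := Submodule.mem_span_singleton.mp hz
      refine ⟨c, ?_⟩
      rw [← hyz, add_sub_cancel_right]
      exact hy
    choose c hc using h2
    let m' : M := b.equivFun.symm fun q => (fun α => c q α : MvPowerSeries (Fin d) D)
    have hm' : ∀ q α, (b.repr m' q).coeff α = c q α := by
      intro q α
      rw [← b.equivFun_apply, LinearEquiv.apply_symm_apply]
      rfl
    refine ⟨Submodule.Quotient.mk m', ?_⟩
    rw [hμ, ← hv, eq_comm, Submodule.Quotient.eq]
    intro q α
    rw [cf_sub, cf_mulVec, hm']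
    exact hc q α)
  obtain ⟨e₂, he₂⟩ := hθ φ'
  refine ⟨e₁ + mulVec R M w ∘ₗ e₂, fun m => ?_⟩
  rw [LinearMap.add_apply, Submodule.Quotient.mk_add, LinearMap.comp_apply, ← hμ, he₂, hφ', hψ,
    add_sub_cancel]

theorem liftProp_pow [IsLocalRing D] [IsNoetherianRing D]
    (hθ : ∀ φ : M →ₗ[R] M ⧸ redSub (maximalIdeal D) R M, ∃ e : M →ₗ[R] M,
      ∀ m, Submodule.Quotient.mk (e m) = φ m) (n : ℕ)
    (W : Submodule D (Fin k → D)) (hW : (maximalIdeal D ^ n) • (⊤ : Submodule D (Fin k → D)) ≤ W) :
    LiftProp (R := R) b W := by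
  classical
  have hwf : WellFoundedGT (Submodule D (Fin k → D)) := inferInstance
  induction W using hwf.induction with
  | ind W ih =>
    by_cases htop : W = ⊤
    · rw [htop]
      exact liftProp_top b
    · have h0 : ∃ j, (maximalIdeal D ^ j) • (⊤ : Submodule D (Fin k → D)) ≤ W := ⟨n, hW⟩
      let j := Nat.find h0
      have hj : (maximalIdeal D ^ j) • (⊤ : Submodule D (Fin k → D)) ≤ W := Nat.find_spec h0
      have hj0 : j ≠ 0 := by
        intro h
        apply htop
        rw [h, pow_zero, Ideal.one_eq_top, Submodule.top_smul] at hj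
        exact top_le_iff.mp hj
      obtain ⟨i, hi⟩ := Nat.exists_eq_succ_of_ne_zero hj0
      have hnot : ¬ (maximalIdeal D ^ i) • (⊤ : Submodule D (Fin k → D)) ≤ W :=
        Nat.find_min h0 (by
          show i < j
          omega)
      obtain ⟨w, hw, hwW⟩ := SetLike.not_le_iff_exists.mp hnot
      refine liftProp_step b (IsNoetherian.noetherian _) hθ W w hwW ?_ (ih _ ?_ ?_)
      · intro c hc
        apply hj
        rw [hi, pow_succ', mul_smul]
        exact Submodule.smul_mem_smul hc hw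
      · refine lt_of_le_of_ne le_sup_left ?_
        intro h
        apply hwW
        rw [h]
        exact Submodule.mem_sup_right (Submodule.mem_span_singleton_self w)
      · exact hW.trans le_sup_left

theorem mem_smul_top_of_forall {A : Type*} [CommRing A] {N : Type*} [AddCommGroup N] [Module A N]
    (I : Ideal A) {v : Fin k → N} (h : ∀ t, v t ∈ I • (⊤ : Submodule A N)) :
    v ∈ I • (⊤ : Submodule A (Fin k → N)) := by
  classical
  have h1 : v = ∑ t, LinearMap.single A (fun _ => N) t (v t) := by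
    conv_lhs => rw [← Finset.univ_sum_single v]
    rfl
  rw [h1]
  refine Submodule.sum_mem _ fun t _ => ?_
  have h2 : (I • (⊤ : Submodule A N)).map (LinearMap.single A (fun _ : Fin k => N) t) ≤
      I • (⊤ : Submodule A (Fin k → N)) := by
    rw [Submodule.map_smul'']
    exact smul_mono_right _ le_top
  exact h2 (Submodule.mem_map_of_mem (h t))

theorem mem_of_mem_smul_top {A : Type*} [CommRing A] (I : Ideal A) {v : Fin k → A}
    (h : v ∈ I • (⊤ : Submodule A (Fin k → A))) (t : Fin k) : v t ∈ I := by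
  have h2 : (I • (⊤ : Submodule A (Fin k → A))).map (LinearMap.proj t) ≤
      I • (⊤ : Submodule A A) := by
    rw [Submodule.map_smul'']
    exact smul_mono_right _ le_top
  have h3 := h2 (Submodule.mem_map_of_mem h)
  rw [smul_eq_mul, Ideal.mul_top] at h3
  exact h3

theorem exists_artinRees {A : Type*} [CommRing A] [IsNoetherianRing A] (I : Ideal A)
    {L N : Type*} [AddCommGroup L] [Module A L] [Module.Finite A L] [AddCommGroup N]
    [Module A N] [Module.Finite A N] :
    ∃ n, ∀ ψ : L →ₗ[A] N, (∀ y, ψ y ∈ I ^ n • (⊤ : Submodule A N)) →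
      ψ ∈ I • (⊤ : Submodule A (L →ₗ[A] N)) := by
  obtain ⟨m, π, hπ⟩ := Module.Finite.exists_fin' A L
  let ev : (L →ₗ[A] N) →ₗ[A] (Fin m → N) :=
    { toFun := fun ψ i => ψ (π (Pi.single i 1))
      map_add' := fun _ _ => rfl
      map_smul' := fun _ _ => rfl }
  have hev : Function.Injective ev := by
    intro ψ ψ' h
    have h1 : ψ ∘ₗ π = ψ' ∘ₗ π := by
      apply LinearMap.pi_ext'
      intro i
      apply LinearMap.ext_ring
      exact congrFun h i
    ext y
    obtain ⟨v, rfl⟩ := hπ y
    exact LinearMap.congr_fun h1 v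
  obtain ⟨n, hn⟩ := Ideal.exists_pow_inf_eq_pow_smul I (LinearMap.range ev)
  refine ⟨n + 1, fun ψ hψ => ?_⟩
  have h1 : ev ψ ∈ I ^ (n + 1) • (⊤ : Submodule A (Fin m → N)) ⊓ LinearMap.range ev :=
    ⟨mem_smul_top_of_forall _ fun i => hψ _, ⟨ψ, rfl⟩⟩
  rw [hn (n + 1) (Nat.le_succ n), Nat.add_sub_cancel_left, pow_one] at h1
  have h2 : I • (I ^ n • (⊤ : Submodule A (Fin m → N)) ⊓ LinearMap.range ev) ≤
      (I • (⊤ : Submodule A (L →ₗ[A] N))).map ev := by
    rw [Submodule.map_smul'']
    refine smul_mono_right _ ?_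
    rintro y ⟨-, ψ', rfl⟩
    exact ⟨ψ', trivial, rfl⟩
  obtain ⟨ψ', hψ', h3⟩ := h2 h1
  rw [← hev h3]
  exact hψ'

theorem liftProp_all [IsLocalRing D] [IsNoetherianRing D] [IsNoetherianRing R] [IsLocalRing R]
    [Module.Finite R M] (hloc : ∀ c ∈ maximalIdeal D, algebraMap D R c ∈ maximalIdeal R)
    (hθ : ∀ φ : M →ₗ[R] M ⧸ redSub (maximalIdeal D) R M, ∃ e : M →ₗ[R] M,
      ∀ m, Submodule.Quotient.mk (e m) = φ m)
    (W : Submodule D (Fin k → D)) : LiftProp (R := R) b W := by
  let N := (Fin k → M) ⧸ MW R b W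
  let P : (M →ₗ[R] (Fin k → M)) →ₗ[R] (M →ₗ[R] N) := LinearMap.llcomp R M (Fin k → M) N
    (MW R b W).mkQ
  have hP : ∀ e m, P e m = Submodule.Quotient.mk (e m) := fun _ _ => rfl
  suffices h : (⊤ : Submodule R (M →ₗ[R] N)) ≤ LinearMap.range P by
    intro φ
    obtain ⟨e, he⟩ := h (show φ ∈ ⊤ from trivial)
    exact ⟨e, fun m => by rw [← hP, he]⟩
  obtain ⟨n, hn⟩ := exists_artinRees (maximalIdeal R) (L := M) (N := N)
  apply Submodule.le_of_le_smul_of_le_jacobson_bot (I := maximalIdeal R)
    (IsNoetherian.noetherian _) (IsLocalRing.maximalIdeal_le_jacobson _)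
  intro ψ _
  let Wn : Submodule D (Fin k → D) := W ⊔ (maximalIdeal D ^ n) • ⊤
  have hle : MW R b W ≤ MW R b Wn := MW_mono b le_sup_left
  obtain ⟨e, he⟩ := liftProp_pow b hθ n Wn le_sup_right (Submodule.factor hle ∘ₗ ψ)
  have h1 : ψ = P e + (ψ - P e) := by abel
  rw [h1]
  refine Submodule.add_mem_sup ⟨e, rfl⟩ (hn _ fun m => ?_)
  obtain ⟨v, hv⟩ := Submodule.Quotient.mk_surjective _ (ψ m)
  have h2 : v - e m ∈ MW R b Wn := by
    have h3 := he m
    rw [LinearMap.comp_apply, ← hv] at h3
    exact (Submodule.Quotient.eq _).mp h3.symm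
  rw [LinearMap.sub_apply, hP, ← hv, ← Submodule.Quotient.mk_sub]
  have h3 : ∀ q α, ∃ y ∈ W, ∃ z ∈ (maximalIdeal D ^ n) • (⊤ : Submodule D (Fin k → D)),
      y + z = cf b (v - e m) q α := fun q α => Submodule.mem_sup.mp (h2 q α)
  choose y hy z hz hyz using h3
  obtain ⟨v', hv'⟩ := exists_cf b z
  have h4 : v - e m - v' ∈ MW R b W := by
    intro q α
    rw [cf_sub, hv', ← hyz, add_sub_cancel_right]
    exact hy q α
  have h5 : v' ∈ (maximalIdeal R ^ n) • (⊤ : Submodule R (Fin k → M)) := by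
    apply mem_smul_top_of_forall
    intro t
    obtain ⟨m', hm', hm''⟩ := exists_redSub_coeff (R := R) b (maximalIdeal D ^ n)
      (IsNoetherian.noetherian _) (fun q α => (b.repr (v' t) q).coeff α) (by
        intro q α
        show (b.repr (v' t) q).coeff α ∈ maximalIdeal D ^ n
        rw [← cf_apply, hv']
        exact mem_of_mem_smul_top _ (hz q α) t)
    have h6 : v' t = m' := by
      apply b.repr.injective
      ext q α
      exact (hm'' q α).symm
    rw [h6]
    have h7 : (maximalIdeal D ^ n).map (algebraMap D R) ≤ maximalIdeal R ^ n := by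
      rw [Ideal.map_pow]
      apply Ideal.pow_right_mono
      rw [Ideal.map_le_iff_le_comap]
      exact hloc
    exact Submodule.smul_mono_left h7 hm'
  have h6 : (Submodule.Quotient.mk (v - e m) : N) = Submodule.Quotient.mk v' := by
    rw [Submodule.Quotient.eq]
    exact h4
  rw [h6]
  have h7 : ((maximalIdeal R ^ n) • (⊤ : Submodule R (Fin k → M))).map (MW R b W).mkQ ≤
      (maximalIdeal R ^ n) • (⊤ : Submodule R N) := by
    rw [Submodule.map_smul'']
    exact smul_mono_right _ le_top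
  exact h7 (Submodule.mem_map_of_mem h5)

end LiftS

end Pool.Agent.Lib.MP_682396_ag
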