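import Pool.Agent.Lib.MP_682396_ag.Curve.CoordD

/-!
# Reductions of modules modulo an ideal of the base ring
-/

set_option autoImplicit false
set_option linter.unusedSectionVars false

open Module IsLocalRing
open scoped Pointwise

universe u v w

namespace Pool.Agent.Lib.MP_682396_ag

open Tw

section RedSub

variable {D : Type*} [CommRing D] (I : Ideal D) {R : Type u} [CommRing R] [Algebra D R]
  {M : Type u} [AddCommGroup M] [Module R M]

/-- The submodule generated by an ideal of the base ring. -/
def redSub (R : Type u) [CommRing R] [Algebra D R] (M : Type u) [AddCommGroup M] [Module R M] :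
    Submodule R M := (I.map (algebraMap D R)) • (⊤ : Submodule R M)

variable {I} in
theorem redSub_le {P : Submodule R M} :
    redSub I R M ≤ P ↔ ∀ c ∈ I, ∀ m : M, algebraMap D R c • m ∈ P := by
  constructor
  · intro h c hc m
    exact h (Submodule.smul_mem_smul (Ideal.mem_map_of_mem _ hc) trivial)
  · intro h
    unfold redSub
    rw [Submodule.smul_le]
    intro r hr m _
    have h1 : I.map (algebraMap D R) ≤ Submodule.comap (LinearMap.toSpanSingleton R M m) P := by
      rw [Ideal.map_le_iff_le_comap]
      intro c hc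
      exact h c hc m
    exact h1 hr

variable {I} in
theorem smul_mem_redSub {c : D} (hc : c ∈ I) (m : M) : algebraMap D R c • m ∈ redSub I R M :=
  redSub_le.mp le_rfl c hc m

theorem redSub_map {N : Type u} [AddCommGroup N] [Module R N] (f : M →ₗ[R] N) {m : M}
    (hm : m ∈ redSub I R M) : f m ∈ redSub I R N := by
  have h1 : redSub I R M ≤ (redSub I R N).comap f := by
    rw [redSub_le]
    intro c hc m
    rw [Submodule.mem_comap, map_smul]
    exact smul_mem_redSub hc _
  exact h1 hm

end RedSub

section Red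

variable {K : Type*} [CommRing K] {D : Type*} [CommRing D] [Algebra K D] {R : Type u} [CommRing R]
  [Algebra K R] [Algebra D R] [IsScalarTower K D R] {Q : Type*} [Fintype Q]
  [DecidableEq Q] {d : ℕ} {x : Fin d → R} {M : Type u} [AddCommGroup M] [Module R M]

theorem CoordD.θ_smul (C : CoordD D Q x M) (c : D) (m : M) (a : Q × (Fin d → Fin 5)) :
    C.θ (algebraMap D R c • m) a = c * C.θ m a := by
  rw [C.smul, Finset.sum_eq_single a]
  · rw [C.scalar, if_pos rfl]
  · intro b' _ hb'
    rw [C.scalar, if_neg (Ne.symm hb'), zero_mul]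
  · intro h
    exact absurd (Finset.mem_univ _) h

theorem CoordD.θ_mem (C : CoordD D Q x M) {I : Ideal D} {m : M} (hm : m ∈ redSub I R M)
    (a : Q × (Fin d → Fin 5)) : C.θ m a ∈ I := by
  let P : Submodule R M :=
    { carrier := {m | ∀ a, C.θ m a ∈ I}
      zero_mem' := fun a => by
        rw [map_zero]
        exact zero_mem I
      add_mem' := fun {m m'} hm hm' a => by
        rw [map_add]
        exact add_mem (hm a) (hm' a)
      smul_mem' := fun r m hm a => by
        rw [C.smul]
        exact Ideal.sum_mem _ fun b _ => Ideal.mul_mem_left _ _ (hm b) }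
  have h1 : redSub I R M ≤ P := by
    rw [redSub_le]
    intro c hc m a
    rw [C.θ_smul]
    exact Ideal.mul_mem_right _ _ hc
  exact h1 hm a

/-- The reduction of coordinates. -/
theorem CoordD.exists_red2 (C : CoordD D Q x M) (p : D →ₐ[K] K) (I : Ideal D)
    (hp : ∀ c, p c = 0 ↔ c ∈ I) :
    ∃ C' : CoordD K Q x (M ⧸ redSub I R M),
      (∀ r a b, C'.ρ r a b = p (C.ρ r a b)) ∧
      ∀ m a, C'.θ (Submodule.Quotient.mk m) a = p (C.θ m a) := by
  have hpK : ∀ c : K, p (algebraMap K D c) = c := fun c => AlgHom.commutes p c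
  let ρ : R →+* Matrix (Q × (Fin d → Fin 5)) (Q × (Fin d → Fin 5)) K :=
    (RingHom.mapMatrix p.toRingHom).comp C.ρ
  have hρ : ∀ r a b, ρ r a b = p (C.ρ r a b) := fun _ _ _ => rfl
  let θ₀ : M →ₗ[R] Tw ρ K :=
    { toFun := fun m a => p (C.θ m a)
      map_add' := fun m m' => by
        apply Tw.ext
        intro a
        show p (C.θ (m + m') a) = p (C.θ m a) + p (C.θ m' a)
        rw [map_add, Pi.add_apply, map_add]
      map_smul' := fun r m => by
        apply Tw.ext
        intro a
        show p (C.θ (r • m) a) = ∑ b, p (C.ρ r a b) * p (C.θ m b)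
        rw [C.smul, map_sum]
        simp only [map_mul] }
  have hθ₀ : ∀ m a, θ₀ m a = p (C.θ m a) := fun _ _ => rfl
  have hle : redSub I R M ≤ LinearMap.ker θ₀ := by
    intro m hm
    rw [LinearMap.mem_ker]
    apply Tw.ext
    intro a
    rw [hθ₀, Tw.zero_apply, hp]
    exact C.θ_mem hm a
  let θ : (M ⧸ redSub I R M) →ₗ[R] Tw ρ K := Submodule.liftQ _ θ₀ hle
  have hθ : ∀ m a, θ (Submodule.Quotient.mk m) a = p (C.θ m a) := fun _ _ => rfl
  refine ⟨⟨ρ, θ.toAddMonoidHom, ?_, ?_, ?_, ?_, ?_⟩, hρ, hθ⟩
  · intro l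
    ext a b
    rw [hρ, C.shift]
    unfold shiftMat
    split_ifs
    · exact map_one p
    · exact map_zero p
  · intro c a b
    rw [hρ, IsScalarTower.algebraMap_apply K D R, C.scalar]
    split_ifs
    · exact hpK c
    · exact map_zero p
  · intro r m a
    have h1 : θ (r • m) = r • θ m := map_smul θ r m
    exact congrFun h1 a
  · intro v
    obtain ⟨m, hm⟩ := C.surj fun a => algebraMap K D (v a)
    refine ⟨Submodule.Quotient.mk m, ?_⟩
    funext a
    show θ (Submodule.Quotient.mk m) a = v a
    rw [hθ, hm, hpK]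
  · intro m
    obtain ⟨m, rfl⟩ := Submodule.Quotient.mk_surjective _ m
    rw [mk_mem_lev_iff]
    constructor
    · intro h
      have h1 : ∀ a, C.θ m a ∈ I := by
        intro a
        have h2 : θ (Submodule.Quotient.mk m) a = 0 := congrFun h a
        rw [hθ, hp] at h2
        exact h2
      choose mb hmb using fun b : Q × (Fin d → Fin 5) => C.surj (Pi.single b 1)
      let m' : M := ∑ b, algebraMap D R (C.θ m b) • mb b
      have hm' : m' ∈ redSub I R M := Submodule.sum_mem _ fun b _ => smul_mem_redSub (h1 b) _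
      have h2 : m = (m - m') + m' := by abel
      rw [h2]
      refine Submodule.add_mem_sup ?_ hm'
      rw [← C.ker]
      funext a
      rw [map_sub, Pi.sub_apply, map_sum, Finset.sum_apply, Finset.sum_eq_single a]
      · rw [C.θ_smul, hmb, Pi.single_eq_same, mul_one, sub_self]
        rfl
      · intro b _ hb
        rw [C.θ_smul, hmb, Pi.single_eq_of_ne hb.symm, mul_zero]
      · intro h
        exact absurd (Finset.mem_univ _) h
    · intro h
      obtain ⟨w, hw, w', hw', rfl⟩ := Submodule.mem_sup.mp h
      funext a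
      show θ (Submodule.Quotient.mk (w + w')) a = 0
      have h1 := hle hw'
      rw [LinearMap.mem_ker] at h1
      have h2 : p (C.θ w' a) = 0 := by
        rw [← hθ₀, h1]
        rfl
      rw [hθ, map_add, Pi.add_apply, map_add, h2, add_zero, (C.ker w).mpr hw, Pi.zero_apply,
        map_zero]

end Red

section Quot

variable {D : Type*} [CommRing D] {d : ℕ} {R : Type u} [CommRing R] [Algebra D R]
  [Algebra (MvPowerSeries (Fin d) D) R] [IsScalarTower D (MvPowerSeries (Fin d) D) R]
  {M : Type u} [AddCommGroup M] [Module R M]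
  [Module (MvPowerSeries (Fin d) D) M] [IsScalarTower (MvPowerSeries (Fin d) D) R M]
  {Q : Type*} [Fintype Q] (b : Basis Q (MvPowerSeries (Fin d) D) M) (I : Ideal D)

theorem coeff_mem_of_redSub {m : M} (hm : m ∈ redSub I R M) (q : Q) (α : Fin d →₀ ℕ) :
    (b.repr m q).coeff α ∈ I := by
  let J : Ideal (MvPowerSeries (Fin d) D) :=
    { carrier := {f | ∀ α, f.coeff α ∈ I}
      zero_mem' := fun α => by
        rw [map_zero]
        exact zero_mem I
      add_mem' := fun {f g} hf hg α => by
        rw [map_add]
        exact add_mem (hf α) (hg α)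
      smul_mem' := fun g f hf α => by
        classical
        rw [smul_eq_mul, MvPowerSeries.coeff_mul]
        exact Ideal.sum_mem _ fun b _ => Ideal.mul_mem_left _ _ (hf b.2) }
  have hJ : I.map (algebraMap D (MvPowerSeries (Fin d) D)) ≤ J := by
    rw [Ideal.map_le_iff_le_comap]
    intro c hc α
    rw [← MvPowerSeries.c_eq_algebraMap]
    classical
    rw [MvPowerSeries.coeff_C]
    split_ifs
    · exact hc
    · exact zero_mem I
  have h2 : redSub I R M = (I.map (algebraMap D (MvPowerSeries (Fin d) D))).map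
      (algebraMap (MvPowerSeries (Fin d) D) R) • (⊤ : Submodule R M) := by
    unfold redSub
    rw [Ideal.map_map, ← IsScalarTower.algebraMap_eq]
  have h3 : m ∈ ((I.map (algebraMap D (MvPowerSeries (Fin d) D))) •
      (⊤ : Submodule (MvPowerSeries (Fin d) D) M)) := by
    have h4 := Ideal.smul_restrictScalars (I.map (algebraMap D (MvPowerSeries (Fin d) D)))
      (⊤ : Submodule R M)
    rw [← h2] at h4
    have h5 : m ∈ (redSub I R M).restrictScalars (MvPowerSeries (Fin d) D) := hm
    rw [h4] at h5
    exact h5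
  have h4 : b.repr m q ∈ J := by
    refine Submodule.smul_induction_on h3 ?_ ?_
    · intro f hf m _
      rw [map_smul, Finsupp.smul_apply, smul_eq_mul]
      exact Ideal.mul_mem_right _ _ (hJ hf)
    · intro m m' h h'
      rw [map_add, Finsupp.add_apply]
      exact add_mem h h'
  exact h4 α

theorem exists_redSub_coeff (hI : I.FG) (g : Q → (Fin d →₀ ℕ) → D) (hg : ∀ q α, g q α ∈ I) :
    ∃ m ∈ redSub I R M, ∀ q α, (b.repr m q).coeff α = g q α := by
  obtain ⟨n, f, hf⟩ := Submodule.fg_iff_exists_fin_generating_family.mp hI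
  have h1 : ∀ q α, ∃ c : Fin n → D, ∑ j, c j * f j = g q α := by
    intro q α
    have h2 := hg q α
    rw [← hf] at h2
    exact (Ideal.mem_span_range_iff_exists_fun).mp h2
  choose c hc using h1
  have hfI : ∀ j, f j ∈ I := fun j => by
    rw [← hf]
    exact Submodule.subset_span (Set.mem_range_self j)
  let s : Fin n → M := fun j => b.equivFun.symm fun q => (fun α => c q α j : MvPowerSeries (Fin d) D)
  have hs : ∀ j q α, (b.repr (s j) q).coeff α = c q α j := by
    intro j q α
    rw [← b.equivFun_apply, LinearEquiv.apply_symm_apply]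
    rfl
  refine ⟨∑ j, algebraMap D R (f j) • s j,
    Submodule.sum_mem _ fun j _ => smul_mem_redSub (hfI j) _, fun q α => ?_⟩
  rw [map_sum, Finsupp.finsetSum_apply, map_sum, ← hc q α]
  refine Finset.sum_congr rfl fun j _ => ?_
  rw [smul_eq_C_smul (f j) d, map_smul, Finsupp.smul_apply, smul_eq_mul,
    MvPowerSeries.coeff_C_mul, hs, mul_comm]

theorem mem_levS_sup_iff2 (hI : I.FG) (s : Set (Fin d)) (c : Fin d → ℕ) (m : M) :
    m ∈ levS (xsD D d R) M s c ⊔ redSub I R M ↔
      ∀ (q : Q) (α : Fin d →₀ ℕ), (∀ l ∈ s, α l < c l) → (b.repr m q).coeff α ∈ I := by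
  classical
  constructor
  · intro hm q α hα
    obtain ⟨w, hw, w', hw', rfl⟩ := Submodule.mem_sup.mp hm
    rw [map_add, Finsupp.add_apply, map_add, (mem_levS_iffD b s c w).mp hw q α hα, zero_add]
    exact coeff_mem_of_redSub b I hw' q α
  · intro h
    obtain ⟨m', hm', hm''⟩ := exists_redSub_coeff (R := R) b I hI
      (fun q α => if ∀ l ∈ s, α l < c l then (b.repr m q).coeff α else 0) (by
        intro q α
        show (if ∀ l ∈ s, α l < c l then (b.repr m q).coeff α else 0) ∈ I
        split_ifs with h1
        · exact h q α h1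
        · exact zero_mem I)
    have h2 : m = (m - m') + m' := by abel
    rw [h2]
    refine Submodule.add_mem_sup ?_ hm'
    rw [mem_levS_iffD b]
    intro q α hα
    rw [map_sub, Finsupp.sub_apply, map_sub, hm'', if_pos hα, sub_self]

include b in
theorem regSys_quot2 (hI : I.FG) : RegSys (xsD D d R) (M ⧸ redSub I R M) := by
  intro s c l m hl hc hm
  obtain ⟨m, rfl⟩ := Submodule.Quotient.mk_surjective _ m
  rw [← Submodule.Quotient.mk_smul, mk_mem_levS_iff, mem_levS_sup_iff2 b I hI] at hm
  rw [mk_mem_levS_iff, mem_levS_sup_iff2 b I hI]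
  intro q α hα
  have h1 := hm q (α + Finsupp.single l 1) (by
    intro l' hl'
    have : l ≠ l' := by rintro rfl; exact hl hl'
    rw [Finsupp.add_apply, Finsupp.single_eq_of_ne this.symm, add_zero]
    exact hα l' hl')
  rw [coeff_xsD_smul, if_pos, add_tsub_cancel_right] at h1
  · exact h1
  · rw [Finsupp.add_apply, Finsupp.single_eq_same]
    omega

end Quot

end Pool.Agent.Lib.MP_682396_ag
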