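import Pool.Agent.Lib.MP_682396_ag.Gen.ExtTF
import Pool.Agent.Lib.MP_682396_ag.Gen.Red

/-!
# Submodules given by conditions on coefficient vectors
-/

set_option autoImplicit false
set_option linter.unusedSectionVars false

open Module IsLocalRing
open scoped Pointwise

universe u v w

namespace Pool.Agent.Lib.MP_682396_ag

open Tw

section MW

variable {D : Type*} [CommRing D] {d : ℕ} {R : Type u} [CommRing R] [Algebra D R]
  [Algebra (MvPowerSeries (Fin d) D) R] [IsScalarTower D (MvPowerSeries (Fin d) D) R]
  {M : Type u} [AddCommGroup M] [Module R M]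
  [Module (MvPowerSeries (Fin d) D) M] [IsScalarTower (MvPowerSeries (Fin d) D) R M]
  {Q : Type*} [Fintype Q] (b : Basis Q (MvPowerSeries (Fin d) D) M) {k : ℕ}

/-- Coefficient vectors. -/
noncomputable def cf (v : Fin k → M) (q : Q) (α : Fin d →₀ ℕ) : Fin k → D :=
  fun t => (b.repr (v t) q).coeff α

theorem cf_apply (v : Fin k → M) (q : Q) (α : Fin d →₀ ℕ) (t : Fin k) :
    cf b v q α t = (b.repr (v t) q).coeff α := rfl

theorem cf_zero (q : Q) (α : Fin d →₀ ℕ) : cf b (0 : Fin k → M) q α = 0 := by
  funext t
  rw [cf_apply, Pi.zero_apply, map_zero, Finsupp.zero_apply, map_zero]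
  rfl

theorem cf_add (v w : Fin k → M) (q : Q) (α : Fin d →₀ ℕ) :
    cf b (v + w) q α = cf b v q α + cf b w q α := by
  funext t
  rw [cf_apply, Pi.add_apply, map_add, Finsupp.add_apply, map_add]
  rfl

theorem cf_sub (v w : Fin k → M) (q : Q) (α : Fin d →₀ ℕ) :
    cf b (v - w) q α = cf b v q α - cf b w q α := by
  funext t
  rw [cf_apply, Pi.sub_apply, map_sub, Finsupp.sub_apply, map_sub]
  rfl

theorem cf_ext {v w : Fin k → M} (h : ∀ q α, cf b v q α = cf b w q α) : v = w := by
  funext t
  apply b.repr.injective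
  ext q
  exact congrFun (h q _) t

theorem exists_cf (g : Q → (Fin d →₀ ℕ) → (Fin k → D)) :
    ∃ v : Fin k → M, ∀ q α, cf b v q α = g q α := by
  refine ⟨fun t => b.equivFun.symm fun q => (fun α => g q α t : MvPowerSeries (Fin d) D), ?_⟩
  intro q α
  funext t
  rw [cf_apply, ← b.equivFun_apply, LinearEquiv.apply_symm_apply]
  rfl

theorem cf_smul (r : R) (v : Fin k → M) (q : Q) (α : Fin d →₀ ℕ) :
    cf b (r • v) q α = ∑ q', ∑ p ∈ Finset.HasAntidiagonal.antidiagonal α,
      (b.repr (r • b q') q).coeff p.2 • cf b v q' p.1 := by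
  classical
  funext t
  rw [cf_apply, Pi.smul_apply]
  have h1 : r • v t = ∑ q', b.repr (v t) q' • (r • b q') := by
    conv_lhs => rw [← b.sum_repr (v t)]
    rw [Finset.smul_sum]
    refine Finset.sum_congr rfl fun q' _ => ?_
    rw [← algebraMap_smul R (b.repr (v t) q') (b q'),
      ← algebraMap_smul R (b.repr (v t) q') (r • b q'), smul_smul, smul_smul, mul_comm]
  rw [h1, map_sum, Finsupp.finsetSum_apply, map_sum, Finset.sum_apply]
  refine Finset.sum_congr rfl fun q' _ => ?_
  rw [map_smul, Finsupp.smul_apply, smul_eq_mul, MvPowerSeries.coeff_mul, Finset.sum_apply]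
  refine Finset.sum_congr rfl fun p _ => ?_
  rw [Pi.smul_apply, cf_apply, smul_eq_mul, mul_comm]

/-- Vectors all of whose coefficient vectors lie in a given module. -/
noncomputable def MW (R : Type u) [CommRing R] [Algebra D R]
    [Algebra (MvPowerSeries (Fin d) D) R] [IsScalarTower D (MvPowerSeries (Fin d) D) R]
    {M : Type u} [AddCommGroup M] [Module R M]
    [Module (MvPowerSeries (Fin d) D) M] [IsScalarTower (MvPowerSeries (Fin d) D) R M]
    {Q : Type*} [Fintype Q] (b : Basis Q (MvPowerSeries (Fin d) D) M) {k : ℕ}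
    (W : Submodule D (Fin k → D)) : Submodule R (Fin k → M) where
  carrier := {v | ∀ q α, cf b v q α ∈ W}
  zero_mem' := fun q α => by
    rw [cf_zero]
    exact zero_mem W
  add_mem' := fun {v w} hv hw q α => by
    rw [cf_add]
    exact add_mem (hv q α) (hw q α)
  smul_mem' := fun r v hv q α => by
    rw [cf_smul]
    exact Submodule.sum_mem _ fun q' _ => Submodule.sum_mem _ fun p _ =>
      Submodule.smul_mem _ _ (hv q' p.1)

variable {b} in
theorem mem_MW {W : Submodule D (Fin k → D)} {v : Fin k → M} :
    v ∈ MW R b W ↔ ∀ q α, cf b v q α ∈ W := Iff.rfl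

theorem MW_mono {W W' : Submodule D (Fin k → D)} (h : W ≤ W') : MW R b W ≤ MW R b W' :=
  fun _ hv q α => h (hv q α)

theorem cf_xsD_smul (l : Fin d) (v : Fin k → M) (q : Q) (α : Fin d →₀ ℕ) :
    cf b (xsD D d R l • v) q α = if 0 < α l then cf b v q (α - Finsupp.single l 1) else 0 := by
  funext t
  rw [cf_apply, Pi.smul_apply, coeff_xsD_smul]
  split_ifs <;> rfl

theorem cf_xsD_pow_smul (l : Fin d) (n : ℕ) (v : Fin k → M) (q : Q) (α : Fin d →₀ ℕ) :
    cf b (xsD D d R l ^ n • v) q α =
      if n ≤ α l then cf b v q (α - Finsupp.single l n) else 0 := by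
  induction n generalizing α with
  | zero => simp
  | succ n ih =>
    rw [pow_succ', mul_smul, cf_xsD_smul]
    by_cases h : 0 < α l
    · rw [if_pos h, ih]
      have h1 : (α - Finsupp.single l 1 : Fin d →₀ ℕ) l = α l - 1 := by
        rw [Finsupp.tsub_apply, Finsupp.single_eq_same]
      have h2 : α - Finsupp.single l 1 - Finsupp.single l n = α - Finsupp.single l (n + 1) := by
        rw [tsub_tsub, ← Finsupp.single_add, add_comm 1 n]
      rw [h1, h2]
      by_cases h3 : n + 1 ≤ α l
      · rw [if_pos h3, if_pos (by omega)]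
      · rw [if_neg h3, if_neg (by omega)]
    · rw [if_neg h, if_neg (by omega)]

theorem mem_levS_MW {W : Submodule D (Fin k → D)} (s : Set (Fin d)) (c : Fin d → ℕ)
    (v : MW R b W) : v ∈ levS (xsD D d R) (MW R b W) s c ↔
      ∀ (q : Q) (α : Fin d →₀ ℕ), (∀ l ∈ s, α l < c l) → cf b v.1 q α = 0 := by
  classical
  constructor
  · intro hv q α hα
    unfold levS at hv
    induction hv using Submodule.iSup_induction' with
    | mem l w hw =>
      by_cases hl : l ∈ s
      · rw [iSup_pos hl] at hw
        obtain ⟨w', -, rfl⟩ := Submodule.mem_smul_pointwise_iff_exists _ _ _ |>.mp hw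
        show cf b (xsD D d R l ^ c l • w'.1) q α = 0
        rw [cf_xsD_pow_smul, if_neg (not_le.mpr (hα l hl))]
      · rw [iSup_neg hl, Submodule.mem_bot] at hw
        rw [hw]
        exact cf_zero b q α
    | zero => exact cf_zero b q α
    | add w w' _ _ h h' =>
      show cf b (w.1 + w'.1) q α = 0
      rw [cf_add, h, h', add_zero]
  · intro h
    have key : ∀ (s' : Finset (Fin d)) (v : MW R b W),
        (∀ (q : Q) (α : Fin d →₀ ℕ), (∀ l ∈ s', α l < c l) → cf b v.1 q α = 0) →
        v ∈ levS (xsD D d R) (MW R b W) (s' : Set (Fin d)) c := by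
      intro s'
      induction s' using Finset.induction_on with
      | empty =>
        intro v hv
        have h0 : v = 0 := by
          apply Subtype.ext
          apply cf_ext b
          intro q α
          rw [hv q α (by simp)]
          exact (cf_zero b q α).symm
        rw [h0]
        exact zero_mem _
      | insert l s' hl ih =>
        intro v hv
        obtain ⟨v₂, hv₂⟩ := exists_cf b (fun q α => if α l < c l then cf b v.1 q α else 0)
        obtain ⟨w, hw⟩ := exists_cf b (fun q α => cf b v.1 q (α + Finsupp.single l (c l)))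
        have hv₂W : v₂ ∈ MW R b W := by
          intro q α
          rw [hv₂]
          split_ifs
          · exact v.2 q α
          · exact zero_mem W
        have hwW : w ∈ MW R b W := by
          intro q α
          rw [hw]
          exact v.2 q _
        have hsum : v = ⟨v₂, hv₂W⟩ + xsD D d R l ^ c l • ⟨w, hwW⟩ := by
          apply Subtype.ext
          apply cf_ext b
          intro q α
          show cf b v.1 q α = cf b (v₂ + xsD D d R l ^ c l • w) q α
          rw [cf_add, hv₂, cf_xsD_pow_smul, hw]
          by_cases h1 : α l < c l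
          · rw [if_pos h1, if_neg (not_le.mpr h1), add_zero]
          · rw [if_neg h1, if_pos (not_lt.mp h1), zero_add]
            congr 1
            rw [tsub_add_cancel_of_le]
            rw [Finsupp.single_le_iff]
            exact not_lt.mp h1
        rw [hsum, Finset.coe_insert, levS_insert, add_comm]
        refine Submodule.add_mem_sup (Submodule.smul_mem_pointwise_smul _ _ ⊤ trivial) ?_
        apply ih
        intro q α hα
        show cf b v₂ q α = 0
        rw [hv₂]
        split_ifs with h1
        · apply hv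
          intro l' hl'
          rcases Finset.mem_insert.mp hl' with rfl | h4
          · exact h1
          · exact hα l' h4
        · rfl
    have h1 := key s.toFinset v (by
      intro q α hα
      exact h q α fun l hl => hα l (Set.mem_toFinset.mpr hl))
    rwa [Set.coe_toFinset] at h1

theorem mem_lev_MW {W : Submodule D (Fin k → D)} (c : Fin d → ℕ)
    (v : MW R b W) : v ∈ lev (xsD D d R) (MW R b W) c ↔
      ∀ (q : Q) (α : Fin d →₀ ℕ), (∀ l, α l < c l) → cf b v.1 q α = 0 := by
  rw [← levS_univ, mem_levS_MW]
  simp only [Set.mem_univ, forall_true_left]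

theorem regSys_MW (W : Submodule D (Fin k → D)) : RegSys (xsD D d R) (MW R b W) := by
  intro s c l v hl hc hv
  rw [mem_levS_MW] at hv ⊢
  intro q α hα
  have h1 := hv q (α + Finsupp.single l 1) (by
    intro l' hl'
    have : l ≠ l' := by rintro rfl; exact hl hl'
    rw [Finsupp.add_apply, Finsupp.single_eq_of_ne this.symm, add_zero]
    exact hα l' hl')
  change cf b (xsD D d R l • v.1) q (α + Finsupp.single l 1) = 0 at h1
  rw [cf_xsD_smul, if_pos, add_tsub_cancel_right] at h1
  · exact h1
  · rw [Finsupp.add_apply, Finsupp.single_eq_same]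
    omega

section ToTw

variable [DecidableEq Q] (C : CoordD D Q (xsD D d R) M)
  (hC : ∀ m a, C.θ m a = (b.repr m a.1).coeff (expo a.2))

/-- The coordinates of vectors with coefficient vectors in a module. -/
noncomputable def toTwW (W : Submodule D (Fin k → D)) : MW R b W →ₗ[R] Tw C.ρ W where
  toFun v a := ⟨cf b v.1 a.1 (expo a.2), v.2 _ _⟩
  map_add' v w := by
    apply Tw.ext
    intro a
    apply Subtype.ext
    exact cf_add b v.1 w.1 _ _
  map_smul' r v := by
    apply Tw.ext
    intro a
    apply Subtype.ext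
    rw [RingHom.id_apply, Tw.smul_apply, AddSubmonoidClass.coe_finsetSum]
    funext t
    rw [Finset.sum_apply]
    show (b.repr (r • v.1 t) a.1).coeff (expo a.2) =
      ∑ c, C.ρ r a c * (b.repr (v.1 t) c.1).coeff (expo c.2)
    rw [← hC, C.smul]
    exact Finset.sum_congr rfl fun c _ => by rw [hC]

theorem toTwW_apply (W : Submodule D (Fin k → D)) (v : MW R b W) (a : Q × (Fin d → Fin 5)) :
    (toTwW b C hC W v a : Fin k → D) = cf b v.1 a.1 (expo a.2) := rfl

theorem toTwW_surjective (W : Submodule D (Fin k → D)) :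
    Function.Surjective (toTwW b C hC W) := by
  intro v
  obtain ⟨m, hm⟩ := exists_cf b (fun q α => if h : ∀ l, α l < 5 then
    (v (q, fun l => ⟨α l, h l⟩) : Fin k → D) else 0)
  have hmW : m ∈ MW R b W := by
    intro q α
    rw [hm]
    split_ifs
    · exact (v _).2
    · exact zero_mem W
  refine ⟨⟨m, hmW⟩, Tw.ext fun a => Subtype.ext ?_⟩
  rw [toTwW_apply, hm, dif_pos fun l => by rw [expo_apply]; exact (a.2 l).isLt]
  rfl

theorem ker_toTwW (W : Submodule D (Fin k → D)) :
    LinearMap.ker (toTwW b C hC W) = lev (xsD D d R) (MW R b W) fun _ => 5 := by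
  ext v
  rw [LinearMap.mem_ker, mem_lev_MW]
  constructor
  · intro h q α hα
    obtain ⟨β, rfl⟩ := exists_expo hα
    have h1 : toTwW b C hC W v (q, β) = 0 := by
      rw [h]
      rfl
    have h2 := congrArg Subtype.val h1
    rw [toTwW_apply] at h2
    exact h2
  · intro h
    apply Tw.ext
    intro a
    apply Subtype.ext
    rw [toTwW_apply]
    exact h a.1 (expo a.2) fun l => by rw [expo_apply]; exact (a.2 l).isLt

end ToTw

end MW

end Pool.Agent.Lib.MP_682396_ag
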