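import Pool.Agent.Lib.MP_682396_ag.Gen.Final

/-!
# The main theorem: finiteness of rigid maximal Cohen-Macaulay modules of bounded rank

Let `R` be a complete Noetherian local domain with residue field `k` such that `k` has
characteristic zero, or `R` has characteristic `p` and `k` is perfect.  Let the singular locus of
`R` have dimension at most `s`.  For every bound `N` there are up to isomorphism only finitely many
rigid maximal Cohen-Macaulay `R`-modules `M` of rank at most `N` in each of the following cases:
`s ≤ 1`; `dim R ≤ 2`; `R` is a normal Gorenstein ring of dimension at most four; `End_R(M)` has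
depth at least `s + 2`; `Ext^k_R(M, M) = 0` for all `1 ≤ k ≤ s`.
-/

set_option autoImplicit false
set_option linter.overlappingInstances false

open Module IsLocalRing
open scoped Pointwise

universe u

namespace Pool.Agent.Lib.MP_682396_ag

/-- Finiteness in each of five cases. -/
theorem finite_main :
    ∀ (R : Type u) [CommRing R] [IsDomain R] [IsNoetherianRing R] [IsLocalRing R],
      IsAdicComplete (IsLocalRing.maximalIdeal R) R →
      (CharZero (IsLocalRing.ResidueField R) ∨
        ∃ p : ℕ, p.Prime ∧ CharP R p ∧ ∀ a : IsLocalRing.ResidueField R, ∃ b, b ^ p = a) →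
      ∀ s : ℕ,
      (∀ (p : Ideal R) [p.IsPrime], ¬ IsRegularLocalRing (Localization.AtPrime p) →
          ringKrullDim (R ⧸ p) ≤ ((s : ℕ∞) : WithBot ℕ∞)) →
      ∀ N : ℕ, ∃ S : Set (Σ k : ℕ, Submodule R (Fin k → R)), S.Finite ∧
        ∀ (M : Type u) [AddCommGroup M] [Module R M],
          Module.Finite R M → Nontrivial M →
          (∃ rs : List R, (∀ r ∈ rs, r ∈ IsLocalRing.maximalIdeal R) ∧
              RingTheory.Sequence.IsWeaklyRegular M rs ∧
              ((rs.length : ℕ∞) : WithBot ℕ∞) = ringKrullDim R) →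
          (∀ (E : Type u) [AddCommGroup E] [Module R E] (f : M →ₗ[R] E) (g : E →ₗ[R] M),
              Function.Injective f → Function.Surjective g →
              LinearMap.range f = LinearMap.ker g →
              ∃ s : M →ₗ[R] E, g ∘ₗ s = LinearMap.id) →
          (s ≤ 1 ∨ ringKrullDim R ≤ 2 ∨
            (ringKrullDim R ≤ 4 ∧ IsIntegrallyClosed R ∧
              (∃ rs : List R, (∀ r ∈ rs, r ∈ IsLocalRing.maximalIdeal R) ∧
                RingTheory.Sequence.IsWeaklyRegular R rs ∧
                ((rs.length : ℕ∞) : WithBot ℕ∞) = ringKrullDim R) ∧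
              (∀ rs : List R, (∀ r ∈ rs, r ∈ IsLocalRing.maximalIdeal R) →
                ((rs.length : ℕ∞) : WithBot ℕ∞) = ringKrullDim R →
                IsLocalRing.maximalIdeal R ≤ (Ideal.ofList rs).radical →
                InfIrred (Ideal.ofList rs))) ∨
            (∃ rs : List R, (∀ r ∈ rs, r ∈ IsLocalRing.maximalIdeal R) ∧
              RingTheory.Sequence.IsWeaklyRegular (M →ₗ[R] M) rs ∧ rs.length = s + 2) ∨
            (∀ k : ℕ, 1 ≤ k → k ≤ s → Subsingleton
              (CategoryTheory.Abelian.Ext (ModuleCat.of R M) (ModuleCat.of R M) k))) →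
          Module.finrank R M ≤ N →
          ∃ p ∈ S, Nonempty (M ≃ₗ[R] (Fin p.1 → R) ⧸ p.2) := by
  intro R _ _ _ _ hcomplete hchar s hsing N
  -- the dimension is a natural number
  obtain ⟨h, hh⟩ : ∃ h : ℕ, (maximalIdeal R).height = h := by
    have h1 : (maximalIdeal R).height ≠ ⊤ := Ideal.height_ne_top_of_isPrime
    exact ⟨(maximalIdeal R).height.toNat, (ENat.natCast_toNat h1).symm⟩
  have hdim : ringKrullDim R = ((h : ℕ∞) : WithBot ℕ∞) := by
    rw [← IsLocalRing.maximalIdeal_height_eq_ringKrullDim, hh]
  -- coefficient fields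
  have hsec : ∃ σ : ResidueField R →+* R, ∀ y, residue R (σ y) = y := by
    rcases hchar with h0 | ⟨p, hp, hcp, hperf⟩
    · exact exists_section
    · have hfact : Fact p.Prime := ⟨hp⟩
      have hpk : ((p : ℕ) : ResidueField R) = 0 := by
        have h := congrArg (residue R) (CharP.cast_eq_zero R p)
        rwa [map_natCast, map_zero] at h
      have hck : CharP (ResidueField R) p := (CharP.charP_iff_prime_eq_zero hp).2 hpk
      have hper : PerfectRing (ResidueField R) p :=
        PerfectRing.ofSurjective (ResidueField R) p fun a => hperf a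
      exact exists_section_charP p
  -- uniform annihilators
  have hann : ∀ (P : Ideal R) [P.IsPrime], IsRegularLocalRing (Localization.AtPrime P) →
      ∃ z : R, z ∉ P ∧ ∀ (M : Type u) [AddCommGroup M] [Module R M] [Module.Finite R M],
        HasDepth R h M → StabAnn z M := by
    rcases hchar with h0 | ⟨p, hp, hcp, hperf⟩
    · exact fun P _ _ => exists_stabAnn_notMem P hh
    · have hfact : Fact p.Prime := ⟨hp⟩
      have hpk : ((p : ℕ) : ResidueField R) = 0 := by
        have h := congrArg (residue R) (CharP.cast_eq_zero R p)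
        rwa [map_natCast, map_zero] at h
      have hck : CharP (ResidueField R) p := (CharP.charP_iff_prime_eq_zero hp).2 hpk
      have hper : PerfectRing (ResidueField R) p :=
        PerfectRing.ofSurjective (ResidueField R) p fun a => hperf a
      exact fun P _ _ => exists_stabAnn_notMem_charP p P hh
  -- the finiteness statement for each bound on the dimension of the singular locus
  have key : ∀ t : ℕ, t ≤ h →
      (∀ (p : Ideal R) [p.IsPrime], ¬ IsRegularLocalRing (Localization.AtPrime p) →
        ringKrullDim (R ⧸ p) ≤ ((t : ℕ∞) : WithBot ℕ∞)) →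
      ∃ S : Set (Σ k : ℕ, Submodule R (Fin k → R)), S.Finite ∧
      ∀ (M : Type u) [AddCommGroup M] [Module R M], Module.Finite R M → Nontrivial M →
        HasDepth R h M →
        (∀ (E : Type u) [AddCommGroup E] [Module R E] (f : M →ₗ[R] E) (g : E →ₗ[R] M),
              Function.Injective f → Function.Surjective g →
              LinearMap.range f = LinearMap.ker g →
              ∃ s : M →ₗ[R] E, g ∘ₗ s = LinearMap.id) →
        Cond R t M → Module.finrank R M ≤ N →
        ∃ p ∈ S, Nonempty (M ≃ₗ[R] (Fin p.1 → R) ⧸ p.2) := by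
    intro t hth ht
    obtain ⟨d, rfl⟩ := Nat.exists_eq_add_of_le' hth
    obtain ⟨S, hS, hSM⟩ := finite_core hsec hh (fun P hP hJP => by
      have hnr : ¬ IsRegularLocalRing (Localization.AtPrime P) := by
        intro hreg
        obtain ⟨z, hz, hzM⟩ := hann P hreg
        exact hz (hJP z hzM)
      exact ht P hnr) N
    refine ⟨S, hS, fun M _ _ hfin _ hdep hrig hcond hrank => ?_⟩
    obtain ⟨rs, hrs, hreg, hlen⟩ := hdep
    exact hSM M hfin (isTorsionFree_of_depth hrs hreg (by rw [hdim, hlen]))
      ⟨rs, hrs, hreg, hlen⟩ hrig hcond hrank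
  -- the case in which the singular locus has dimension at most one
  have case1 : (∀ (p : Ideal R) [p.IsPrime], ¬ IsRegularLocalRing (Localization.AtPrime p) →
        ringKrullDim (R ⧸ p) ≤ 1) →
      ∃ S : Set (Σ k : ℕ, Submodule R (Fin k → R)), S.Finite ∧
      ∀ (M : Type u) [AddCommGroup M] [Module R M], Module.Finite R M → Nontrivial M →
        HasDepth R h M →
        (∀ (E : Type u) [AddCommGroup E] [Module R E] (f : M →ₗ[R] E) (g : E →ₗ[R] M),
              Function.Injective f → Function.Surjective g →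
              LinearMap.range f = LinearMap.ker g →
              ∃ s : M →ₗ[R] E, g ∘ₗ s = LinearMap.id) →
        Module.finrank R M ≤ N →
        ∃ p ∈ S, Nonempty (M ≃ₗ[R] (Fin p.1 → R) ⧸ p.2) := by
    intro h1
    obtain ⟨S, hS, hSM⟩ := key (min 1 h) (min_le_right _ _) (fun p _ hp => by
      rcases le_total 1 h with h2 | h2
      · rw [min_eq_left h2]
        exact h1 p hp
      · rw [min_eq_right h2, ← hdim]
        exact ringKrullDim_quotient_le p)
    exact ⟨S, hS, fun M _ _ hfin hnt hdep hrig hrank =>
      hSM M hfin hnt hdep hrig (Or.inl (min_le_left _ _)) hrank⟩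
  have hMCM : ∀ (M : Type u) [AddCommGroup M] [Module R M],
      (∃ rs : List R, (∀ r ∈ rs, r ∈ IsLocalRing.maximalIdeal R) ∧
              RingTheory.Sequence.IsWeaklyRegular M rs ∧
              ((rs.length : ℕ∞) : WithBot ℕ∞) = ringKrullDim R) → HasDepth R h M := by
    rintro M _ _ ⟨rs, hrs, hreg, hlen⟩
    refine ⟨rs, hrs, hreg, ?_⟩
    rw [hdim] at hlen
    exact_mod_cast hlen
  by_cases hA : s ≤ 1 ∨ ringKrullDim R ≤ 2
  · obtain ⟨S, hS, hSM⟩ := case1 (fun p _ hp => by
      rcases hA with hs | h2
      · refine (hsing p hp).trans ?_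
        exact_mod_cast hs
      · exact dim_quotient_le_one h2 p hp)
    exact ⟨S, hS, fun M _ _ hfin hnt hdep hrig _ hrank =>
      hSM M hfin hnt (hMCM M hdep) hrig hrank⟩
  by_cases hB : ringKrullDim R ≤ 4 ∧ IsIntegrallyClosed R ∧
              (∃ rs : List R, (∀ r ∈ rs, r ∈ IsLocalRing.maximalIdeal R) ∧
                RingTheory.Sequence.IsWeaklyRegular R rs ∧
                ((rs.length : ℕ∞) : WithBot ℕ∞) = ringKrullDim R) ∧
              (∀ rs : List R, (∀ r ∈ rs, r ∈ IsLocalRing.maximalIdeal R) →
                ((rs.length : ℕ∞) : WithBot ℕ∞) = ringKrullDim R →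
                IsLocalRing.maximalIdeal R ≤ (Ideal.ofList rs).radical →
                InfIrred (Ideal.ofList rs))
  · obtain ⟨h4, hnormal, hRdepth, hirr⟩ := hB
    have hle : ∀ n : ℕ, ((h : ℕ∞) : WithBot ℕ∞) ≤ ((n : ℕ∞) : WithBot ℕ∞) ↔ h ≤ n := fun n => by
      rw [WithBot.coe_le_coe, Nat.cast_le]
    have h4' : h ≤ 4 := by
      rw [hdim] at h4
      exact (hle 4).mp h4
    rcases Nat.lt_or_ge h 4 with h3 | h3
    · obtain ⟨S, hS, hSM⟩ := case1 (fun p _ hp => by
        have h1 := dim_quotient_add_two_le p hp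
        have h2 : ringKrullDim R ≤ (1 : WithBot ℕ∞) + 1 + 1 := by
          rw [hdim]
          exact ((hle 3).mpr (by omega)).trans (le_of_eq (by norm_num))
        exact ENat.WithBot.add_le_add_one_right_iff.mp
          (ENat.WithBot.add_le_add_one_right_iff.mp (h1.trans h2)))
      exact ⟨S, hS, fun M _ _ hfin hnt hdep hrig _ hrank =>
        hSM M hfin hnt (hMCM M hdep) hrig hrank⟩
    · obtain rfl : h = 2 + 2 := le_antisymm h4' h3
      have hs2 : ∀ (p : Ideal R) [p.IsPrime], ¬ IsRegularLocalRing (Localization.AtPrime p) →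
          ringKrullDim (R ⧸ p) ≤ (((2 : ℕ) : ℕ∞) : WithBot ℕ∞) := by
        intro p _ hp
        have h1 := dim_quotient_add_two_le p hp
        have h2 : ringKrullDim R ≤ (((2 : ℕ) : ℕ∞) : WithBot ℕ∞) + 1 + 1 := by
          rw [hdim]
          have h5 : 2 + 2 ≤ 2 + 1 + 1 := by omega
          exact_mod_cast h5
        exact ENat.WithBot.add_le_add_one_right_iff.mp
          (ENat.WithBot.add_le_add_one_right_iff.mp (h1.trans h2))
      obtain ⟨S, hS, hSM⟩ := key 2 (by norm_num) hs2
      refine ⟨S, hS, fun M _ _ hfin hnt hdep hrig _ hrank =>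
        hSM M hfin hnt (hMCM M hdep) hrig (Or.inr (Or.inl ?_)) hrank⟩
      refine hasDepth_end_of_irred hsec hh (fun P hP hJP => ?_) (hMCM R hRdepth)
        (fun rs hlen hmem hrad => hirr rs hmem (by rw [hdim, hlen]) hrad) (hMCM M hdep) hrig
      have hnr : ¬ IsRegularLocalRing (Localization.AtPrime P) := by
        intro hreg
        obtain ⟨z, hz, hzM⟩ := hann P hreg
        exact hz (hJP z hzM)
      exact hs2 P hnr
  · obtain ⟨S, hS, hSM⟩ := key (min s h) (min_le_right _ _) (fun p _ hp => by
      rcases le_total s h with h2 | h2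
      · rw [min_eq_left h2]
        exact hsing p hp
      · rw [min_eq_right h2, ← hdim]
        exact ringKrullDim_quotient_le p)
    refine ⟨S, hS, fun M _ _ hfin hnt hdep hrig hcond hrank =>
      hSM M hfin hnt (hMCM M hdep) hrig ?_ hrank⟩
    rcases hcond with h1 | h1 | h1 | h1 | h1
    · exact absurd (Or.inl h1) hA
    · exact absurd (Or.inr h1) hA
    · exact absurd h1 hB
    · obtain ⟨rs, hrs, hreg, hlen⟩ := h1
      have h2 : HasDepth R (s + 2) (M →ₗ[R] M) := ⟨rs, hrs, hreg, hlen⟩
      exact Or.inr (Or.inl (h2.mono (by have := min_le_left s h; omega)))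
    · exact Or.inr (Or.inr fun k h2 h3 => h1 k h2 (h3.trans (min_le_left _ _)))

end Pool.Agent.Lib.MP_682396_ag
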