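import Pool.Agent.Lib.MP_682396_ag.Gen.E1
import Pool.Agent.Lib.MP_682396_ag.Gen.E2
import Pool.Agent.Lib.MP_682396_ag.Gen.E3
import Pool.Agent.Lib.MP_682396_ag.Gen.F
import Pool.Agent.Lib.MP_682396_ag.Gen.SeqIso
import Pool.Agent.Lib.MP_682396_ag.Gen.ExtTFLift
import Pool.Agent.Lib.MP_682396_ag.Gen.ExtCase

/-!
# Sequences of rigid modules over complete local domains
-/

set_option autoImplicit false
set_option linter.unusedSectionVars false

open Module IsLocalRing RingTheory.Sequence
open scoped Pointwise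

universe u v

namespace Pool.Agent.Lib.MP_682396_ag

open Tw

section LiftRed

variable {s : ℕ} {K : Type u} [Field K] {d : ℕ} {R : Type u} [CommRing R] [IsNoetherianRing R]
  [IsLocalRing R] [IsAdicComplete (maximalIdeal R) R]
  [Algebra (MvPowerSeries (Fin s) K) R]

/-- The images of the distinguished variables. -/
noncomputable def fsD (K : Type*) [Field K] (s : ℕ) (R : Type*) [CommRing R]
    [Algebra (MvPowerSeries (Fin s) K) R] (j : Fin s) : R :=
  algebraMap (MvPowerSeries (Fin s) K) R (MvPowerSeries.X j)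

theorem map_maximalIdeal_eq : (maximalIdeal (MvPowerSeries (Fin s) K)).map
    (algebraMap (MvPowerSeries (Fin s) K) R) = Ideal.ofList (List.ofFn (fsD K s R)) := by
  rw [← ofList_X, Ideal.map_ofList, List.map_ofFn]
  rfl

/-- Homomorphisms to the reduction lift when the endomorphism ring has large depth. -/
theorem liftRed_of_depth (hd : (maximalIdeal R).height = ((d + s : ℕ) : ℕ∞)) (x : Fin d → R)
    (hx : ∀ l, x l ∈ maximalIdeal R) (hf : ∀ j, fsD K s R j ∈ maximalIdeal R)
    (hrad : maximalIdeal R ≤ (Ideal.span (Set.range x) ⊔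
      Ideal.span (Set.range (fsD K s R))).radical)
    {M : Type u} [AddCommGroup M] [Module R M] [Module.Finite R M]
    (hdepth : HasDepth R (d + s) M) (hst : ∀ l, StabAnn (x l) M)
    (hE : HasDepth R (s + 2) (M →ₗ[R] M))
    (φ : M →ₗ[R] M ⧸ redSub (maximalIdeal (MvPowerSeries (Fin s) K)) R M) :
    ∃ e : M →ₗ[R] M, ∀ m, Submodule.Quotient.mk (e m) = φ m := by
  rcases subsingleton_or_nontrivial M with hM | hM
  · have hq : Subsingleton (M ⧸ redSub (maximalIdeal (MvPowerSeries (Fin s) K)) R M) :=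
      (Submodule.Quotient.mk_surjective _).subsingleton
    exact ⟨0, fun m => Subsingleton.elim _ _⟩
  have hEn : Nontrivial (M →ₗ[R] M) := by
    refine ⟨LinearMap.id, 0, fun h => ?_⟩
    obtain ⟨m, hm⟩ := exists_ne (0 : M)
    exact hm (LinearMap.congr_fun h m)
  have hd2 : 2 ≤ d := by
    obtain ⟨rs, hmem, hreg, hlen⟩ := hE
    obtain ⟨P, hP⟩ := associatedPrimes.nonempty R (M →ₗ[R] M)
    have h1 := le_dim_of_mem_ass rs (M →ₗ[R] M) hmem hreg P hP
    have h2 : ringKrullDim (R ⧸ P) ≤ (((d + s : ℕ) : ℕ∞) : WithBot ℕ∞) := by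
      rw [← hd, IsLocalRing.maximalIdeal_height_eq_ringKrullDim]
      exact ringKrullDim_quotient_le P
    have h3 := h1.trans h2
    rw [hlen] at h3
    have h4 : s + 2 ≤ d + s := by exact_mod_cast h3
    omega
  obtain ⟨d, rfl⟩ := Nat.exists_eq_add_of_le' hd2
  let fs : List R := List.ofFn (fsD K s R)
  have hxs : List.ofFn x = [x 0, x 1] ++ List.ofFn (fun l : Fin d => x l.succ.succ) := by
    rw [List.ofFn_succ, List.ofFn_succ]
    rfl
  have hsop : IsWeaklyRegular M (fs ++ List.ofFn x) := by
    obtain ⟨rs, hmem, hreg, hlen⟩ := hdepth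
    apply isWeaklyRegular_of_sop (fs ++ List.ofFn x) M rs _ hmem hreg
    · intro y hy
      rcases List.mem_append.mp hy with hy | hy
      · rw [List.mem_ofFn] at hy
        obtain ⟨l, rfl⟩ := hy
        exact hf l
      · rw [List.mem_ofFn] at hy
        obtain ⟨l, rfl⟩ := hy
        exact hx l
    · refine hrad.trans (Ideal.radical_mono ?_)
      rw [Ideal.ofList_append, ofList_ofFn, ofList_ofFn, sup_comm]
      exact le_sup_right
    · rw [hlen, List.length_append, List.length_ofFn, List.length_ofFn, add_comm]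
  have hM2 : IsWeaklyRegular M (fs ++ [x 0, x 1]) := by
    rw [hxs, ← List.append_assoc] at hsop
    exact ((isWeaklyRegular_append_iff M _ _).mp hsop).1
  have hM1 : IsWeaklyRegular M (fs ++ [x 0]) := by
    have h1 : fs ++ [x 0, x 1] = (fs ++ [x 0]) ++ [x 1] := by
      rw [List.append_assoc]
      rfl
    rw [h1] at hM2
    exact ((isWeaklyRegular_append_iff M _ _).mp hM2).1
  have hlen : (fs ++ [x 0, x 1]).length = s + 2 := by
    rw [List.length_append, List.length_ofFn]
    rfl
  have hE2 : IsWeaklyRegular (M →ₗ[R] M) (fs ++ [x 0, x 1]) := by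
    apply isWeaklyRegular_end (List.ofFn x) fs [x 0, x 1]
    · intro z hz
      rw [List.mem_ofFn] at hz
      obtain ⟨l, rfl⟩ := hz
      exact hst l
    · intro y hy
      rcases List.mem_append.mp hy with hy | hy
      · rw [List.mem_ofFn] at hy
        obtain ⟨l, rfl⟩ := hy
        exact hf l
      · simp only [List.mem_cons, List.not_mem_nil, or_false] at hy
        rcases hy with rfl | rfl
        · exact hx _
        · exact hx _
    · rw [ofList_ofFn, ofList_ofFn]
      exact hrad
    · exact hM2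
    · rw [hlen]
      exact hE
  have key : ∀ (N : Submodule R M), N = Ideal.ofList fs • (⊤ : Submodule R M) →
      ∀ φ : M →ₗ[R] M ⧸ N, ∃ e : M →ₗ[R] M, ∀ m, Submodule.Quotient.mk (e m) = φ m := by
    rintro _ rfl φ
    exact exists_lift_mod fs (x 0) (x 1) (hst 0) (hst 1) hM1 hE2 φ
  refine key _ ?_ φ
  unfold redSub
  rw [map_maximalIdeal_eq]

/-- Homomorphisms to the reduction lift when the first self-extensions vanish. -/
theorem liftRed_of_ext (x : Fin d → R)
    (hx : ∀ l, x l ∈ maximalIdeal R) (hf : ∀ j, fsD K s R j ∈ maximalIdeal R)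
    (hrad : maximalIdeal R ≤ (Ideal.span (Set.range x) ⊔
      Ideal.span (Set.range (fsD K s R))).radical)
    {M : Type u} [AddCommGroup M] [Module R M] [Module.Finite R M]
    (hdepth : HasDepth R (d + s) M)
    (hE : ∀ i, 1 ≤ i → i ≤ s →
      Subsingleton (CategoryTheory.Abelian.Ext (ModuleCat.of R M) (ModuleCat.of R M) i))
    (φ : M →ₗ[R] M ⧸ redSub (maximalIdeal (MvPowerSeries (Fin s) K)) R M) :
    ∃ e : M →ₗ[R] M, ∀ m, Submodule.Quotient.mk (e m) = φ m := by
  let fs : List R := List.ofFn (fsD K s R)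
  have hsop : IsWeaklyRegular M (fs ++ List.ofFn x) := by
    obtain ⟨rs, hmem, hreg, hlen⟩ := hdepth
    apply isWeaklyRegular_of_sop (fs ++ List.ofFn x) M rs _ hmem hreg
    · intro y hy
      rcases List.mem_append.mp hy with hy | hy
      · rw [List.mem_ofFn] at hy
        obtain ⟨l, rfl⟩ := hy
        exact hf l
      · rw [List.mem_ofFn] at hy
        obtain ⟨l, rfl⟩ := hy
        exact hx l
    · refine hrad.trans (Ideal.radical_mono ?_)
      rw [Ideal.ofList_append, ofList_ofFn, ofList_ofFn, sup_comm]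
      exact le_sup_right
    · rw [hlen, List.length_append, List.length_ofFn, List.length_ofFn, add_comm]
  have hfs : IsWeaklyRegular M fs := ((isWeaklyRegular_append_iff M _ _).mp hsop).1
  have hlen : fs.length = s := List.length_ofFn
  have key : ∀ (N : Submodule R M), N = Ideal.ofList fs • (⊤ : Submodule R M) →
      ∀ φ : M →ₗ[R] M ⧸ N, ∃ e : M →ₗ[R] M, ∀ m, Submodule.Quotient.mk (e m) = φ m := by
    rintro _ rfl φ
    exact exists_lift_mod_of_ext fs M M hfs (fun i h1 h2 => hE i h1 (by rw [← hlen]; exact h2)) φ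
  refine key _ ?_ φ
  unfold redSub
  rw [map_maximalIdeal_eq]

end LiftRed

section Base

variable {s : ℕ} {K : Type u} [Field K]

/-- Power series rings in at most one variable are principal ideal domains. -/
theorem isPrincipalIdealRing_mvPowerSeries (hs : s ≤ 1) :
    IsPrincipalIdealRing (MvPowerSeries (Fin s) K) := by
  have hdom : IsDomain (MvPowerSeries (Fin s) K) := NoZeroDivisors.to_isDomain _
  have h1 : (maximalIdeal (MvPowerSeries (Fin s) K)).IsPrincipal := by
    rw [← ofList_X]
    rcases Nat.le_one_iff_eq_zero_or_eq_one.mp hs with rfl | rfl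
    · rw [List.ofFn_zero, Ideal.ofList_nil]
      exact bot_isPrincipal
    · rw [List.ofFn_succ, List.ofFn_zero, Ideal.ofList_singleton]
      exact ⟨⟨_, rfl⟩⟩
  exact ((tfae_of_isNoetherianRing_of_isLocalRing_of_isDomain
    (MvPowerSeries (Fin s) K)).out 4 0).mp h1

end Base

/-- Modules of maximal depth are free over the power series ring. -/
theorem free_of_depthG {s : ℕ} {K : Type u} [Field K] {d : ℕ}
    {R : Type u} [CommRing R] [IsNoetherianRing R] [IsLocalRing R]
    [IsAdicComplete (maximalIdeal R) R] [Algebra (MvPowerSeries (Fin s) K) R]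
    [Algebra (MvPowerSeries (Fin d) (MvPowerSeries (Fin s) K)) R]
    [IsScalarTower (MvPowerSeries (Fin s) K) (MvPowerSeries (Fin d) (MvPowerSeries (Fin s) K)) R]
    [Module.Finite (MvPowerSeries (Fin d) (MvPowerSeries (Fin s) K)) R]
    (hx : ∀ l, xsD (MvPowerSeries (Fin s) K) d R l ∈ maximalIdeal R)
    (hf : ∀ j, fsD K s R j ∈ maximalIdeal R)
    (hrad : maximalIdeal R ≤ (Ideal.span (Set.range (xsD (MvPowerSeries (Fin s) K) d R)) ⊔
      Ideal.span (Set.range (fsD K s R))).radical)
    {M : Type u} [AddCommGroup M] [Module R M] [Module.Finite R M]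
    [Module (MvPowerSeries (Fin d) (MvPowerSeries (Fin s) K)) M]
    [IsScalarTower (MvPowerSeries (Fin d) (MvPowerSeries (Fin s) K)) R M]
    (hdepth : HasDepth R (d + s) M) :
    Module.Finite (MvPowerSeries (Fin d) (MvPowerSeries (Fin s) K)) M ∧
      Module.Free (MvPowerSeries (Fin d) (MvPowerSeries (Fin s) K)) M := by
  obtain ⟨rs, hmem, hreg, hlen⟩ := hdepth
  have hfin : Module.Finite (MvPowerSeries (Fin d) (MvPowerSeries (Fin s) K)) M :=
    Module.Finite.trans R M
  refine ⟨hfin, ?_⟩
  let D := MvPowerSeries (Fin s) K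
  let Λ := MvPowerSeries (Fin d) D
  have h1 : IsWeaklyRegular M (List.ofFn (fsD K s R) ++ List.ofFn (xsD D d R)) := by
    apply isWeaklyRegular_of_sop (List.ofFn (fsD K s R) ++ List.ofFn (xsD D d R)) M rs _ hmem hreg
    · intro y hy
      rcases List.mem_append.mp hy with hy | hy
      · rw [List.mem_ofFn] at hy
        obtain ⟨l, rfl⟩ := hy
        exact hf l
      · rw [List.mem_ofFn] at hy
        obtain ⟨l, rfl⟩ := hy
        exact hx l
    · refine hrad.trans (Ideal.radical_mono ?_)
      rw [Ideal.ofList_append, ofList_ofFn, ofList_ofFn, sup_comm]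
      exact le_sup_right
    · rw [hlen, List.length_append, List.length_ofFn, List.length_ofFn, add_comm]
  have h2 : List.ofFn (fsD K s R) ++ List.ofFn (xsD D d R) =
      ((List.ofFn fun j : Fin s => (MvPowerSeries.X j : D)).map
        (MvPowerSeries.C : D →+* MvPowerSeries (Fin d) D) ++
      List.ofFn fun l : Fin d => (MvPowerSeries.X l : Λ)).map (algebraMap Λ R) := by
    rw [List.map_append, List.map_ofFn, List.map_ofFn, List.map_ofFn]
    congr 1
    congr 1
    funext j
    show algebraMap D R (MvPowerSeries.X j) = algebraMap Λ R (MvPowerSeries.C (MvPowerSeries.X j))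
    rw [IsScalarTower.algebraMap_apply D Λ R, ← MvPowerSeries.c_eq_algebraMap]
  rw [h2, isWeaklyRegular_map_algebraMap_iff] at h1
  exact free_of_isWeaklyRegular _ Λ M _ rfl (ofList_X_append _ ofList_X) h1

/-- Among infinitely many rigid modules of maximal depth and the same rank two are isomorphic, if
the endomorphism rings have large depth. -/
theorem exists_iso_of_seq_gen {R : Type u} [CommRing R] [IsDomain R] [IsNoetherianRing R]
    [IsLocalRing R] [IsAdicComplete (maximalIdeal R) R]
    (hsec : ∃ σ : ResidueField R →+* R, ∀ y, residue R (σ y) = y) {d s : ℕ}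
    (hd : (maximalIdeal R).height = ((d + s : ℕ) : ℕ∞))
    (hJ : ∀ P : Ideal R, P.IsPrime → (∀ z : R, (∀ (M : Type u) [AddCommGroup M] [Module R M]
      [Module.Finite R M], HasDepth R (d + s) M → StabAnn z M) → z ∈ P) →
      ringKrullDim (R ⧸ P) ≤ (s : WithBot ℕ∞))
    (M : ℕ → Type u) [∀ i, AddCommGroup (M i)] [∀ i, Module R (M i)]
    [∀ i, Module.Finite R (M i)] [∀ i, IsTorsionFree R (M i)]
    (hdepth : ∀ i, HasDepth R (d + s) (M i))
    (n : ℕ) (hn : ∀ i, finrank R (M i) = n)
    (hrig : ∀ i (E : Type u) [AddCommGroup E] [Module R E] (f : M i →ₗ[R] E) (g : E →ₗ[R] M i),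
      Function.Injective f → Function.Surjective g →
      LinearMap.range f = LinearMap.ker g → ∃ s : M i →ₗ[R] E, g ∘ₗ s = LinearMap.id)
    (hcond : ∀ i, s ≤ 1 ∨ HasDepth R (s + 2) (M i →ₗ[R] M i) ∨ (∀ k, 1 ≤ k → k ≤ s →
      Subsingleton (CategoryTheory.Abelian.Ext (ModuleCat.of R (M i)) (ModuleCat.of R (M i)) k))) :
    ∃ i j, i ≠ j ∧ Nonempty (M i ≃ₗ[R] M j) := by
  let J : Ideal R :=
    { carrier := {z | ∀ (M : Type u) [AddCommGroup M] [Module R M] [Module.Finite R M],
        HasDepth R (d + s) M → StabAnn z M}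
      zero_mem' := fun M _ _ _ _ => StabAnn.zero
      add_mem' := fun {a b} ha hb M _ _ _ hM => (ha M hM).add (hb M hM)
      smul_mem' := fun c z hz M _ _ _ hM => (hz M hM).smul c }
  obtain ⟨x, f, hxJ, hfm, hrad⟩ := exists_params_dim hd J (fun P hP hJP => hJ P hP hJP)
  have hx : ∀ l, x l ∈ maximalIdeal R := fun l => (hxJ l).2
  have hst : ∀ (M : Type u) [AddCommGroup M] [Module R M] [Module.Finite R M],
      HasDepth R (d + s) M → ∀ l, StabAnn (x l) M := fun M _ _ _ hM l => (hxJ l).1 M hM
  let K := ResidueField R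
  let D := MvPowerSeries (Fin s) K
  let Λ := MvPowerSeries (Fin d) D
  -- algebra structures
  obtain ⟨σ, hσ⟩ := hsec
  let _ : Algebra K R := σ.toAlgebra
  have hres : ∀ r : R, ∃ c : K, r - algebraMap K R c ∈ maximalIdeal R := by
    intro r
    refine ⟨residue R r, ?_⟩
    rw [← residue_eq_zero_iff, map_sub]
    show residue R r - residue R (σ (residue R r)) = 0
    rw [hσ, sub_self]
  obtain ⟨iD, htowD, hXD⟩ := exists_algebra_eval (B := K) (maximalIdeal R) f hfm
  let _ : Algebra D R := iD
  have htowD' : IsScalarTower K D R := htowD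
  have hfs : fsD K s R = f := funext hXD
  obtain ⟨iΛ, htowΛ, hXΛ⟩ := exists_algebra_eval (B := D) (maximalIdeal R) x hx
  let _ : Algebra Λ R := iΛ
  have htowΛ' : IsScalarTower D Λ R := htowΛ
  have hxs : xsD D d R = x := funext hXΛ
  have hxm : ∀ l, xsD D d R l ∈ maximalIdeal R := fun l => by rw [hxs]; exact hx l
  have hftm : ∀ j, fsD K s R j ∈ maximalIdeal R := fun j => by rw [hfs]; exact hfm j
  have hDc : IsAdicComplete (maximalIdeal D) D := isAdicComplete_maximalIdeal_mvPowerSeries
  have hDdom : IsDomain D := NoZeroDivisors.to_isDomain _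
  have hrad' : maximalIdeal R ≤
      (Ideal.span (Set.range (xsD D d R)) ⊔ Ideal.span (Set.range (fsD K s R))).radical := by
    rw [hxs, hfs]
    exact hrad
  have hxle : Ideal.span (Set.range (xsD D d R)) ≤ maximalIdeal R := by
    rw [Ideal.span_le]
    rintro _ ⟨l, rfl⟩
    exact hxm l
  have hfinΛ : Module.Finite Λ R := by
    refine finite_of_finite_quotientD (B := D) (σ := Fin d) (R := R)
      (Ideal.span (Set.range (xsD D d R))) rfl ?_ ?_
    · exact finite_quotient_mvPowerSeries hres hftm _ hxle hrad'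
    · apply IsHausdorff.of_isLocalRing
      intro h
      rw [h] at hxle
      exact (maximalIdeal.isMaximal R).ne_top (top_le_iff.mp hxle)
  let _ : ∀ i, Module Λ (M i) := fun i => Module.compHom (M i) (algebraMap Λ R)
  have _ : ∀ i, IsScalarTower Λ R (M i) := fun i => IsScalarTower.of_algebraMap_smul fun _ _ => rfl
  have hfree : ∀ i, Module.Finite Λ (M i) ∧ Module.Free Λ (M i) := fun i =>
    free_of_depthG hxm hftm hrad' (hdepth i)
  have _ : ∀ i, Module.Finite Λ (M i) := fun i => (hfree i).1
  have _ : ∀ i, Module.Free Λ (M i) := fun i => (hfree i).2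
  -- the ranks over the power series ring are bounded
  have hΛdom : IsDomain Λ := NoZeroDivisors.to_isDomain _
  have hbound : ∀ i, finrank Λ (M i) < finrank Λ (Fin n → R) + 1 := by
    intro i
    have h1 := exists_embedding (R := R) (M i)
    rw [hn i] at h1
    obtain ⟨f, hf⟩ := h1
    have h2 : Function.Injective (f.restrictScalars Λ) := hf
    exact Nat.lt_succ_of_le (LinearMap.finrank_le_finrank_of_injective h2)
  obtain ⟨N, hN⟩ := Finite.exists_infinite_fiber
    (fun i : ℕ => (⟨finrank Λ (M i), hbound i⟩ : Fin (finrank Λ (Fin n → R) + 1)))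
  let e := Infinite.natEmbedding ((fun i : ℕ => (⟨finrank Λ (M i), hbound i⟩ :
    Fin (finrank Λ (Fin n → R) + 1))) ⁻¹' {N})
  have he : ∀ i, finrank Λ (M (e i)) = N.val := by
    intro i
    have h1 := (e i).2
    rw [Set.mem_preimage, Set.mem_singleton_iff] at h1
    exact congrArg Fin.val h1
  let b : ∀ i, Basis (Fin N.val) Λ (M (e i)) := fun i => finBasisOfFinrankEq Λ (M (e i)) (he i)
  -- a finite spanning set modulo the fifth level
  let J5 : Ideal R := lev (xsD D d R) R fun _ => 5
  have hlevle : J5 ≤ maximalIdeal R := by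
    show lev (xsD D d R) R (fun _ => 5) ≤ maximalIdeal R
    unfold lev
    apply iSup_le
    intro l r hr
    obtain ⟨w, -, rfl⟩ := Submodule.mem_smul_pointwise_iff_exists _ _ _ |>.mp hr
    rw [smul_eq_mul]
    exact Ideal.mul_mem_right _ _ (Ideal.pow_mem_of_mem _ (hxm l) _ (by norm_num))
  have hlevrad : maximalIdeal R ≤ (J5 ⊔
      Ideal.span (Set.range (fsD K s R))).radical := by
    refine hrad'.trans ?_
    rw [Ideal.radical_le_radical_iff]
    refine sup_le ?_ (le_sup_right.trans Ideal.le_radical)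
    rw [Ideal.span_le]
    rintro _ ⟨l, rfl⟩
    refine ⟨5, Ideal.mem_sup_left ?_⟩
    have h1 := pow_smul_mem_lev (x := xsD D d R) (fun _ => 5) l (1 : R)
    rw [smul_eq_mul, mul_one] at h1
    exact h1
  have hfinJ : Module.Finite D (R ⧸ J5) :=
    finite_quotient_mvPowerSeries hres hftm J5 hlevle hlevrad
  obtain ⟨m, f₀, hf₀⟩ := Module.Finite.exists_fin' D (R ⧸ J5)
  choose r hr using fun j : Fin m => Ideal.Quotient.mk_surjective (I := J5) (f₀ (Pi.single j 1))
  have hspan : ∀ r' : R, ∃ c : Fin m → D,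
      r' - ∑ k, algebraMap D R (c k) * r k ∈ lev (xsD D d R) R fun _ => 5 := by
    intro r'
    obtain ⟨c, hc⟩ := hf₀ (Ideal.Quotient.mk J5 r')
    refine ⟨c, ?_⟩
    show r' - ∑ k, algebraMap D R (c k) * r k ∈ J5
    rw [← Ideal.Quotient.eq, ← hc, map_sum]
    have h2 : c = ∑ j, c j • Pi.single j 1 := by
      conv_lhs => rw [← Finset.univ_sum_single c]
      refine Finset.sum_congr rfl fun j _ => ?_
      rw [← Pi.single_smul, smul_eq_mul, mul_one]
    conv_lhs => rw [h2]
    rw [map_sum]
    refine Finset.sum_congr rfl fun j _ => ?_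
    rw [map_smul f₀, ← hr j, ← algebraMap_smul R]
    rfl
  let p : D →ₐ[K] K :=
    { (MvPowerSeries.constantCoeff : D →+* K) with
      commutes' := fun c => MvPowerSeries.constantCoeff_C c }
  have hp : ∀ c : D, p c = 0 ↔ c ∈ maximalIdeal D := by
    intro c
    rw [mem_maximalIdeal, mem_nonunits_iff, MvPowerSeries.isUnit_iff_constantCoeff,
      isUnit_iff_ne_zero, not_not]
    exact Iff.rfl
  have hloc : ∀ c ∈ maximalIdeal D, algebraMap D R c ∈ maximalIdeal R := by
    have h1 : (maximalIdeal D).map (algebraMap D R) ≤ maximalIdeal R := by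
      rw [map_maximalIdeal_eq, ofList_ofFn, Ideal.span_le]
      rintro _ ⟨j, rfl⟩
      exact hftm j
    intro c hc
    exact h1 (Ideal.mem_map_of_mem _ hc)
  have hstM : ∀ i l, StabAnn (xsD D d R l) (M (e i)) := fun i l => by
    rw [hxs]
    exact hst (M (e i)) (hdepth _) l
  have hTF : ∀ i (b' : Basis (Fin N.val) Λ (M (e i))) (C : CoordD D (Fin N.val) (xsD D d R) (M (e i))),
      (∀ m a, C.θ m a = (b'.repr m a.1).coeff (expo a.2)) → ExtTF C := by
    intro i b' C hC
    rcases hcond (e i) with hs | hE | hE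
    · have hpid : IsPrincipalIdealRing D := isPrincipalIdealRing_mvPowerSeries hs
      exact extTF_of_pid C (hstM i) (regSys_of_basisD b') (hrig (e i))
    · refine extTF_of_liftProp b' C hC (hstM i) (hrig (e i)) fun k W => ?_
      apply liftProp_all b' hloc
      exact liftRed_of_depth hd (xsD D d R) hxm hftm hrad' (hdepth _) (hstM i) hE
    · refine extTF_of_liftProp b' C hC (hstM i) (hrig (e i)) fun k W => ?_
      apply liftProp_all b' hloc
      exact liftRed_of_ext (xsD D d R) hxm hftm hrad' (hdepth _) hE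
  obtain ⟨i, j, hij, ψ, hψ⟩ := exists_surjective_seq2 p hp hxm r hspan
    (fun i => M (e i)) b hstM hTF
  refine ⟨e i, e j, fun h => hij (e.injective (Subtype.ext h)), ?_⟩
  exact ⟨LinearEquiv.ofBijective ψ
    ⟨injective_of_surjective_of_finrank_eq (by rw [hn, hn]) ψ hψ, hψ⟩⟩

end Pool.Agent.Lib.MP_682396_ag
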