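import Mathlib

/-!
# Splitting of extensions by the base ring
-/

set_option autoImplicit false

universe u

namespace Pool.Agent.Lib.MP_682396_ag

/-- All extensions of `E` by `A` split. -/
def SplitsExt (A : Type u) [CommRing A] (E : Type u) [AddCommGroup E] [Module A E] : Prop :=
  ∀ (X : Type u) [AddCommGroup X] [Module A X] (i : A →ₗ[A] X) (p : X →ₗ[A] E),
    Function.Injective i → Function.Surjective p → LinearMap.range i = LinearMap.ker p →
    ∃ s : E →ₗ[A] X, p ∘ₗ s = LinearMap.id

end Pool.Agent.Lib.MP_682396_ag
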