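import Pool.Agent.Lib.MP_682396_ag.Curve.SeqAlg
import Pool.Agent.Lib.MP_682396_ag.Gen.Inter
import Pool.Agent.Lib.MP_682396_ag.CharP.P5

/-!
# Finitely many reductions up to similarity
-/

set_option autoImplicit false
set_option linter.unusedSectionVars false

open Module IsLocalRing
open scoped Pointwise

universe u v w

namespace Pool.Agent.Lib.MP_682396_ag

open Tw

section StepA

variable {D : Type u} [CommRing D] [IsDomain D] [IsNoetherianRing D] [IsLocalRing D]
  [IsAdicComplete (maximalIdeal D) D] {K : Type*} [Field K] [Algebra K D]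
  (p : D →ₐ[K] K) (hp : ∀ c, p c = 0 ↔ c ∈ maximalIdeal D)
  {R : Type u} [CommRing R] [Algebra D R] {Q : Type*} [Fintype Q]
  [DecidableEq Q] {d : ℕ} {x : Fin d → R} {n : ℕ} (r : Fin n → R)
  (hspan : ∀ r' : R, ∃ c : Fin n → D,
      r' - ∑ k, algebraMap D R (c k) * r k ∈ lev x R fun _ => 5)
  (M : ℕ → Type u)
  [∀ i, AddCommGroup (M i)] [∀ i, Module R (M i)] [∀ i, Module.Finite R (M i)]
  (C : ∀ i, CoordD D Q x (M i)) (hst : ∀ i l, StabAnn (x l) (M i)) (hTF : ∀ i, ExtTF (C i))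

include hp hspan hst hTF in
theorem exists_infinite_similar_inf [Infinite K] :
    ∃ T : Set ℕ, T.Infinite ∧ ∀ i ∈ T, ∀ j ∈ T, ∃ g : Matrix (Ix2 Q d) (Ix2 Q d) K, g.det ≠ 0 ∧
      ∀ k (a b : Ix2 Q d), ∑ b', p ((C j).ρ (r k) a.1 b'.1) * g b' b =
        ∑ b', g a b' * p ((C i).ρ (r k) b'.1 b.1) := by
  let A := seqAlg r C
  have hAN : IsNoetherianRing A := seqAlg_isNoetherianRing r C
  obtain ⟨ρ, hρ, hx, hρD⟩ := exists_seqRho r C hspan
  obtain ⟨fset, hfset⟩ := (IsNoetherian.noetherian (maximalIdeal D) : (maximalIdeal D).FG)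
  let fs : List D := fset.toList
  have hfs : ∀ f ∈ fs, f ∈ maximalIdeal D := by
    intro f hf
    rw [← hfset]
    exact Ideal.subset_span (Finset.mem_toList.mp hf)
  obtain ⟨S, hS, hprime⟩ := exists_finite_primes_list.{u, u} A (fs.map (algebraMap D A))
  let F : Fin n → Matrix (Ix2 Q d) (Ix2 Q d) A := fun k => Matrix.of fun a b => ρ (r k) a.1 b.1
  let H : ℕ → Fin n → Matrix (Ix2 Q d) (Ix2 Q d) A := fun i k => Matrix.of fun a b =>
    algebraMap D A ((C i).ρ (r k) a.1 b.1)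
  let φA : K →+* A := (algebraMap D A).comp (algebraMap K D)
  have key : ∀ i : ℕ, ∃ m : Ideal A, m ∈ S ∧ maximalIdeal D ≤ m.comap (algebraMap D A) ∧
      ∃ _ : m.IsPrime,
      ∃ g' : Matrix (Ix2 Q d) (Ix2 Q d) m.ResidueField, g'.det ≠ 0 ∧
      ∀ k, (F k).map (algebraMap A m.ResidueField) * g' =
        g' * (H i k).map (algebraMap A m.ResidueField) := by
    intro i
    let _ : Algebra K A := φA.toAlgebra
    have hmax : (seqMax r C p i).IsMaximal := seqMax_isMaximal r C p i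
    obtain ⟨B, _, _, _, hflat, hBN, hBc, hmap, hlift⟩ :=
      exists_completion.{u, u} (K := K) (A := A) (seqMax r C p i) (fun a => seqMax_res r C p i a)
    have hpim : ∀ c ∈ maximalIdeal D, algebraMap D A c ∈ seqMax r C p i := by
      intro c hc
      rw [mem_seqMax]
      exact (hp c).mpr hc
    have hev : ∀ a ∈ seqMax r C p i, (seqEv r C i : A →+* D) a ∈ maximalIdeal D := by
      intro a ha
      exact (hp _).mp ((mem_seqMax r C p i a).mp ha)
    obtain ⟨σ, hσ⟩ := hlift D (seqEv r C i : A →+* D) hev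
    have hkp : (RingHom.ker σ).IsPrime := RingHom.ker_isPrime σ
    obtain ⟨q, hq, hqσ⟩ := Ideal.exists_minimalPrimes_le (I := (⊥ : Ideal B)) (J := RingHom.ker σ)
      bot_le
    have hqp : q.IsPrime := hq.1.1
    obtain ⟨g, hg, hgint⟩ := exists_intertwiner_quot2 (ε := seqEv r C i) hx hρD (C i)
      (fun r a b => hρ r a b i) σ hσ q hqσ (hst i) (hTF i) r
    obtain ⟨P, hP, hqP, hπP, hPS⟩ := hprime B (by
      intro f hf
      obtain ⟨c, hc, rfl⟩ := List.mem_map.mp hf
      rw [← hmap]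
      exact Ideal.mem_map_of_mem _ (hpim c (hfs c hc))) q hq
    have hmp : (P.comap (algebraMap A B)).IsPrime := Ideal.comap_isPrime _ _
    refine ⟨P.comap (algebraMap A B), hPS, ?_, hmp, ?_⟩
    · rw [← hfset, Ideal.span_le]
      intro c hc
      exact hπP _ (List.mem_map.mpr ⟨c, Finset.mem_toList.mpr hc, rfl⟩)
    have hinf : Infinite (P.comap (algebraMap A B)).ResidueField :=
      Infinite.of_injective ((algebraMap A (P.comap (algebraMap A B)).ResidueField).comp φA)
        (RingHom.injective _)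
    apply descend_residue F (H i) q g hg _ P hqP _ rfl
    intro k
    ext a b
    rw [Matrix.mul_apply, Matrix.mul_apply]
    exact hgint k a b
  choose m hmS hπm hmp g' hg' hint using key
  obtain ⟨m₀, hm₀⟩ : ∃ m₀ : S, (( fun i => (⟨m i, hmS i⟩ : S)) ⁻¹' {m₀}).Infinite := by
    have : Finite S := hS
    obtain ⟨m₀, hm₀⟩ := Finite.exists_infinite_fiber (fun i => (⟨m i, hmS i⟩ : S))
    exact ⟨m₀, Set.infinite_coe_iff.mp hm₀⟩
  refine ⟨_, hm₀, ?_⟩
  have hmem : ∀ i ∈ (fun i => (⟨m i, hmS i⟩ : S)) ⁻¹' {m₀}, m i = m₀.1 := by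
    intro i hi
    exact congrArg Subtype.val hi
  have key2 : ∀ i ∈ (fun i => (⟨m i, hmS i⟩ : S)) ⁻¹' {m₀}, ∃ _ : m₀.1.IsPrime,
      maximalIdeal D ≤ m₀.1.comap (algebraMap D A) ∧
      ∃ g' : Matrix (Ix2 Q d) (Ix2 Q d) m₀.1.ResidueField, g'.det ≠ 0 ∧
      ∀ k, (F k).map (algebraMap A m₀.1.ResidueField) * g' =
        g' * (H i k).map (algebraMap A m₀.1.ResidueField) := by
    intro i hi
    rw [← hmem i hi]
    exact ⟨hmp i, hπm i, g' i, hg' i, hint i⟩
  intro i hi j hj
  obtain ⟨hm₀p, hπm₀, gi, hgi, hinti⟩ := key2 i hi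
  obtain ⟨_, _, gj, hgj, hintj⟩ := key2 j hj
  let κ := m₀.1.ResidueField
  let φ : K →+* κ := (algebraMap A κ).comp φA
  have hφ : ∀ c : D, algebraMap A κ (algebraMap D A c) = φ (p c) := by
    intro c
    have he : c - algebraMap K D (p c) ∈ maximalIdeal D := (hp _).mp (by
      rw [map_sub, AlgHom.commutes p, sub_eq_zero]
      rfl)
    have h1 : algebraMap A κ (algebraMap D A (c - algebraMap K D (p c))) = 0 := by
      rw [Ideal.algebraMap_residueField_eq_zero]
      exact hπm₀ he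
    rw [map_sub, map_sub, sub_eq_zero] at h1
    exact h1
  let G : ℕ → Fin n → Matrix (Ix2 Q d) (Ix2 Q d) K := fun i k => Matrix.of fun a b =>
    p ((C i).ρ (r k) a.1 b.1)
  have hH : ∀ i k, (H i k).map (algebraMap A κ) = (G i k).map φ := by
    intro i k
    ext a b
    exact hφ _
  obtain ⟨g, hg, hgint⟩ := similar_of_common φ (fun k => (F k).map (algebraMap A κ)) (G i) (G j)
    gi gj hgi hgj (fun k => by rw [← hH]; exact hinti k) (fun k => by rw [← hH]; exact hintj k)
  refine ⟨g, hg, fun k a b => ?_⟩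
  have h1 := congrFun (congrFun (hgint k) a) b
  rw [Matrix.mul_apply, Matrix.mul_apply] at h1
  exact h1

include hp hspan hst hTF in
theorem exists_infinite_similar2 :
    ∃ T : Set ℕ, T.Infinite ∧ ∀ i ∈ T, ∀ j ∈ T, ∃ g : Matrix (Ix2 Q d) (Ix2 Q d) K, g.det ≠ 0 ∧
      ∀ k (a b : Ix2 Q d), ∑ b', p ((C j).ρ (r k) a.1 b'.1) * g b' b =
        ∑ b', g a b' * p ((C i).ρ (r k) b'.1 b.1) := by
  rcases finite_or_infinite K with hK | hK
  · let G : ℕ → Fin n × (Ix2 Q d) × (Ix2 Q d) → K := fun i t =>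
      p ((C i).ρ (r t.1) t.2.1.1 t.2.2.1)
    obtain ⟨m₀, hm₀⟩ := Finite.exists_infinite_fiber G
    refine ⟨_, Set.infinite_coe_iff.mp hm₀, ?_⟩
    intro i hi j hj
    have hij : G j = G i := by
      rw [Set.mem_preimage, Set.mem_singleton_iff] at hi hj
      rw [hi, hj]
    refine ⟨1, by rw [Matrix.det_one]; exact one_ne_zero, fun k a b => ?_⟩
    rw [Finset.sum_eq_single b, Finset.sum_eq_single a]
    · rw [Matrix.one_apply_eq, Matrix.one_apply_eq, mul_one, one_mul]
      exact congrFun hij (k, a, b)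
    · intro b' _ hb'
      rw [Matrix.one_apply_ne hb'.symm, zero_mul]
    · intro h
      exact absurd (Finset.mem_univ _) h
    · intro b' _ hb'
      rw [Matrix.one_apply_ne hb', mul_zero]
    · intro h
      exact absurd (Finset.mem_univ _) h
  · exact exists_infinite_similar_inf p hp r hspan M C hst hTF

end StepA

end Pool.Agent.Lib.MP_682396_ag
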