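import Pool.Agent.Lib.MP_682396_ag.Curve.Surj
import Pool.Agent.Lib.MP_682396_ag.Gen.StepA
import Pool.Agent.Lib.MP_682396_ag.Gen.Red

/-!
# From intertwiners to surjections onto reductions
-/

set_option autoImplicit false
set_option linter.unusedSectionVars false

open Module IsLocalRing
open scoped Pointwise

universe u v w

namespace Pool.Agent.Lib.MP_682396_ag

open Tw

section StepA2

variable {D : Type u} [CommRing D] [IsDomain D] [IsNoetherianRing D] [IsLocalRing D]
  [IsAdicComplete (maximalIdeal D) D] {K : Type*} [Field K] [Algebra K D]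
  (p : D →ₐ[K] K) (hp : ∀ c, p c = 0 ↔ c ∈ maximalIdeal D)
  {R : Type u} [CommRing R] [IsLocalRing R] [Algebra K R] [Algebra D R] [IsScalarTower K D R]
  {Q : Type*} [Fintype Q]
  [DecidableEq Q] {d : ℕ} {x : Fin d → R} {n : ℕ} (r : Fin n → R)
  (hspan : ∀ r' : R, ∃ c : Fin n → D,
      r' - ∑ k, algebraMap D R (c k) * r k ∈ lev x R fun _ => 5)
  (M : ℕ → Type u)
  [∀ i, AddCommGroup (M i)] [∀ i, Module R (M i)] [∀ i, Module.Finite R (M i)]
  (C : ∀ i, CoordD D Q x (M i)) (hst : ∀ i l, StabAnn (x l) (M i)) (hTF : ∀ i, ExtTF (C i))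

include C hp hspan hst hTF in
/-- Infinitely many of the modules have the same reduction. -/
theorem exists_infinite_surjective2 (hx : ∀ l, x l ∈ maximalIdeal R)
    (hreg' : ∀ i, RegSys x (M i ⧸ redSub (maximalIdeal D) R (M i))) :
    ∃ T : Set ℕ, T.Infinite ∧ ∀ i ∈ T, ∀ j ∈ T,
      ∃ ψ : M i →ₗ[R] M j ⧸ redSub (maximalIdeal D) R (M j), Function.Surjective ψ := by
  obtain ⟨T, hT, h⟩ := exists_infinite_similar2 p hp r hspan M C hst hTF
  refine ⟨T, hT, fun i hi j hj => ?_⟩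
  obtain ⟨g, hg, hint⟩ := h i hi j hj
  obtain ⟨Ci, hCi, -⟩ := (C i).exists_red2 p (maximalIdeal D) hp
  obtain ⟨Cj, hCj, -⟩ := (C j).exists_red2 p (maximalIdeal D) hp
  obtain ⟨φ, hφ⟩ := exists_surjective_of_intertwiner Ci Cj g (isUnit_iff_ne_zero.mpr hg) (by
    intro r' a b
    obtain ⟨c, hc⟩ := hspan r'
    have h1 : ∀ i a b, p ((C i).ρ r' a b) = ∑ k, p (c k) * p ((C i).ρ (r k) a b) := by
      intro i a b
      rw [(C i).ρ_span hc a b, map_sum]
      simp only [map_mul]
    simp only [hCi, hCj, h1]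
    exact intertwiner_of_span (fun k a b => p ((C j).ρ (r k) a.1 b.1))
      (fun k a b => p ((C i).ρ (r k) a.1 b.1)) (fun k => p (c k)) g hint a b)
  exact exists_surjective_lift hx (hreg' j) (hst i) (φ ∘ₗ Submodule.mkQ _)
    (hφ.comp (Submodule.mkQ_surjective _))

end StepA2

end Pool.Agent.Lib.MP_682396_ag
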